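import Pool.Agent.H439.LS.LogVersion
import Pool.Graph.R_pool_sql_team_seeded_ab47071d.TH339.MP.U4

set_option autoImplicit false

namespace Pool.Agent.H439.LS

open Finset Complex NumberField IsDedekindDomain Polynomial Pool.Agent.TH339.MP

section
variable {K : Type} [Field K] [NumberField K] {N : ℕ}

/-- the twisted parameters -/
noncomputable def tw (β : HeightOneSpectrum (𝓞 K) → Fin N → ℂ) {q : ℕ} (χ : DirichletCharacter ℂ q)
    (v : HeightOneSpectrum (𝓞 K)) (j : Fin N) : ℂ := β v j * χ (nm v : ℕ)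

lemma norm_tw {β : HeightOneSpectrum (𝓞 K) → Fin N → ℂ} (hβ : ∀ v j, ‖β v j‖ ≤ 1) {q : ℕ}
    (χ : DirichletCharacter ℂ q) (v : HeightOneSpectrum (𝓞 K)) (j : Fin N) : ‖tw β χ v j‖ ≤ 1 := by
  unfold tw
  rw [norm_mul]
  exact mul_le_one₀ (hβ v j) (norm_nonneg _) (χ.norm_le_one _)

lemma bb_tw (β : HeightOneSpectrum (𝓞 K) → Fin N → ℂ) {q : ℕ} (χ : DirichletCharacter ℂ q)
    (x : PP) : bb (tw β χ) x = bb β x * χ (x.1 : ℕ) ^ (x.2 + 1) := by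
  unfold bb
  rw [sum_mul]
  apply sum_congr rfl
  intro v hv
  rw [mem_Sp] at hv
  by_cases h : dg v ∣ x.2 + 1
  · rw [if_pos h, if_pos h]
    obtain ⟨c, hc⟩ := h
    have e : (x.2 + 1) / dg v = c := by
      rw [hc, Nat.mul_div_cancel_left _ (dg_pos v)]
    rw [e]
    have h1 : ∀ j, tw β χ v j ^ c = β v j ^ c * χ (x.1 : ℕ) ^ (x.2 + 1) := by
      intro j
      unfold tw
      rw [mul_pow]
      congr 1
      rw [nm_eq, hv, Nat.cast_pow, map_pow, ← pow_mul, hc]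
    rw [sum_congr rfl fun j _ => h1 j, ← sum_mul]
    ring
  · rw [if_neg h, if_neg h, zero_mul]

/-- the coefficients at the primes -/
noncomputable def ap (β : HeightOneSpectrum (𝓞 K) → Fin N → ℂ) (p : ℕ) : ℂ :=
  if h : p.Prime then bb β (⟨p, h⟩, 0) else 0

lemma norm_ap {β : HeightOneSpectrum (𝓞 K) → Fin N → ℂ} (hβ : ∀ v j, ‖β v j‖ ≤ 1) (p : ℕ)
    (hp : p.Prime) : ‖ap β p‖ ≤ (Module.finrank ℚ K : ℝ) * N := by
  unfold ap
  rw [dif_pos hp]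
  have := norm_bb hβ (⟨p, hp⟩, 0)
  simpa using this

/-- the sum of the inverse squares of the primes -/
noncomputable def c₀ : ℝ := ∑' p : Nat.Primes, ((p : ℕ) : ℝ) ^ (-(2 : ℝ))

lemma c₀_nonneg : 0 ≤ c₀ := tsum_nonneg fun p => by positivity

lemma FF_PS {β : HeightOneSpectrum (𝓞 K) → Fin N → ℂ} (hβ : ∀ v j, ‖β v j‖ ≤ 1) {q : ℕ}
    (χ : DirichletCharacter ℂ q) {s : ℂ} (hs : 1 < s.re) :
    ‖FF (bb (tw β χ)) s - PS (ap β) χ s‖ ≤ (Module.finrank ℚ K : ℝ) * N * c₀ := by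
  set M : ℝ := (Module.finrank ℚ K : ℝ) * N with hM
  have hM0 : 0 ≤ M := by positivity
  have hb := norm_bb (norm_tw hβ χ)
  have hsum := summable_tm hb hs
  have h1 : FF (bb (tw β χ)) s = ∑' p : Nat.Primes, ∑' k : ℕ, tm (bb (tw β χ)) s (p, k) := by
    unfold FF
    exact hsum.tsum_prod
  have hk : ∀ p : Nat.Primes, Summable fun k : ℕ => tm (bb (tw β χ)) s (p, k) :=
    fun p => hsum.prod_factor p
  have h2 : ∀ p : Nat.Primes, ∑' k : ℕ, tm (bb (tw β χ)) s (p, k) =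
      ap β p * (χ (p : ℕ) * ((p : ℕ) : ℂ) ^ (-s)) + ∑' k : ℕ, tm (bb (tw β χ)) s (p, k + 1) := by
    intro p
    rw [(hk p).tsum_eq_zero_add]
    congr 1
    unfold tm ap
    rw [dif_pos p.2, bb_tw]
    simp
    ring
  have h3 : ∀ p : Nat.Primes, ‖∑' k : ℕ, tm (bb (tw β χ)) s (p, k + 1)‖ ≤
      M * ((p : ℕ) : ℝ) ^ (-(2 : ℝ)) := by
    intro p
    have hp0 := prime_pos p
    have hhalf : ‖((p : ℕ) : ℂ) ^ (-s)‖ ≤ 1 / 2 := norm_pr_cpow p hs.le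
    have hinv : ‖((p : ℕ) : ℂ) ^ (-s)‖ ≤ ((p : ℕ) : ℝ)⁻¹ := by
      rw [norm_pr_cpow', ← Real.rpow_neg_one]
      have : (1 : ℝ) ≤ ((p : ℕ) : ℝ) := by exact_mod_cast p.2.one_le
      exact Real.rpow_le_rpow_of_exponent_le this (by linarith)
    set x : ℝ := ‖((p : ℕ) : ℂ) ^ (-s)‖ with hx
    have hx0 : 0 ≤ x := norm_nonneg _
    have hterm : ∀ k : ℕ, ‖tm (bb (tw β χ)) s (p, k + 1)‖ ≤ M / 2 * x ^ 2 * (1 / 2) ^ k := by
      intro k
      unfold tm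
      simp only
      rw [norm_mul, norm_pow, ← hx]
      have h4 := hb (p, k + 1)
      simp only at h4
      have h5 : (2 : ℝ) ≤ ((k + 1 + 1 : ℕ) : ℝ) := by push_cast; linarith [Nat.cast_nonneg (α := ℝ) k]
      have h6 : ‖bb (tw β χ) (p, k + 1)‖ ≤ M / 2 :=
        h4.trans (div_le_div_of_nonneg_left hM0 (by norm_num) h5)
      have h7 : x ^ (k + 1 + 1) ≤ x ^ 2 * (1 / 2) ^ k := by
        rw [show k + 1 + 1 = 2 + k by ring, pow_add]
        exact mul_le_mul_of_nonneg_left (pow_le_pow_left₀ hx0 hhalf k) (by positivity)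
      calc ‖bb (tw β χ) (p, k + 1)‖ * x ^ (k + 1 + 1) ≤ (M / 2) * (x ^ 2 * (1 / 2) ^ k) :=
            mul_le_mul h6 h7 (by positivity) (by positivity)
        _ = _ := by ring
    have hg : HasSum (fun k : ℕ => M / 2 * x ^ 2 * (1 / 2 : ℝ) ^ k) (M / 2 * x ^ 2 * 2) :=
      hasSum_geometric_two.mul_left _
    refine (tsum_of_norm_bounded hg hterm).trans ?_
    have h8 : x ^ 2 ≤ ((p : ℕ) : ℝ) ^ (-(2 : ℝ)) := by
      rw [Real.rpow_neg hp0.le, Real.rpow_ofNat, ← inv_pow]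
      exact pow_le_pow_left₀ hx0 hinv 2
    calc M / 2 * x ^ 2 * 2 = M * x ^ 2 := by ring
      _ ≤ _ := mul_le_mul_of_nonneg_left h8 hM0
  have hps : Summable fun p : Nat.Primes => ((p : ℕ) : ℝ) ^ (-(2 : ℝ)) :=
    Nat.Primes.summable_rpow.2 (by norm_num)
  have hs1 : Summable fun p : Nat.Primes => ap β p * (χ (p : ℕ) * ((p : ℕ) : ℂ) ^ (-s)) := by
    refine Summable.of_norm_bounded (g := fun p : Nat.Primes => M * ((p : ℕ) : ℝ) ^ (-s.re))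
      ((Nat.Primes.summable_rpow.2 (by linarith)).mul_left M) fun p => ?_
    rw [norm_mul, norm_mul, norm_pr_cpow']
    have h9 := norm_ap hβ p p.2
    have h10 := χ.norm_le_one ((p : ℕ) : ZMod q)
    have h11 : 0 ≤ ((p : ℕ) : ℝ) ^ (-s.re) := Real.rpow_nonneg (prime_pos p).le _
    calc _ ≤ M * (1 * ((p : ℕ) : ℝ) ^ (-s.re)) := by
          apply mul_le_mul h9 _ (by positivity) hM0
          exact mul_le_mul_of_nonneg_right h10 h11
      _ = _ := by ring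
  have hs2 : Summable fun p : Nat.Primes => ∑' k : ℕ, tm (bb (tw β χ)) s (p, k + 1) :=
    Summable.of_norm_bounded (hps.mul_left M) h3
  have h12 : FF (bb (tw β χ)) s - PS (ap β) χ s =
      ∑' p : Nat.Primes, ∑' k : ℕ, tm (bb (tw β χ)) s (p, k + 1) := by
    rw [h1, tsum_congr h2, hs1.tsum_add hs2]
    unfold PS
    ring
  rw [h12]
  refine (tsum_of_norm_bounded (hps.hasSum.mul_left M) h3).trans (le_of_eq ?_)
  rfl

/-- the parameters of the Euler factors -/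
lemma exists_beta_all (w : ℝ) (P : HeightOneSpectrum (𝓞 K) → ℂ[X])
    (h0 : ∀ v, (P v).coeff 0 = 1) (hN : ∀ v, (P v).natDegree ≤ N)
    (hroot : ∀ v, ∀ z : ℂ, (P v).IsRoot z → ((nm v : ℕ) : ℝ) ^ (-(w / 2)) ≤ ‖z‖) :
    ∃ β : HeightOneSpectrum (𝓞 K) → Fin N → ℂ, (∀ v j, ‖β v j‖ ≤ 1) ∧
      ∀ v, ∀ x : ℂ, (P v).eval x =
        ∏ j, (1 - β v j * ((((nm v : ℕ) : ℝ) ^ (w / 2) : ℝ) : ℂ) * x) := by
  have hpos : ∀ v : HeightOneSpectrum (𝓞 K), (0 : ℝ) < ((nm v : ℕ) : ℝ) := by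
    intro v
    rw [nm_eq, Nat.cast_pow]
    exact pow_pos (prime_pos _) _
  have hRpos : ∀ v : HeightOneSpectrum (𝓞 K), (0 : ℝ) < ((nm v : ℕ) : ℝ) ^ (w / 2) := fun v =>
    Real.rpow_pos_of_pos (hpos v) _
  have h1 : ∀ v, ∃ α : Fin N → ℂ, (∀ j, ‖α j‖ ≤ ((nm v : ℕ) : ℝ) ^ (w / 2)) ∧
      ∀ x : ℂ, (P v).eval x = ∏ j, (1 - α j * x) := by
    intro v
    refine poly_alpha (P v) (h0 v) (hN v) (hRpos v) fun z hz => ?_
    rw [← Real.rpow_neg (hpos v).le]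
    exact hroot v z hz
  choose α hα1 hα2 using h1
  refine ⟨fun v j => α v j * (((((nm v : ℕ) : ℝ) ^ (w / 2))⁻¹ : ℝ) : ℂ), ?_, ?_⟩
  · intro v j
    rw [norm_mul, Complex.norm_real, norm_inv, Real.norm_of_nonneg (hRpos v).le]
    rw [← div_eq_mul_inv, div_le_one (hRpos v)]
    exact hα1 v j
  · intro v x
    rw [hα2]
    refine Finset.prod_congr rfl fun j _ => ?_
    have h4 : (((((nm v : ℕ) : ℝ) ^ (w / 2))⁻¹ : ℝ) : ℂ) *
        ((((nm v : ℕ) : ℝ) ^ (w / 2) : ℝ) : ℂ) = 1 := by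
      rw [← Complex.ofReal_mul, inv_mul_cancel₀ (hRpos v).ne', Complex.ofReal_one]
    rw [mul_assoc (α v j), h4, mul_one]

/-- **The twisted Euler products.** -/
lemma hasProd_twist (w : ℝ) (P : HeightOneSpectrum (𝓞 K) → ℂ[X])
    (h0 : ∀ v, (P v).coeff 0 = 1) (hN : ∀ v, (P v).natDegree ≤ N)
    (hroot : ∀ v, ∀ z : ℂ, (P v).IsRoot z → ((nm v : ℕ) : ℝ) ^ (-(w / 2)) ≤ ‖z‖) :
    ∃ a : ℕ → ℂ, (∀ p : ℕ, p.Prime → ‖a p‖ ≤ (Module.finrank ℚ K : ℝ) * N) ∧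
      ∀ (q : ℕ) (χ : DirichletCharacter ℂ q) (s : ℂ), 1 + w / 2 < s.re → ∃ Λ : ℂ,
        HasProd (fun v => ((P v).eval (χ (nm v : ℕ) * ((nm v : ℕ) : ℂ) ^ (-s)))⁻¹)
          (Complex.exp Λ) ∧
        ‖Λ - PS a χ (s - (w / 2 : ℝ))‖ ≤ (Module.finrank ℚ K : ℝ) * N * c₀ := by
  obtain ⟨β, h1, h2⟩ := exists_beta_all w P h0 hN hroot
  refine ⟨ap β, norm_ap h1, fun q χ s hs => ⟨FF (bb (tw β χ)) (s - (w / 2 : ℝ)), ?_, ?_⟩⟩
  · have hre : 1 < (s - (w / 2 : ℝ)).re := by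
      rw [Complex.sub_re, Complex.ofReal_re]
      linarith
    have h3 := hasProd_L (norm_tw h1 χ) hre
    convert h3 using 1
    funext v
    rw [h2, ← Finset.prod_inv_distrib]
    apply Finset.prod_congr rfl
    intro j _
    congr 2
    unfold tw
    have hpos : (0 : ℝ) < ((nm v : ℕ) : ℝ) := by
      rw [nm_eq, Nat.cast_pow]
      exact pow_pos (prime_pos _) _
    have hne : ((nm v : ℕ) : ℂ) ≠ 0 := by
      have := hpos.ne'
      exact_mod_cast this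
    have h3 : ((nm v : ℕ) : ℂ) ^ (-(s - (w / 2 : ℝ))) =
        ((((nm v : ℕ) : ℝ) ^ (w / 2) : ℝ) : ℂ) * ((nm v : ℕ) : ℂ) ^ (-s) := by
      rw [show -(s - ((w / 2 : ℝ) : ℂ)) = ((w / 2 : ℝ) : ℂ) + -s by ring, cpow_add _ _ hne]
      congr 1
      rw [Complex.ofReal_cpow hpos.le]
      push_cast
      rfl
    rw [h3]
    ring
  · have hre : 1 < (s - (w / 2 : ℝ)).re := by
      rw [Complex.sub_re, Complex.ofReal_re]
      linarith
    exact FF_PS h1 χ hre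

end

end Pool.Agent.H439.LS
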