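import Pool.Agent.H439.LS.Taub
import Pool.Agent.H439.LS.Field

set_option autoImplicit false

namespace Pool.Agent.H439.LS

open Finset Complex NumberField IsDedekindDomain Polynomial Pool.Agent.TH339.MP

lemma coeff_prod {N : ℕ} (α : Fin N → ℂ) (s : Finset (Fin N)) :
    (∏ j ∈ s, (1 - C (α j) * X)).coeff 0 = 1 ∧
      (∏ j ∈ s, (1 - C (α j) * X)).coeff 1 = -∑ j ∈ s, α j := by
  classical
  induction s using Finset.induction_on with
  | empty => simp [Polynomial.coeff_one]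
  | insert a s ha ih =>
    rw [prod_insert ha, sum_insert ha, mul_coeff_zero, mul_coeff_one, ih.1, ih.2]
    constructor
    · simp
    · simp [Polynomial.coeff_one]

section
variable {K : Type} [Field K] [NumberField K] {N : ℕ}

lemma coeff_one_eq {β : HeightOneSpectrum (𝓞 K) → Fin N → ℂ} {w : ℝ}
    {P : HeightOneSpectrum (𝓞 K) → ℂ[X]} (v : HeightOneSpectrum (𝓞 K))
    (h : ∀ x : ℂ, (P v).eval x = ∏ j, (1 - β v j * ((((nm v : ℕ) : ℝ) ^ (w / 2) : ℝ) : ℂ) * x)) :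
    (P v).coeff 1 = -∑ j, β v j * ((((nm v : ℕ) : ℝ) ^ (w / 2) : ℝ) : ℂ) := by
  have h1 : P v = ∏ j, (1 - C (β v j * ((((nm v : ℕ) : ℝ) ^ (w / 2) : ℝ) : ℂ)) * X) := by
    apply Polynomial.funext
    intro x
    rw [h x, Polynomial.eval_prod]
    simp
  rw [h1]
  exact (coeff_prod _ _).2

/-- the normalised trace -/
noncomputable def tr (β : HeightOneSpectrum (𝓞 K) → Fin N → ℂ) (v : HeightOneSpectrum (𝓞 K)) : ℂ :=
  ∑ j, β v j

omit [NumberField K] in
lemma norm_tr {β : HeightOneSpectrum (𝓞 K) → Fin N → ℂ} (hβ : ∀ v j, ‖β v j‖ ≤ 1)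
    (v : HeightOneSpectrum (𝓞 K)) : ‖tr β v‖ ≤ N := by
  unfold tr
  refine (norm_sum_le_of_le (n := fun _ => (1 : ℝ)) _ fun j _ => hβ v j).trans ?_
  simp

lemma ap_eq (β : HeightOneSpectrum (𝓞 K) → Fin N → ℂ) {p : ℕ} (hp : p.Prime) :
    ap β p = ∑ v ∈ (Sp ⟨p, hp⟩ : Finset (HeightOneSpectrum (𝓞 K))).filter (fun v => dg v = 1),
      tr β v := by
  unfold ap bb tr
  rw [dif_pos hp, sum_filter]
  apply sum_congr rfl
  intro v _
  simp only [zero_add, Nat.dvd_one, Nat.cast_one, div_one]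
  by_cases h : dg v = 1
  · rw [if_pos h, if_pos h, h]
    simp
  · rw [if_neg h, if_neg h]

open Classical in
/-- the primes of norm at most `T`, and some others -/
noncomputable def VT (T : ℕ) : Finset (HeightOneSpectrum (𝓞 K)) :=
  (((range (T + 1)).subtype Nat.Prime : Finset {p : ℕ // p.Prime})).biUnion
    (fun p => (Sp (⟨p.1, p.2⟩ : Nat.Primes) : Finset (HeightOneSpectrum (𝓞 K))))

lemma pr_le_nm (v : HeightOneSpectrum (𝓞 K)) : ((pr v : Nat.Primes) : ℕ) ≤ nm v := by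
  rw [nm_eq]
  exact Nat.le_self_pow (dg_pos v).ne' _

lemma mem_VT {T : ℕ} {v : HeightOneSpectrum (𝓞 K)} (h : nm v ≤ T) : v ∈ VT T := by
  classical
  unfold VT
  rw [mem_biUnion]
  refine ⟨⟨(pr v : ℕ), (pr v).2⟩, ?_, ?_⟩
  · rw [mem_subtype, mem_range]
    exact Nat.lt_succ_of_le ((pr_le_nm v).trans h)
  · rw [mem_Sp]
    rfl

lemma sum_VT (T : ℕ) (f : HeightOneSpectrum (𝓞 K) → ℂ) : ∑ v ∈ VT T, f v =
    ∑ p ∈ (range (T + 1)).subtype Nat.Prime,
      ∑ v ∈ (Sp (⟨p.1, p.2⟩ : Nat.Primes) : Finset (HeightOneSpectrum (𝓞 K))), f v := by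
  classical
  unfold VT
  rw [sum_biUnion]
  intro p _ r _ hpr
  rw [Function.onFun, disjoint_left]
  intro v hv hv'
  rw [mem_Sp] at hv hv'
  rw [hv] at hv'
  apply hpr
  have := congrArg Subtype.val hv'
  exact Subtype.ext this

/-- the sum over the primes of norm in `(A, T]` -/
noncomputable def SV (β : HeightOneSpectrum (𝓞 K) → Fin N → ℂ) {q : ℕ} (χ : DirichletCharacter ℂ q)
    (t : ℝ) (A T : ℕ) : ℂ :=
  ∑ v ∈ VT T with (A < nm v ∧ nm v ≤ T),
    tr β v * (χ (nm v : ℕ) * ph t (nm v)) * Real.log (nm v : ℕ)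

lemma card_Sp_le (p : Nat.Primes) :
    ((Sp p : Finset (HeightOneSpectrum (𝓞 K))).card : ℝ) ≤ Module.finrank ℚ K := by
  exact_mod_cast card_Sp (K := K) p

lemma SV_approx {β : HeightOneSpectrum (𝓞 K) → Fin N → ℂ} (hβ : ∀ v j, ‖β v j‖ ≤ 1) {q : ℕ}
    (χ : DirichletCharacter ℂ q) (t : ℝ) {A T : ℕ} (hT : 1 ≤ T) :
    ‖SV β χ t A T - ∑ p ∈ (Ioc A T).filter Nat.Prime,
      ap β p * Real.log p * (χ p * ph t p)‖ ≤
      (Module.finrank ℚ K * N) * (Real.sqrt T * Real.log T) := by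
  classical
  set M : ℝ := (Module.finrank ℚ K : ℝ) * N with hM
  have hT1 : (1 : ℝ) ≤ T := by exact_mod_cast hT
  have hlogT := Real.log_nonneg hT1
  -- rewriting
  set f : HeightOneSpectrum (𝓞 K) → ℂ := fun v =>
    if A < nm v ∧ nm v ≤ T then tr β v * (χ (nm v : ℕ) * ph t (nm v)) * Real.log (nm v : ℕ) else 0
    with hf
  have e1 : SV β χ t A T = ∑ p ∈ (range (T + 1)).subtype Nat.Prime,
      ∑ v ∈ (Sp (⟨p.1, p.2⟩ : Nat.Primes) : Finset (HeightOneSpectrum (𝓞 K))), f v := by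
    rw [← sum_VT, SV, sum_filter]
  have e2 : ∑ p ∈ (Ioc A T).filter Nat.Prime, ap β p * Real.log p * (χ p * ph t p) =
      ∑ p ∈ (range (T + 1)).subtype Nat.Prime,
      ∑ v ∈ (Sp (⟨p.1, p.2⟩ : Nat.Primes) : Finset (HeightOneSpectrum (𝓞 K))) with dg v = 1, f v := by
    have a1 : ∀ p ∈ (range (T + 1)).subtype Nat.Prime,
        ∑ v ∈ (Sp (⟨p.1, p.2⟩ : Nat.Primes) : Finset (HeightOneSpectrum (𝓞 K))) with dg v = 1, f v =
        (fun p : ℕ => if A < p ∧ p ≤ T then ap β p * Real.log p * (χ p * ph t p) else 0) p.1 := by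
      intro p _
      simp only
      rw [ap_eq β p.2]
      have a2 : ∀ v ∈ (Sp (⟨p.1, p.2⟩ : Nat.Primes) : Finset (HeightOneSpectrum (𝓞 K))).filter
          (fun v => dg v = 1), f v = if A < p.1 ∧ p.1 ≤ T then
            tr β v * (χ p.1 * ph t p.1) * Real.log p.1 else 0 := by
        intro v hv
        rw [mem_filter, mem_Sp] at hv
        have a3 : nm v = p.1 := by
          rw [nm_eq, hv.2, pow_one, hv.1]
        simp only [hf]
        rw [a3]
      rw [sum_congr rfl a2]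
      split_ifs
      · rw [sum_mul, sum_mul]
        apply sum_congr rfl
        intro v _
        ring
      · exact sum_const_zero
    rw [sum_congr rfl a1]
    rw [sum_subtype_eq_sum_filter (f := fun p : ℕ => if A < p ∧ p ≤ T then
      ap β p * Real.log p * (χ p * ph t p) else 0), ← sum_filter]
    apply sum_congr _ (fun _ _ => rfl)
    ext p
    simp only [mem_filter, mem_Ioc, mem_range]
    constructor
    · rintro ⟨⟨h1, h2⟩, h3⟩
      exact ⟨⟨by omega, h3⟩, h1, h2⟩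
    · rintro ⟨⟨_, h3⟩, h1, h2⟩
      exact ⟨⟨h1, h2⟩, h3⟩
  rw [e1, e2, ← sum_sub_distrib]
  have e3 : ∀ p ∈ (range (T + 1)).subtype Nat.Prime,
      ‖(∑ v ∈ (Sp (⟨p.1, p.2⟩ : Nat.Primes) : Finset (HeightOneSpectrum (𝓞 K))), f v -
      ∑ v ∈ (Sp (⟨p.1, p.2⟩ : Nat.Primes) : Finset (HeightOneSpectrum (𝓞 K))) with dg v = 1, f v)‖ ≤
      (fun p : ℕ => if p ^ 2 ≤ T then M * Real.log T else 0) p.1 := by
    intro p _
    simp only
    have a1 : ∑ v ∈ (Sp (⟨p.1, p.2⟩ : Nat.Primes) : Finset (HeightOneSpectrum (𝓞 K))), f v -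
      ∑ v ∈ (Sp (⟨p.1, p.2⟩ : Nat.Primes) : Finset (HeightOneSpectrum (𝓞 K))) with dg v = 1, f v =
      ∑ v ∈ (Sp (⟨p.1, p.2⟩ : Nat.Primes) : Finset (HeightOneSpectrum (𝓞 K))) with ¬ dg v = 1, f v := by
      rw [← sum_filter_add_sum_filter_not (Sp (⟨p.1, p.2⟩ : Nat.Primes) : Finset (HeightOneSpectrum (𝓞 K)))
        (fun v => dg v = 1) f]
      ring
    rw [a1]
    have a2 : ∀ v ∈ (Sp (⟨p.1, p.2⟩ : Nat.Primes) : Finset (HeightOneSpectrum (𝓞 K))).filter
        (fun v => ¬ dg v = 1), ‖f v‖ ≤ if p.1 ^ 2 ≤ T then N * Real.log T else 0 := by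
      intro v hv
      rw [mem_filter, mem_Sp] at hv
      have h2 : 2 ≤ dg v := by
        have := dg_pos v
        omega
      have h3 : p.1 ^ 2 ≤ nm v := by
        rw [nm_eq, hv.1]
        exact Nat.pow_le_pow_right p.2.pos h2
      have hnm : 1 ≤ nm v := le_trans (Nat.one_le_pow _ _ p.2.pos) h3
      simp only [hf]
      by_cases h4 : A < nm v ∧ nm v ≤ T
      · rw [if_pos h4, if_pos (h3.trans h4.2), norm_mul, norm_mul, norm_mul, norm_ph _ hnm, mul_one,
          norm_real, Real.norm_of_nonneg (Real.log_nonneg (by exact_mod_cast hnm))]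
        have h5 := norm_tr hβ v
        have h6 : ‖χ ((nm v : ℕ) : ZMod q)‖ ≤ 1 := χ.norm_le_one _
        have h7 : Real.log (nm v : ℕ) ≤ Real.log T :=
          Real.log_le_log (by exact_mod_cast hnm) (by exact_mod_cast h4.2)
        have h8 : 0 ≤ Real.log (nm v : ℕ) := Real.log_nonneg (by exact_mod_cast hnm)
        calc ‖tr β v‖ * ‖χ ((nm v : ℕ) : ZMod q)‖ * Real.log (nm v : ℕ) ≤ N * 1 * Real.log T := by
              gcongr
          _ = _ := by ring
      · rw [if_neg h4, norm_zero]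
        split_ifs
        · positivity
        · exact le_rfl
    refine (norm_sum_le_of_le _ a2).trans ?_
    rw [sum_const, nsmul_eq_mul]
    split_ifs
    · have h9 : (((Sp (⟨p.1, p.2⟩ : Nat.Primes) : Finset (HeightOneSpectrum (𝓞 K))).filter
          (fun v => ¬ dg v = 1)).card : ℝ) ≤ Module.finrank ℚ K := by
        refine le_trans ?_ (card_Sp_le (K := K) ⟨p.1, p.2⟩)
        exact_mod_cast card_filter_le _ _
      calc _ ≤ (Module.finrank ℚ K : ℝ) * (N * Real.log T) :=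
            mul_le_mul_of_nonneg_right h9 (by positivity)
        _ = _ := by rw [hM]; ring
    · simp
  refine (norm_sum_le_of_le _ e3).trans ?_
  rw [sum_subtype_eq_sum_filter (f := fun p : ℕ => if p ^ 2 ≤ T then M * Real.log T else 0),
    ← sum_filter, sum_const, nsmul_eq_mul]
  have h10 : ((((range (T + 1)).filter Nat.Prime).filter (fun p => p ^ 2 ≤ T)).card : ℝ) ≤
      Real.sqrt T := by
    have h11 : (((range (T + 1)).filter Nat.Prime).filter (fun p => p ^ 2 ≤ T)) ⊆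
        Icc 1 (Nat.sqrt T) := by
      intro p hp
      rw [mem_filter, mem_filter] at hp
      rw [mem_Icc]
      exact ⟨hp.1.2.pos, by rw [Nat.le_sqrt']; exact hp.2⟩
    have h12 := card_le_card h11
    rw [Nat.card_Icc, Nat.add_sub_cancel] at h12
    calc ((((range (T + 1)).filter Nat.Prime).filter (fun p => p ^ 2 ≤ T)).card : ℝ) ≤
          (Nat.sqrt T : ℝ) := by exact_mod_cast h12
      _ ≤ Real.sqrt T := Real.nat_sqrt_le_real_sqrt
  calc _ ≤ Real.sqrt T * (M * Real.log T) := mul_le_mul_of_nonneg_right h10 (by positivity)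
    _ = _ := by ring

/-- **The Tauberian large sieve inequality over number fields.** -/
theorem taub_field {β : HeightOneSpectrum (𝓞 K) → Fin N → ℂ} (hβ : ∀ v j, ‖β v j‖ ≤ 1)
    {J : ℕ} {q : Fin J → ℕ} {χ : ∀ j, DirichletCharacter ℂ (q j)} {t : Fin J → ℝ}
    {A T : ℕ} (hAT : A < T) (hT : (60000 : ℝ) ^ 40 ≤ T)
    (hs : SpacedBy ((T : ℝ) / (T - A)) q χ t) {R : ℝ} (hR : 16 ≤ R) (hq : ∀ j, (q j : ℝ) ≤ R)
    (ht : ∀ j, |t j| ≤ R) (hRT : R ^ 40 ≤ T) (hRA : (T : ℝ) ≤ R * (T - A)) (hN : 0 < N) :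
    ∑ j, ‖SV β (χ j) (t j) A T‖ ^ 2 ≤
      (2 * CT + 2) * (Module.finrank ℚ K * N) ^ 2 * ((T : ℝ) - A) ^ 2 := by
  set M : ℝ := (Module.finrank ℚ K : ℝ) * N with hM
  have hn : 0 < Module.finrank ℚ K := Module.finrank_pos
  have hM0 : 0 < M := by positivity
  have hR0 : 0 < R := by linarith
  have hAT' : (A : ℝ) < T := by exact_mod_cast hAT
  have hT0 : (0 : ℝ) < T := lt_of_lt_of_le (by norm_num) hT
  have hT1 : (1 : ℝ) < T := lt_of_lt_of_le (by norm_num) hT
  have h1 := taub hAT hT hs hR hq ht hRT hRA hM0 (norm_ap hβ)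
  rw [norm_vec, Real.sq_sqrt (sum_nonneg fun j _ => by positivity)] at h1
  have hsp : Spaced q χ t := hs.spaced (by
    rw [le_div_iff₀ (by linarith)]
    have : (0 : ℝ) ≤ A := Nat.cast_nonneg A
    linarith)
  have hJ := card_le hsp hR hq ht
  -- the error
  have herr : (J : ℝ) * (M * (Real.sqrt T * Real.log T)) ^ 2 ≤ M ^ 2 * ((T : ℝ) - A) ^ 2 := by
    set τ : ℝ := (T : ℝ) ^ (1 / 40 : ℝ) with hτ
    have hτ40 : τ ^ 40 = T := by
      rw [hτ, ← Real.rpow_natCast, ← Real.rpow_mul hT0.le]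
      norm_num
    have hτ0 : 0 < τ := Real.rpow_pos_of_pos hT0 _
    have hτ1 : 60000 ≤ τ := by
      by_contra hlt
      rw [not_le] at hlt
      have : τ ^ 40 < 60000 ^ 40 := pow_lt_pow_left₀ hlt hτ0.le (by norm_num)
      rw [hτ40] at this
      linarith
    have hRτ : R ≤ τ := by
      by_contra hlt
      rw [not_le] at hlt
      have : τ ^ 40 < R ^ 40 := pow_lt_pow_left₀ hlt hτ0.le (by norm_num)
      rw [hτ40] at this
      linarith
    have hlogτ : Real.log T ≤ 40 * τ := by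
      rw [← hτ40, Real.log_pow]
      have := Real.log_le_sub_one_of_pos hτ0
      push_cast
      linarith
    have hlogT0 : 0 ≤ Real.log T := Real.log_nonneg hT1.le
    have h2 : τ ^ 39 ≤ (T : ℝ) - A := by
      have h3 : τ * τ ^ 39 ≤ τ * ((T : ℝ) - A) := by
        have e : τ * τ ^ 39 = T := by rw [← hτ40]; ring
        rw [e]
        exact hRA.trans (mul_le_mul_of_nonneg_right hRτ (by linarith))
      exact le_of_mul_le_mul_left h3 hτ0
    have h3 : (J : ℝ) ≤ τ ^ 4 := hJ.trans (pow_le_pow_left₀ hR0.le hRτ 4)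
    calc (J : ℝ) * (M * (Real.sqrt T * Real.log T)) ^ 2 =
          J * M ^ 2 * (Real.sqrt T) ^ 2 * (Real.log T) ^ 2 := by ring
      _ = J * M ^ 2 * T * (Real.log T) ^ 2 := by rw [Real.sq_sqrt hT0.le]
      _ ≤ τ ^ 4 * M ^ 2 * τ ^ 40 * (40 * τ) ^ 2 := by rw [hτ40]; gcongr
      _ = M ^ 2 * (1600 * τ ^ 46) := by ring
      _ ≤ M ^ 2 * (τ ^ 39) ^ 2 := by
          apply mul_le_mul_of_nonneg_left _ (by positivity)
          have e : (τ ^ 39) ^ 2 = τ ^ 32 * τ ^ 46 := by ring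
          rw [e]
          apply mul_le_mul_of_nonneg_right _ (by positivity)
          have : (60000 : ℝ) ^ 32 ≤ τ ^ 32 := pow_le_pow_left₀ (by norm_num) hτ1 32
          exact le_trans (by norm_num) this
      _ ≤ M ^ 2 * ((T : ℝ) - A) ^ 2 := by gcongr
  have h2 : ∀ j, ‖SV β (χ j) (t j) A T‖ ^ 2 ≤
      2 * ‖∑ p ∈ (Ioc A T).filter Nat.Prime, ap β p * Real.log p * (χ j p * ph (t j) p)‖ ^ 2 +
      2 * (M * (Real.sqrt T * Real.log T)) ^ 2 := by
    intro j
    have h3 := SV_approx hβ (χ j) (t j) (A := A) (T := T) (by omega)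
    set S := SV β (χ j) (t j) A T with hS
    set Q := ∑ p ∈ (Ioc A T).filter Nat.Prime, ap β p * Real.log p * (χ j p * ph (t j) p) with hQ
    have h4 : ‖S‖ ≤ ‖S - Q‖ + ‖Q‖ := by
      have := norm_add_le (S - Q) Q
      rwa [sub_add_cancel] at this
    rw [← hM] at h3
    have h5 : ‖S‖ ^ 2 ≤ (M * (Real.sqrt T * Real.log T) + ‖Q‖) ^ 2 :=
      pow_le_pow_left₀ (norm_nonneg _) (by linarith) 2
    nlinarith [sq_nonneg (M * (Real.sqrt T * Real.log T) - ‖Q‖)]
  refine (sum_le_sum fun j _ => h2 j).trans ?_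
  rw [sum_add_distrib, ← mul_sum, sum_const, card_univ, Fintype.card_fin, nsmul_eq_mul]
  have h6 : (J : ℝ) * (2 * (M * (Real.sqrt T * Real.log T)) ^ 2) ≤ 2 * (M ^ 2 * ((T : ℝ) - A) ^ 2) := by
    linarith
  have h7 : (2 * CT + 2) * M ^ 2 * ((T : ℝ) - A) ^ 2 = 2 * (CT * M ^ 2 * ((T : ℝ) - A) ^ 2) +
      2 * (M ^ 2 * ((T : ℝ) - A) ^ 2) := by ring
  rw [h7]
  exact add_le_add (by linarith) h6

end

end Pool.Agent.H439.LS
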