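import Pool.Agent.H439.LS.Field

set_option autoImplicit false

namespace Pool.Agent.H439.LS

open Finset

/-- the number of the points of a spaced family -/
lemma card_le {J : ℕ} {q : Fin J → ℕ} {χ : ∀ j, DirichletCharacter ℂ (q j)} {t : Fin J → ℝ}
    (h : Spaced q χ t) {R : ℝ} (hR : 16 ≤ R) (hq : ∀ j, (q j : ℝ) ≤ R) (ht : ∀ j, |t j| ≤ R) :
    (J : ℝ) ≤ R ^ 4 := by
  classical
  have hR0 : 0 ≤ R := by linarith
  -- the fibres
  have hfib : ∀ m : ℕ, 0 < m → ((univ.filter fun j => q j = m).card : ℝ) ≤ m * (2 * R + 3) := by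
    intro m hm
    have : NeZero m := ⟨hm.ne'⟩
    set g : {j // q j = m} → DirichletCharacter ℂ m := fun j => j.2 ▸ χ j.1 with hg
    have hgn : ∀ (j : {j // q j = m}) (n : ℕ), g j (n : ZMod m) = χ j.1 (n : ZMod (q j.1)) := by
      rintro ⟨j, rfl⟩ n
      rfl
    set B : ℤ := ⌊R⌋ + 1 with hB
    have hmem : ∀ j, ⌊t j⌋ ∈ Icc (-B) B := by
      intro j
      have h1 := abs_le.1 (ht j)
      have h2 := Int.floor_le (t j)
      have h3 := Int.lt_floor_add_one (t j)
      have h4 := Int.lt_floor_add_one R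
      rw [mem_Icc]
      constructor
      · have : ((-B : ℤ) : ℝ) < (⌊t j⌋ : ℝ) + 1 := by
          rw [hB]; push_cast; linarith
        have h5 : (-B : ℤ) < ⌊t j⌋ + 1 := by exact_mod_cast this
        omega
      · have : ((⌊t j⌋ : ℤ) : ℝ) < B := by
          rw [hB]; push_cast; linarith
        have h5 : ⌊t j⌋ < B := by exact_mod_cast this
        omega
    set F : {j // q j = m} → DirichletCharacter ℂ m × (Icc (-B) B : Finset ℤ) :=
      fun j => (g j, ⟨⌊t j.1⌋, hmem j.1⟩) with hF
    have hinj : Function.Injective F := by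
      intro a b hab
      by_contra hne
      have hne' : a.1 ≠ b.1 := fun e => hne (Subtype.ext e)
      have h1 : g a = g b := congrArg Prod.fst hab
      have h2 : ⌊t a.1⌋ = ⌊t b.1⌋ := by
        have := congrArg Prod.snd hab
        exact congrArg Subtype.val this
      have hA : Agree (χ a.1) (χ b.1) := by
        intro n _
        rw [← hgn a n, ← hgn b n, h1]
      have h3 := h.sep a.1 b.1 hne' hA
      have h4 := Int.floor_le (t a.1)
      have h5 := Int.lt_floor_add_one (t a.1)
      have h6 := Int.floor_le (t b.1)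
      have h7 := Int.lt_floor_add_one (t b.1)
      rw [h2] at h4 h5
      have : |t a.1 - t b.1| < 1 := by rw [abs_lt]; constructor <;> linarith
      linarith
    have hc := Fintype.card_le_of_injective F hinj
    rw [Fintype.card_prod, Fintype.card_subtype, Fintype.card_coe, Int.card_Icc] at hc
    have h8 : Fintype.card (DirichletCharacter ℂ m) ≤ m := by
      have := DirichletCharacter.card_eq_totient_of_hasEnoughRootsOfUnity ℂ m
      rw [← Nat.card_eq_fintype_card, this]
      exact Nat.totient_le m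
    have h9 : ((B + 1 - -B).toNat : ℝ) ≤ 2 * R + 3 := by
      have hB0 : 0 ≤ B := by
        rw [hB]
        have := Int.floor_nonneg.2 hR0
        omega
      have : (((B + 1 - -B).toNat : ℤ) : ℝ) = 2 * (B : ℝ) + 1 := by
        rw [Int.toNat_of_nonneg (by omega)]
        push_cast
        ring
      have h10 : ((B + 1 - -B).toNat : ℝ) = 2 * (B : ℝ) + 1 := by exact_mod_cast this
      rw [h10, hB]
      push_cast
      have := Int.floor_le R
      linarith
    calc ((univ.filter fun j => q j = m).card : ℝ) ≤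
          ((Fintype.card (DirichletCharacter ℂ m) * (B + 1 - -B).toNat : ℕ) : ℝ) := by
            exact_mod_cast hc
      _ = (Fintype.card (DirichletCharacter ℂ m) : ℝ) * ((B + 1 - -B).toNat : ℝ) := by push_cast; rfl
      _ ≤ m * (2 * R + 3) := by
          apply mul_le_mul _ h9 (Nat.cast_nonneg _) (Nat.cast_nonneg _)
          exact_mod_cast h8
  have hmaps : ∀ j ∈ (univ : Finset (Fin J)), q j ∈ Icc 1 ⌊R⌋₊ := by
    intro j _
    rw [mem_Icc]
    exact ⟨h.pos j, Nat.le_floor (hq j)⟩
  have h1 := card_eq_sum_card_fiberwise hmaps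
  rw [card_univ, Fintype.card_fin] at h1
  have h2 : (J : ℝ) = ∑ m ∈ Icc 1 ⌊R⌋₊, ((univ.filter fun j => q j = m).card : ℝ) := by
    conv_lhs => rw [h1]
    push_cast
    rfl
  rw [h2]
  have h3 : ∀ m ∈ Icc 1 ⌊R⌋₊, ((univ.filter fun j => q j = m).card : ℝ) ≤ R * (2 * R + 3) := by
    intro m hm
    rw [mem_Icc] at hm
    refine (hfib m hm.1).trans ?_
    apply mul_le_mul_of_nonneg_right _ (by linarith)
    exact (Nat.le_floor_iff hR0).1 hm.2
  refine (sum_le_sum h3).trans ?_
  rw [sum_const, Nat.card_Icc, nsmul_eq_mul]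
  have h4 : ((⌊R⌋₊ + 1 - 1 : ℕ) : ℝ) ≤ R := by
    rw [Nat.add_sub_cancel]; exact Nat.floor_le hR0
  calc ((⌊R⌋₊ + 1 - 1 : ℕ) : ℝ) * (R * (2 * R + 3)) ≤ R * (R * (2 * R + 3)) := by
        apply mul_le_mul_of_nonneg_right h4 (by positivity)
    _ = R ^ 2 * (2 * R + 3) := by ring
    _ ≤ R ^ 2 * R ^ 2 := by
        apply mul_le_mul_of_nonneg_left _ (by positivity)
        nlinarith
    _ = R ^ 4 := by ring

end Pool.Agent.H439.LS
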