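import Pool.Agent.H439.LS.Short
import Pool.Agent.H439.LS.Count

set_option autoImplicit false

namespace Pool.Agent.H439.LS

open Finset Complex ComplexConjugate

/-- the constant for short intervals -/
noncomputable def CS : ℝ := 129 * (4608 * C0 + 1)

lemma CS_pos : 0 < CS := by
  unfold CS
  have := C0_nonneg
  positivity

/-- **Short intervals, explicit form.** -/
theorem blockS2 {J : ℕ} {q : Fin J → ℕ} {χ : ∀ j, DirichletCharacter ℂ (q j)} {t : Fin J → ℝ}
    {x h : ℕ} (hh : 0 < h) (hx : h < x)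
    (hs : SpacedBy ((x : ℝ) / h) q χ t) {R : ℝ} (hR : 16 ≤ R) (hq : ∀ j, (q j : ℝ) ≤ R)
    (ht : ∀ j, |t j| ≤ R) (hx32 : (32 : ℝ) ^ 32 ≤ x) (hRx : R ^ 16 ≤ x) (hxR : (x : ℝ) ≤ R * h)
    (b : ℕ → ℂ) (hb : ∀ p, ‖b p‖ ≤ 1) :
    ∑ j, ‖∑ p ∈ (Ioc x (x + h)).filter Nat.Prime, b p * (χ j p * ph (t j) p)‖ ^ 2 ≤
      CS * ((h : ℝ) / Real.log x) ^ 2 := by
  have hC0 := C0_nonneg
  have hh0 : (0 : ℝ) < h := by exact_mod_cast hh
  have hxh : (h : ℝ) < x := by exact_mod_cast hx
  have hx0 : (0 : ℝ) < x := by linarith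
  have hD1 : (1 : ℝ) ≤ (x : ℝ) / h := by rw [le_div_iff₀ hh0]; linarith
  have hJ := card_le (hs.spaced hD1) hR hq ht
  have hR0 : 0 < R := by linarith
  -- the root
  set s : ℝ := (x : ℝ) ^ (1 / 32 : ℝ) with hsdef
  have hs32 : s ^ 32 = x := by
    rw [hsdef, ← Real.rpow_natCast, ← Real.rpow_mul hx0.le]
    norm_num
  have hs0 : 0 < s := Real.rpow_pos_of_pos hx0 _
  have hs1 : 32 ≤ s := by
    by_contra hlt
    rw [not_le] at hlt
    have : s ^ 32 < 32 ^ 32 := pow_lt_pow_left₀ hlt hs0.le (by norm_num)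
    rw [hs32] at this
    linarith
  have hlog : Real.log x = 32 * Real.log s := by
    rw [← hs32, Real.log_pow]; norm_num
  have hlogs : 0 < Real.log s := Real.log_pos (by linarith)
  have hlogs2 : Real.log s ≤ s := (Real.log_le_sub_one_of_pos hs0).trans (by linarith)
  have hlogx : 0 < Real.log x := by rw [hlog]; positivity
  have hRs : R ≤ s ^ 2 := by
    by_contra hlt
    rw [not_le] at hlt
    have h1 : (s ^ 2) ^ 16 < R ^ 16 := pow_lt_pow_left₀ hlt (by positivity) (by norm_num)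
    have h2 : (s ^ 2) ^ 16 = x := by rw [← hs32]; ring
    linarith
  -- the level
  set z : ℕ := ⌊s ^ 2⌋₊ with hz
  have hz1 : (z : ℝ) ≤ s ^ 2 := Nat.floor_le (by positivity)
  have hz2 : s ≤ z := by
    have := Nat.lt_floor_add_one (s ^ 2)
    rw [← hz] at this
    nlinarith
  have hzn : 2 ≤ z := by
    have : (2 : ℝ) ≤ z := by linarith
    exact_mod_cast this
  have hkz : kz z ≤ 64 / Real.log x := by
    refine (kz_le hzn).trans ?_
    rw [hlog, div_le_div_iff₀ (Real.log_pos (by exact_mod_cast hzn)) (by positivity)]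
    have := Real.log_le_log hs0 hz2
    linarith
  have hkz0 := kz_nonneg (z := z) (by omega)
  have hLz : Lz z ^ 2 ≤ s ^ 8 := by
    have h1 := Lz_le (z := z) (by omega)
    have h2 := Lz_nonneg z
    calc Lz z ^ 2 ≤ ((z : ℝ) ^ 2) ^ 2 := by gcongr
      _ ≤ ((s ^ 2) ^ 2) ^ 2 := by gcongr
      _ = s ^ 8 := by ring
  have hzx : z ≤ x := by
    have h1 : (z : ℝ) ≤ x := by
      refine hz1.trans ?_
      rw [← hs32]
      exact pow_le_pow_right₀ (by linarith) (by norm_num)
    exact_mod_cast h1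
  refine (blockS hh hx hs hq ht (by omega) hzx b hb).trans ?_
  set Y : ℝ := (h : ℝ) / Real.log x with hY
  have hY0 : 0 < Y := div_pos hh0 hlogx
  have hxhR : (x : ℝ) / h ≤ s ^ 2 := by
    rw [div_le_iff₀ hh0]
    exact hxR.trans (mul_le_mul_of_nonneg_right hRs hh0.le)
  have hhs : s ^ 30 ≤ h := by
    have h1 : (x : ℝ) ≤ s ^ 2 * h := hxR.trans (mul_le_mul_of_nonneg_right hRs hh0.le)
    have h2 : s ^ 2 * s ^ 30 ≤ s ^ 2 * h := by
      have : s ^ 2 * s ^ 30 = x := by rw [← hs32]; ring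
      linarith
    exact le_of_mul_le_mul_left h2 (by positivity)
  have hYs : s ^ 29 / 32 ≤ Y := by
    rw [hY, hlog, div_le_div_iff₀ (by norm_num) (by positivity)]
    calc s ^ 29 * (32 * Real.log s) ≤ s ^ 29 * (32 * s) := by gcongr
      _ = s ^ 30 * 32 := by ring
      _ ≤ h * 32 := by gcongr
  have hF1 : 2 * h * kz z + 72 * (x / h) * Lz z ^ 2 ≤ 129 * Y := by
    have a1 : 2 * h * kz z ≤ 128 * Y := by
      calc 2 * h * kz z ≤ 2 * h * (64 / Real.log x) := by gcongr
        _ = 128 * Y := by rw [hY]; ring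
    have a2 : 72 * ((x : ℝ) / h) * Lz z ^ 2 ≤ Y := by
      calc 72 * ((x : ℝ) / h) * Lz z ^ 2 ≤ 72 * s ^ 2 * s ^ 8 := by gcongr
        _ = 72 * s ^ 10 := by ring
        _ ≤ s ^ 29 / 32 := by
            have h3 : s ^ 29 = s ^ 19 * s ^ 10 := by ring
            have h4 : (2304 : ℝ) ≤ s ^ 19 := by
              have : (32 : ℝ) ^ 19 ≤ s ^ 19 := pow_le_pow_left₀ (by norm_num) hs1 19
              refine le_trans (by norm_num) this
            rw [h3]
            have h5 : 0 < s ^ 10 := by positivity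
            nlinarith
        _ ≤ Y := hYs
    linarith
  have hhr : 1 + 2 * R * hr (x + 2 * h) ≤ 71 * s ^ 3 := by
    have h1 := hr_le (x + 2 * h)
    have h2 : Real.log ((x + 2 * h : ℕ) : ℝ) ≤ 2 + 32 * s := by
      have h3 : ((x + 2 * h : ℕ) : ℝ) ≤ 3 * x := by push_cast; linarith
      have h4 : Real.log ((x + 2 * h : ℕ) : ℝ) ≤ Real.log (3 * x) :=
        Real.log_le_log (by positivity) h3
      rw [Real.log_mul (by norm_num) hx0.ne', hlog] at h4
      have h5 : Real.log 3 ≤ 2 := (Real.log_le_sub_one_of_pos (by norm_num)).trans (by norm_num)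
      linarith
    have h3 : hr (x + 2 * h) ≤ 3 + 32 * s := by linarith
    have h4 : 2 * R * hr (x + 2 * h) ≤ 2 * s ^ 2 * (3 + 32 * s) := by
      have := hr_nonneg (x + 2 * h)
      gcongr
    have h5 : s ^ 2 ≤ s ^ 3 := pow_le_pow_right₀ (by linarith) (by norm_num)
    have h6 : 1 ≤ s ^ 3 := one_le_pow₀ (by linarith)
    have h7 : 2 * s ^ 2 * (3 + 32 * s) = 6 * s ^ 2 + 64 * s ^ 3 := by ring
    linarith
  have hF2 : J * (72 * (x / h) * Lz z ^ 2 * (R ^ 2 * (1 + 2 * R * hr (x + 2 * h)))) ≤ Y := by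
    have hh' := hr_nonneg (x + 2 * h)
    have hJs : (J : ℝ) ≤ s ^ 8 := by
      calc (J : ℝ) ≤ R ^ 4 := hJ
        _ ≤ (s ^ 2) ^ 4 := by gcongr
        _ = s ^ 8 := by ring
    calc J * (72 * ((x : ℝ) / h) * Lz z ^ 2 * (R ^ 2 * (1 + 2 * R * hr (x + 2 * h)))) ≤
          s ^ 8 * (72 * s ^ 2 * s ^ 8 * ((s ^ 2) ^ 2 * (71 * s ^ 3))) := by gcongr
      _ = 5112 * s ^ 25 := by ring
      _ ≤ s ^ 29 / 32 := by
          have h3 : s ^ 29 = s ^ 4 * s ^ 25 := by ring
          have h4 : (1048576 : ℝ) ≤ s ^ 4 := by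
            have : (32 : ℝ) ^ 4 ≤ s ^ 4 := pow_le_pow_left₀ (by norm_num) hs1 4
            refine le_trans (by norm_num) this
          rw [h3]
          have h5 : 0 < s ^ 25 := by positivity
          nlinarith
      _ ≤ Y := hYs
  have hF2' : C0 * (72 * kz z * h) +
      J * (72 * (x / h) * Lz z ^ 2 * (R ^ 2 * (1 + 2 * R * hr (x + 2 * h)))) ≤
      (4608 * C0 + 1) * Y := by
    have a1 : 72 * kz z * h ≤ 4608 * Y := by
      calc 72 * kz z * h ≤ 72 * (64 / Real.log x) * h := by gcongr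
        _ = 4608 * Y := by rw [hY]; ring
    have := mul_le_mul_of_nonneg_left a1 hC0
    linarith
  calc _ ≤ 129 * Y * ((4608 * C0 + 1) * Y) := by
        have hh' := hr_nonneg (x + 2 * h)
        apply mul_le_mul hF1 hF2' (by positivity) (by positivity)
    _ = CS * Y ^ 2 := by unfold CS; ring

lemma norm_vec_le {J : ℕ} {q : Fin J → ℕ} (χ : ∀ j, DirichletCharacter ℂ (q j)) (t : Fin J → ℝ)
    (c : ℕ → ℂ) (s : Finset ℕ) {g : ℝ} (hg0 : 0 ≤ g) (hg : ∀ p ∈ s, p.Prime → ‖c p‖ ≤ g) :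
    ‖vec χ t c s‖ ≤ Real.sqrt J * (s.card * g) := by
  rw [norm_vec]
  apply Real.sqrt_le_iff.2
  refine ⟨by positivity, ?_⟩
  have h1 : ∀ j, ‖∑ p ∈ s.filter Nat.Prime, c p * (χ j p * ph (t j) p)‖ ≤ s.card * g := by
    intro j
    have h2 : ∀ p ∈ s.filter Nat.Prime, ‖c p * (χ j p * ph (t j) p)‖ ≤ g := by
      intro p hp
      rw [mem_filter] at hp
      rw [norm_mul (c p), norm_mul (χ j (p : ZMod (q j))), norm_ph _ hp.2.pos, mul_one]
      exact (mul_le_of_le_one_right (norm_nonneg _) ((χ j).norm_le_one _)).trans (hg p hp.1 hp.2)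
    refine (norm_sum_le_of_le _ h2).trans ?_
    rw [sum_const, nsmul_eq_mul]
    apply mul_le_mul_of_nonneg_right _ hg0
    exact_mod_cast card_filter_le _ _
  calc ∑ j, ‖∑ p ∈ s.filter Nat.Prime, c p * (χ j p * ph (t j) p)‖ ^ 2 ≤
        ∑ _j : Fin J, (s.card * g) ^ 2 := sum_le_sum fun j _ => pow_le_pow_left₀ (norm_nonneg _) (h1 j) 2
    _ = J * (s.card * g) ^ 2 := by
        rw [sum_const, card_univ, Fintype.card_fin, nsmul_eq_mul]
    _ = _ := by rw [mul_pow (Real.sqrt J), Real.sq_sqrt (Nat.cast_nonneg J)]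

/-- the constant of the Tauberian inequality -/
noncomputable def CT : ℝ := 4 * CS + 8 * (CB + 1)

/-- **The large sieve inequality for the sums over intervals.** -/
theorem taub {J : ℕ} {q : Fin J → ℕ} {χ : ∀ j, DirichletCharacter ℂ (q j)} {t : Fin J → ℝ}
    {A T : ℕ} (hAT : A < T) (hT : (60000 : ℝ) ^ 40 ≤ T)
    (hs : SpacedBy ((T : ℝ) / (T - A)) q χ t) {R : ℝ} (hR : 16 ≤ R) (hq : ∀ j, (q j : ℝ) ≤ R)
    (ht : ∀ j, |t j| ≤ R) (hRT : R ^ 40 ≤ T) (hRA : (T : ℝ) ≤ R * (T - A))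
    {a : ℕ → ℂ} {M : ℝ} (hM : 0 < M) (ha : ∀ p : ℕ, p.Prime → ‖a p‖ ≤ M) :
    ‖vec χ t (fun p => a p * Real.log p) (Ioc A T)‖ ^ 2 ≤ CT * M ^ 2 * ((T : ℝ) - A) ^ 2 := by
  have hCB := CB_pos
  have hCS := CS_pos
  have hR0 : 0 < R := by linarith
  have hAT' : (A : ℝ) < T := by exact_mod_cast hAT
  have hT0 : (0 : ℝ) < T := lt_of_lt_of_le (by norm_num) hT
  have hT1 : (1 : ℝ) < T := lt_of_lt_of_le (by norm_num) hT
  have hlogT : 0 < Real.log T := Real.log_pos hT1
  have hca : ∀ p ∈ Ioc A T, p.Prime → ‖a p * (Real.log p : ℂ)‖ ≤ M * Real.log T := by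
    intro p hp hpp
    rw [mem_Ioc] at hp
    have h1 : (1 : ℝ) ≤ p := by exact_mod_cast hpp.one_le
    have h2 : (p : ℝ) ≤ T := by exact_mod_cast hp.2
    rw [norm_mul, norm_real, Real.norm_of_nonneg (Real.log_nonneg h1)]
    exact mul_le_mul (ha p hpp) (Real.log_le_log (by linarith) h2) (Real.log_nonneg h1) hM.le
  by_cases hcase : T < 2 * A
  · -- a short interval
    set h : ℕ := T - A with hh
    have hh0 : 0 < h := by omega
    have hhr : (h : ℝ) = (T : ℝ) - A := by rw [hh, Nat.cast_sub hAT.le]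
    have hhA : h < A := by omega
    have hAh : A + h = T := by omega
    have hcr : (T : ℝ) < 2 * A := by exact_mod_cast hcase
    have hA0 : (0 : ℝ) < A := by linarith
    have hhpos : (0 : ℝ) < h := by exact_mod_cast hh0
    have hs' : SpacedBy ((A : ℝ) / h) q χ t := by
      refine ⟨hs.pos, fun j k hjk hA => le_trans ?_ (hs.sep j k hjk hA)⟩
      rw [hhr]
      apply div_le_div_of_nonneg_right _ (by linarith)
      linarith
    have hA32 : (32 : ℝ) ^ 32 ≤ A := by
      have : (32 : ℝ) ^ 32 * 2 ≤ 60000 ^ 40 := by norm_num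
      linarith
    have hRA16 : R ^ 16 ≤ A := by
      have h1 : R ^ 40 = R ^ 16 * R ^ 24 := by ring
      have h2 : (2 : ℝ) ≤ R ^ 24 := by
        have : (16 : ℝ) ^ 24 ≤ R ^ 24 := pow_le_pow_left₀ (by norm_num) hR 24
        refine le_trans (by norm_num) this
      have h3 : R ^ 16 * 2 ≤ R ^ 16 * R ^ 24 := mul_le_mul_of_nonneg_left h2 (by positivity)
      linarith
    have hAR : (A : ℝ) ≤ R * h := by
      rw [hhr]; linarith
    set g : ℝ := M * Real.log T with hg
    have hg0 : 0 < g := by positivity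
    set b : ℕ → ℂ := fun p => if p.Prime ∧ p ∈ Ioc A T then a p * (Real.log p : ℂ) / g else 0 with hb
    have hb1 : ∀ p, ‖b p‖ ≤ 1 := by
      intro p
      simp only [hb]
      split_ifs with hc
      · rw [norm_div, norm_real g, Real.norm_of_nonneg hg0.le, div_le_one hg0]
        exact hca p hc.2 hc.1
      · simp
    have h1 := blockS2 hh0 hhA hs' hR hq ht hA32 hRA16 hAR b hb1
    rw [hAh] at h1
    have e : ∀ j, ∑ p ∈ (Ioc A T).filter Nat.Prime, a p * (Real.log p : ℂ) * (χ j p * ph (t j) p) =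
        g * ∑ p ∈ (Ioc A T).filter Nat.Prime, b p * (χ j p * ph (t j) p) := by
      intro j
      rw [mul_sum]
      apply sum_congr rfl
      intro p hp
      rw [mem_filter] at hp
      simp only [hb]
      rw [if_pos ⟨hp.2, hp.1⟩]
      have : (g : ℂ) ≠ 0 := by exact_mod_cast hg0.ne'
      field_simp
    have h2 : ‖vec χ t (fun p => a p * Real.log p) (Ioc A T)‖ ^ 2 =
        g ^ 2 * ∑ j, ‖∑ p ∈ (Ioc A T).filter Nat.Prime, b p * (χ j p * ph (t j) p)‖ ^ 2 := by
      rw [norm_vec, Real.sq_sqrt (sum_nonneg fun j _ => by positivity), mul_sum]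
      apply sum_congr rfl
      intro j _
      rw [e j, norm_mul, norm_real, Real.norm_of_nonneg hg0.le, mul_pow]
    rw [h2]
    have hlogA : 0 < Real.log A := Real.log_pos (lt_of_lt_of_le (by norm_num) hA32)
    have h3 : Real.log T ≤ 2 * Real.log A := by
      have : Real.log T ≤ Real.log (A ^ 2) := by
        apply Real.log_le_log hT0
        have : (2 : ℝ) ≤ A := le_trans (by norm_num) hA32
        nlinarith
      rwa [Real.log_pow] at this
    calc g ^ 2 * ∑ j, ‖∑ p ∈ (Ioc A T).filter Nat.Prime, b p * (χ j p * ph (t j) p)‖ ^ 2 ≤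
          g ^ 2 * (CS * ((h : ℝ) / Real.log A) ^ 2) := mul_le_mul_of_nonneg_left h1 (by positivity)
      _ = CS * M ^ 2 * h ^ 2 * (Real.log T / Real.log A) ^ 2 := by
          rw [hg]; ring
      _ ≤ CS * M ^ 2 * h ^ 2 * 2 ^ 2 := by
          apply mul_le_mul_of_nonneg_left _ (by positivity)
          apply pow_le_pow_left₀ (by positivity)
          rw [div_le_iff₀ hlogA]
          exact h3
      _ ≤ CT * M ^ 2 * h ^ 2 := by
          unfold CT
          have : 0 ≤ M ^ 2 * (h : ℝ) ^ 2 := by positivity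
          nlinarith
      _ = _ := by rw [hhr]
  · -- a long interval
    rw [not_lt] at hcase
    have hcr : (2 : ℝ) * A ≤ T := by exact_mod_cast hcase
    have hhalf : (T : ℝ) ≤ 2 * (T - A) := by linarith
    have hsp : Spaced q χ t := hs.spaced (by
      rw [le_div_iff₀ (by linarith)]
      have : (0 : ℝ) ≤ A := Nat.cast_nonneg A
      linarith)
    have hJ := card_le hsp hR hq ht
    -- the root
    set τ : ℝ := (T : ℝ) ^ (1 / 40 : ℝ) with hτ
    have hτ40 : τ ^ 40 = T := by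
      rw [hτ, ← Real.rpow_natCast, ← Real.rpow_mul hT0.le]
      norm_num
    have hτ0 : 0 < τ := Real.rpow_pos_of_pos hT0 _
    have hτ1 : 60000 ≤ τ := by
      by_contra hlt
      rw [not_le] at hlt
      have : τ ^ 40 < 60000 ^ 40 := pow_lt_pow_left₀ hlt hτ0.le (by norm_num)
      rw [hτ40] at this
      linarith
    have hRτ : R ≤ τ := by
      by_contra hlt
      rw [not_le] at hlt
      have : τ ^ 40 < R ^ 40 := pow_lt_pow_left₀ hlt hτ0.le (by norm_num)
      rw [hτ40] at this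
      linarith
    have hlogτ : Real.log T ≤ 40 * τ := by
      rw [← hτ40, Real.log_pow]
      have := Real.log_le_sub_one_of_pos hτ0
      push_cast
      linarith
    -- the parameters
    have hTn : T ≠ 0 := by
      intro h0
      rw [h0] at hT0
      simp at hT0
    set m : ℕ := Nat.log 2 T with hm
    have hm1 : 2 ^ m ≤ T := Nat.pow_log_le_self 2 hTn
    have hm2 : T < 2 ^ (m + 1) := Nat.lt_pow_succ_log_self (by norm_num) T
    have hm3 : 4 ≤ m := by
      by_contra hcon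
      have h5 : T < 2 ^ 5 := lt_of_lt_of_le hm2 (Nat.pow_le_pow_right (by norm_num) (by omega))
      have h6 : (T : ℝ) < 2 ^ 5 := by exact_mod_cast h5
      have h7 : (2 : ℝ) ^ 5 ≤ 60000 ^ 40 := by norm_num
      linarith
    set K : ℕ := m / 2 - 1 with hK
    have hK1 : K + 1 = m / 2 := by omega
    set P : ℕ := 2 ^ (K + 1) with hP
    have hPpos : 0 < P := by positivity
    set Y : ℕ := T / P with hY
    have hPT : (P : ℝ) ≤ τ ^ 20 := by
      have h5 : P ^ 2 ≤ T := by
        rw [hP, ← pow_mul]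
        exact (Nat.pow_le_pow_right (by norm_num) (by omega)).trans hm1
      have h6 : (P : ℝ) ^ 2 ≤ (τ ^ 20) ^ 2 := by
        have e : (τ ^ 20) ^ 2 = T := by rw [← hτ40]; ring
        rw [e]
        exact_mod_cast h5
      exact le_of_sq_le_sq h6 (by positivity)
    have hPT2 : τ ^ 20 ≤ 2 * P := by
      have h5 : T ≤ (2 * P) ^ 2 := by
        have e : (2 * P) ^ 2 = 2 ^ (2 * (K + 1) + 2) := by rw [hP]; ring
        rw [e]
        exact hm2.le.trans (Nat.pow_le_pow_right (by norm_num) (by omega))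
      have h6 : (τ ^ 20) ^ 2 ≤ (2 * (P : ℝ)) ^ 2 := by
        have e : (τ ^ 20) ^ 2 = T := by rw [← hτ40]; ring
        rw [e]
        exact_mod_cast h5
      exact le_of_sq_le_sq h6 (by positivity)
    have hYle : (P : ℝ) * Y ≤ T := by exact_mod_cast Nat.mul_div_le T P
    have hYgt : (T : ℝ) < P * (Y + 1) := by
      have := Nat.lt_mul_div_succ T hPpos
      exact_mod_cast this
    have hPpos' : (0 : ℝ) < P := by exact_mod_cast hPpos
    have hY1 : τ ^ 20 / 2 ≤ Y := by
      have h5 : τ ^ 20 * τ ^ 20 < τ ^ 20 * (Y + 1) := by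
        have e : τ ^ 20 * τ ^ 20 = T := by rw [← hτ40]; ring
        rw [e]
        exact hYgt.trans_le (mul_le_mul_of_nonneg_right hPT (by positivity))
      have h6 : τ ^ 20 < Y + 1 := lt_of_mul_lt_mul_left h5 (by positivity)
      have h7 : (2 : ℝ) ≤ τ ^ 20 := by
        have : (60000 : ℝ) ^ 20 ≤ τ ^ 20 := pow_le_pow_left₀ (by norm_num) hτ1 20
        exact le_trans (by norm_num) this
      linarith
    have hY2 : (Y : ℝ) ≤ 2 * τ ^ 20 := by
      have h5 : τ ^ 20 * Y ≤ τ ^ 20 * (2 * τ ^ 20) := by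
        calc τ ^ 20 * Y ≤ 2 * P * Y := mul_le_mul_of_nonneg_right hPT2 (Nat.cast_nonneg _)
          _ = 2 * (P * Y) := by ring
          _ ≤ 2 * T := by linarith
          _ = _ := by rw [← hτ40]; ring
      exact le_of_mul_le_mul_left h5 (by positivity)
    have hYy0 : y0 J ≤ Y := by
      refine le_trans ?_ hY1
      unfold y0
      apply max_le
      · have : (60000 : ℝ) ^ 20 ≤ τ ^ 20 := pow_le_pow_left₀ (by norm_num) hτ1 20
        have h5 : (2 : ℝ) ^ 96 * 2 ≤ 60000 ^ 20 := by norm_num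
        linarith
      · have h5 : 50000 * (J : ℝ) ≤ 50000 * τ ^ 4 := by
          have : R ^ 4 ≤ τ ^ 4 := pow_le_pow_left₀ hR0.le hRτ 4
          linarith
        have h6 : (50000 * (J : ℝ)) ^ 4 ≤ (50000 * τ ^ 4) ^ 4 := pow_le_pow_left₀ (by positivity) h5 4
        refine h6.trans ?_
        have e : (50000 * τ ^ 4) ^ 4 = 50000 ^ 4 * τ ^ 16 := by ring
        rw [e]
        have h7 : (60000 : ℝ) ^ 4 ≤ τ ^ 4 := pow_le_pow_left₀ (by norm_num) hτ1 4
        have h8 : τ ^ 20 = τ ^ 4 * τ ^ 16 := by ring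
        rw [h8]
        have h9 : 0 < τ ^ 16 := by positivity
        have h10 : (50000 : ℝ) ^ 4 * 2 ≤ 60000 ^ 4 := by norm_num
        nlinarith
    have hYQ : R ^ 8 ≤ Y := by
      refine le_trans ?_ hY1
      have h5 : R ^ 8 ≤ τ ^ 8 := pow_le_pow_left₀ hR0.le hRτ 8
      have h6 : τ ^ 20 = τ ^ 12 * τ ^ 8 := by ring
      have h7 : (2 : ℝ) ≤ τ ^ 12 := by
        have : (60000 : ℝ) ^ 12 ≤ τ ^ 12 := pow_le_pow_left₀ (by norm_num) hτ1 12
        exact le_trans (by norm_num) this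
      have h8 : 0 < τ ^ 8 := by positivity
      rw [h6]
      nlinarith
    -- the coefficients
    set c : ℕ → ℂ := fun p => if A < p ∧ p ≤ T then a p * (Real.log p : ℂ) else 0 with hc
    set D : ℕ → ℂ := fun p => a p * (Real.log p : ℂ) with hD
    have hvec : vec χ t D (Ioc A T) = vec χ t c (Ioc 0 (2 * Y)) +
        vec χ t c (Ioc (2 * Y) (2 ^ (K + 1) * Y)) + vec χ t c (Ioc (2 ^ (K + 1) * Y) T) := by
      have hPY : 2 ^ (K + 1) * Y ≤ T := Nat.mul_div_le T P
      have h2Y : 2 * Y ≤ 2 ^ (K + 1) * Y := by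
        apply Nat.mul_le_mul_right
        calc 2 = 2 ^ 1 := by norm_num
          _ ≤ 2 ^ (K + 1) := Nat.pow_le_pow_right (by norm_num) (by omega)
      have e1 : vec χ t D (Ioc A T) = vec χ t c (Ioc 0 T) := by
        ext j
        change ∑ p ∈ (Ioc A T).filter Nat.Prime, D p * (χ j p * ph (t j) p) =
          ∑ p ∈ (Ioc 0 T).filter Nat.Prime, c p * (χ j p * ph (t j) p)
        have : (Ioc A T).filter Nat.Prime ⊆ (Ioc 0 T).filter Nat.Prime := by
          apply filter_subset_filter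
          apply Ioc_subset_Ioc_left (Nat.zero_le _)
        rw [← sum_subset this]
        · apply sum_congr rfl
          intro p hp
          rw [mem_filter, mem_Ioc] at hp
          simp only [hc, hD]
          rw [if_pos hp.1]
        · intro p hp hp'
          rw [mem_filter, mem_Ioc] at hp hp'
          simp only [hc]
          rw [if_neg, zero_mul]
          rintro ⟨h5, h6⟩
          exact hp' ⟨⟨h5, h6⟩, hp.2⟩
      rw [e1]
      have e2 : Ioc 0 T = (Ioc 0 (2 * Y) ∪ Ioc (2 * Y) (2 ^ (K + 1) * Y)) ∪ Ioc (2 ^ (K + 1) * Y) T := by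
        ext p
        simp only [mem_Ioc, mem_union]
        omega
      rw [e2, vec_union, vec_union]
      · rw [disjoint_left]
        intro p hp hp'
        rw [mem_Ioc] at hp hp'
        omega
      · rw [disjoint_left]
        intro p hp hp'
        rw [mem_union, mem_Ioc, mem_Ioc] at hp
        rw [mem_Ioc] at hp'
        omega
    have hcb : ∀ p : ℕ, p.Prime → ‖c p‖ ≤ M * Real.log T := by
      intro p hpp
      simp only [hc]
      split_ifs with h5
      · exact hca p (mem_Ioc.2 h5) hpp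
      · rw [norm_zero]; positivity
    have hsqJ : Real.sqrt J ≤ τ ^ 2 := by
      apply Real.sqrt_le_iff.2
      refine ⟨by positivity, ?_⟩
      calc (J : ℝ) ≤ R ^ 4 := hJ
        _ ≤ τ ^ 4 := pow_le_pow_left₀ hR0.le hRτ 4
        _ = _ := by ring
    have hgT : 0 ≤ M * Real.log T := by positivity
    have hV1 : ‖vec χ t c (Ioc 0 (2 * Y))‖ ≤ τ ^ 2 * ((2 * (2 * τ ^ 20)) * (M * (40 * τ))) := by
      refine (norm_vec_le χ t c _ hgT fun p _ hpp => hcb p hpp).trans ?_
      rw [Nat.card_Ioc]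
      have : ((2 * Y - 0 : ℕ) : ℝ) ≤ 2 * (2 * τ ^ 20) := by
        rw [Nat.sub_zero]; push_cast; linarith
      gcongr
    have hV3 : ‖vec χ t c (Ioc (2 ^ (K + 1) * Y) T)‖ ≤ τ ^ 2 * (τ ^ 20 * (M * (40 * τ))) := by
      refine (norm_vec_le χ t c _ hgT fun p _ hpp => hcb p hpp).trans ?_
      rw [Nat.card_Ioc]
      have h5 : ((T - 2 ^ (K + 1) * Y : ℕ) : ℝ) ≤ τ ^ 20 := by
        have h6 : T - 2 ^ (K + 1) * Y ≤ P := by
          have h8 := Nat.lt_mul_div_succ T hPpos
          have h7 : P * (T / P + 1) = 2 ^ (K + 1) * Y + P := by rw [hY, hP]; ring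
          rw [h7] at h8
          rw [Nat.sub_le_iff_le_add, add_comm]
          exact h8.le
        have h7 : ((T - 2 ^ (K + 1) * Y : ℕ) : ℝ) ≤ P := by exact_mod_cast h6
        linarith
      gcongr
    -- the main part
    have hV2 : ‖vec χ t c (Ioc (2 * Y) (2 ^ (K + 1) * Y))‖ ≤ M * Real.sqrt CB * T := by
      have hYpos : (0 : ℝ) < Y := lt_of_lt_of_le (by positivity) hY1
      have hY4 : (4 : ℝ) ≤ Y := by
        refine le_trans ?_ hYy0
        exact le_trans (by norm_num) (le_max_left _ _)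
      set g : ℕ → ℝ := fun k => M * (2 * Real.log (2 ^ k * Y)) with hg
      have hlk : ∀ k : ℕ, 0 < Real.log ((2 : ℝ) ^ k * Y) := by
        intro k
        apply Real.log_pos
        have : (1 : ℝ) ≤ 2 ^ k := one_le_pow₀ (by norm_num)
        nlinarith
      have hg0 : ∀ k, 0 < g k := fun k => by
        have := hlk k
        positivity
      have hgb : ∀ k, ∀ p ∈ Ioc (2 * (2 ^ k * Y)) (4 * (2 ^ k * Y)), p.Prime → ‖c p‖ ≤ g k := by
        intro k p hp hpp
        rw [mem_Ioc] at hp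
        have h1 : (1 : ℝ) ≤ p := by exact_mod_cast hpp.one_le
        have h2 : (p : ℝ) ≤ 4 * (2 ^ k * Y) := by exact_mod_cast hp.2
        have h3 : ‖c p‖ ≤ M * Real.log p := by
          simp only [hc]
          split_ifs with h5
          · rw [norm_mul, norm_real, Real.norm_of_nonneg (Real.log_nonneg h1)]
            exact mul_le_mul_of_nonneg_right (ha p hpp) (Real.log_nonneg h1)
          · rw [norm_zero]
            have := Real.log_nonneg h1
            positivity
        refine h3.trans ?_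
        simp only [hg]
        apply mul_le_mul_of_nonneg_left _ hM.le
        have h4 : Real.log p ≤ Real.log ((2 ^ k * Y) ^ 2) := by
          apply Real.log_le_log (by linarith)
          refine h2.trans ?_
          have : (1 : ℝ) ≤ 2 ^ k := one_le_pow₀ (by norm_num)
          have h6 : (4 : ℝ) ≤ 2 ^ k * Y := by nlinarith
          nlinarith
        rwa [Real.log_pow] at h4
      refine (dyadic hsp hq ht hYy0 hYQ c g hg0 hgb K).trans ?_
      have e : ∀ k ∈ range K, g k * (Real.sqrt CB * ((2 ^ k * Y : ℝ) / Real.log (2 ^ k * Y))) =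
          (2 * M * Real.sqrt CB * Y) * 2 ^ k := by
        intro k _
        simp only [hg]
        have := (hlk k).ne'
        field_simp
      rw [sum_congr rfl e, ← mul_sum]
      have h5 : ∑ k ∈ range K, (2 : ℝ) ^ k ≤ 2 ^ K := by
        have := geom_sum_eq (x := (2 : ℝ)) (by norm_num) K
        rw [this]
        norm_num
      calc (2 * M * Real.sqrt CB * Y) * ∑ k ∈ range K, (2 : ℝ) ^ k ≤
            (2 * M * Real.sqrt CB * Y) * 2 ^ K := mul_le_mul_of_nonneg_left h5 (by positivity)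
        _ = M * Real.sqrt CB * (P * Y) := by rw [hP]; push_cast; ring
        _ ≤ _ := mul_le_mul_of_nonneg_left hYle (by positivity)
    have hsum : ‖vec χ t D (Ioc A T)‖ ≤ (Real.sqrt CB + 1) * (M * T) := by
      rw [hvec]
      have h5 := norm_add_le (vec χ t c (Ioc 0 (2 * Y)) +
        vec χ t c (Ioc (2 * Y) (2 ^ (K + 1) * Y))) (vec χ t c (Ioc (2 ^ (K + 1) * Y) T))
      have h6 := norm_add_le (vec χ t c (Ioc 0 (2 * Y))) (vec χ t c (Ioc (2 * Y) (2 ^ (K + 1) * Y)))
      have h7 : τ ^ 2 * ((2 * (2 * τ ^ 20)) * (M * (40 * τ))) + τ ^ 2 * (τ ^ 20 * (M * (40 * τ))) ≤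
          M * T := by
        have e : τ ^ 2 * ((2 * (2 * τ ^ 20)) * (M * (40 * τ))) + τ ^ 2 * (τ ^ 20 * (M * (40 * τ))) =
            M * (200 * τ ^ 23) := by ring
        rw [e, ← hτ40]
        apply mul_le_mul_of_nonneg_left _ hM.le
        have h8 : τ ^ 40 = τ ^ 17 * τ ^ 23 := by ring
        have h9 : (200 : ℝ) ≤ τ ^ 17 := by
          have : (60000 : ℝ) ^ 17 ≤ τ ^ 17 := pow_le_pow_left₀ (by norm_num) hτ1 17
          exact le_trans (by norm_num) this
        rw [h8]
        exact mul_le_mul_of_nonneg_right h9 (by positivity)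
      have e : (Real.sqrt CB + 1) * (M * T) = M * Real.sqrt CB * T + M * T := by ring
      rw [e]
      linarith
    have h8 : ‖vec χ t D (Ioc A T)‖ ^ 2 ≤ ((Real.sqrt CB + 1) * (M * T)) ^ 2 :=
      pow_le_pow_left₀ (norm_nonneg _) hsum 2
    refine h8.trans ?_
    have h9 : (Real.sqrt CB + 1) ^ 2 ≤ 2 * (CB + 1) := by
      have := Real.sq_sqrt hCB.le
      nlinarith [sq_nonneg (Real.sqrt CB - 1)]
    calc ((Real.sqrt CB + 1) * (M * T)) ^ 2 = (Real.sqrt CB + 1) ^ 2 * M ^ 2 * (T : ℝ) ^ 2 := by ring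
      _ ≤ (2 * (CB + 1)) * M ^ 2 * (2 * (T - A)) ^ 2 := by
          have : (T : ℝ) ^ 2 ≤ (2 * (T - A)) ^ 2 := pow_le_pow_left₀ hT0.le hhalf 2
          gcongr
      _ = 8 * (CB + 1) * M ^ 2 * (T - A) ^ 2 := by ring
      _ ≤ CT * M ^ 2 * ((T : ℝ) - A) ^ 2 := by
          unfold CT
          have : 0 ≤ M ^ 2 * ((T : ℝ) - A) ^ 2 := by positivity
          nlinarith

end Pool.Agent.H439.LS
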