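import Mathlib

set_option autoImplicit false

namespace Pool.Agent.H439.LS

open Finset ComplexConjugate

/-- A weighted Bessel type inequality (Selberg, Bombieri). -/
theorem bessel {ι α : Type*} [Fintype ι] (S : Finset α) (w : α → ℝ) (hw : ∀ n ∈ S, 0 ≤ w n)
    (f : α → ℂ) (φ : ι → α → ℂ) (G : ℝ) (hG0 : 0 ≤ G)
    (hG : ∀ j, ∑ k, ‖∑ n ∈ S, (w n : ℂ) * (conj (φ j n) * φ k n)‖ ≤ G) :
    ∑ j, ‖∑ n ∈ S, (w n : ℂ) * (f n * φ j n)‖ ^ 2 ≤ (∑ n ∈ S, w n * ‖f n‖ ^ 2) * G := by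
  set A : ι → ℂ := fun j => ∑ n ∈ S, (w n : ℂ) * (f n * φ j n) with hA
  set T : ℝ := ∑ j, ‖A j‖ ^ 2 with hT
  set F : ℝ := ∑ n ∈ S, w n * ‖f n‖ ^ 2 with hF
  have hT0 : 0 ≤ T := Finset.sum_nonneg fun j _ => by positivity
  have hF0 : 0 ≤ F := Finset.sum_nonneg fun n hn => mul_nonneg (hw n hn) (by positivity)
  -- the combination
  set g : α → ℂ := fun n => ∑ j, conj (A j) * φ j n with hg
  have h1 : (T : ℂ) = ∑ n ∈ S, (w n : ℂ) * (f n * g n) := by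
    rw [hT]
    push_cast
    have : ∀ j, ((‖A j‖ : ℂ)) ^ 2 = ∑ n ∈ S, (w n : ℂ) * (f n * (conj (A j) * φ j n)) := by
      intro j
      rw [← Complex.conj_mul', hA, Finset.mul_sum]
      apply Finset.sum_congr rfl
      intro n _
      ring
    rw [Finset.sum_congr rfl fun j _ => this j, Finset.sum_comm]
    apply Finset.sum_congr rfl
    intro n _
    rw [hg, Finset.mul_sum, Finset.mul_sum]
  have h2 : T ≤ ∑ n ∈ S, (Real.sqrt (w n) * ‖f n‖) * (Real.sqrt (w n) * ‖g n‖) := by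
    have e : T = ‖(T : ℂ)‖ := by
      rw [Complex.norm_real, Real.norm_of_nonneg hT0]
    rw [e, h1]
    refine (norm_sum_le _ _).trans (Finset.sum_le_sum fun n hn => ?_)
    rw [norm_mul, norm_mul, Complex.norm_real, Real.norm_of_nonneg (hw n hn)]
    have := Real.mul_self_sqrt (hw n hn)
    calc w n * (‖f n‖ * ‖g n‖) = (Real.sqrt (w n) * Real.sqrt (w n)) * (‖f n‖ * ‖g n‖) := by rw [this]
      _ ≤ _ := le_of_eq (by ring)
  have h3 : (∑ n ∈ S, (Real.sqrt (w n) * ‖f n‖) * (Real.sqrt (w n) * ‖g n‖)) ^ 2 ≤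
      (∑ n ∈ S, (Real.sqrt (w n) * ‖f n‖) ^ 2) * (∑ n ∈ S, (Real.sqrt (w n) * ‖g n‖) ^ 2) :=
    Finset.sum_mul_sq_le_sq_mul_sq _ _ _
  have h4 : ∑ n ∈ S, (Real.sqrt (w n) * ‖f n‖) ^ 2 = F := by
    apply Finset.sum_congr rfl
    intro n hn
    rw [mul_pow, Real.sq_sqrt (hw n hn)]
  have h5 : ∑ n ∈ S, (Real.sqrt (w n) * ‖g n‖) ^ 2 = ∑ n ∈ S, w n * ‖g n‖ ^ 2 := by
    apply Finset.sum_congr rfl
    intro n hn
    rw [mul_pow, Real.sq_sqrt (hw n hn)]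
  have h6 : ∑ n ∈ S, w n * ‖g n‖ ^ 2 ≤ T * G := by
    have e : ((∑ n ∈ S, w n * ‖g n‖ ^ 2 : ℝ) : ℂ) =
        ∑ j, ∑ k, A j * conj (A k) * ∑ n ∈ S, (w n : ℂ) * (conj (φ j n) * φ k n) := by
      push_cast
      have : ∀ n ∈ S, (w n : ℂ) * (‖g n‖ : ℂ) ^ 2 =
          ∑ j, ∑ k, A j * conj (A k) * ((w n : ℂ) * (conj (φ j n) * φ k n)) := by
        intro n _
        rw [← Complex.conj_mul', hg]
        simp only [map_sum, map_mul, Complex.conj_conj]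
        rw [Finset.sum_mul_sum, Finset.mul_sum]
        apply Finset.sum_congr rfl
        intro j _
        rw [Finset.mul_sum]
        apply Finset.sum_congr rfl
        intro k _
        ring
      rw [Finset.sum_congr rfl this, Finset.sum_comm]
      apply Finset.sum_congr rfl
      intro j _
      rw [Finset.sum_comm]
      apply Finset.sum_congr rfl
      intro k _
      rw [Finset.mul_sum]
    have hnn : 0 ≤ ∑ n ∈ S, w n * ‖g n‖ ^ 2 :=
      Finset.sum_nonneg fun n hn => mul_nonneg (hw n hn) (by positivity)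
    set Γ : ι → ι → ℝ := fun j k => ‖∑ n ∈ S, (w n : ℂ) * (conj (φ j n) * φ k n)‖ with hΓ
    have hsymm : ∀ j k, Γ j k = Γ k j := by
      intro j k
      rw [hΓ]
      simp only
      rw [← Complex.norm_conj]
      congr 1
      rw [map_sum]
      apply Finset.sum_congr rfl
      intro n _
      simp only [map_mul, Complex.conj_ofReal, Complex.conj_conj]
      ring
    have e2 : ∑ n ∈ S, w n * ‖g n‖ ^ 2 ≤ ∑ j, ∑ k, ‖A j‖ * ‖A k‖ * Γ j k := by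
      have : ∑ n ∈ S, w n * ‖g n‖ ^ 2 = ‖((∑ n ∈ S, w n * ‖g n‖ ^ 2 : ℝ) : ℂ)‖ := by
        rw [Complex.norm_real, Real.norm_of_nonneg hnn]
      rw [this, e]
      refine (norm_sum_le _ _).trans (Finset.sum_le_sum fun j _ => ?_)
      refine (norm_sum_le _ _).trans (Finset.sum_le_sum fun k _ => ?_)
      rw [norm_mul, norm_mul, Complex.norm_conj]
    have e3 : ∑ j, ∑ k, ‖A j‖ * ‖A k‖ * Γ j k ≤
        ∑ j, ∑ k, ((‖A j‖ ^ 2 * Γ j k) / 2 + (‖A k‖ ^ 2 * Γ k j) / 2) := by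
      apply Finset.sum_le_sum
      intro j _
      apply Finset.sum_le_sum
      intro k _
      rw [hsymm k j]
      have h0 : 0 ≤ Γ j k := norm_nonneg _
      nlinarith [mul_nonneg h0 (sq_nonneg (‖A j‖ - ‖A k‖))]
    have e4 : ∑ j, ∑ k, ((‖A j‖ ^ 2 * Γ j k) / 2 + (‖A k‖ ^ 2 * Γ k j) / 2) =
        ∑ j, ‖A j‖ ^ 2 * ∑ k, Γ j k := by
      have a1 : ∑ j, ∑ k, ((‖A j‖ ^ 2 * Γ j k) / 2 + (‖A k‖ ^ 2 * Γ k j) / 2) =
          (∑ j, ∑ k, (‖A j‖ ^ 2 * Γ j k) / 2) + ∑ j, ∑ k, (‖A k‖ ^ 2 * Γ k j) / 2 := by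
        simp_rw [Finset.sum_add_distrib]
      rw [a1]
      have a2 : ∑ j, ∑ k, (‖A k‖ ^ 2 * Γ k j) / 2 = ∑ j, ∑ k, (‖A j‖ ^ 2 * Γ j k) / 2 := by
        rw [Finset.sum_comm]
      rw [a2, ← two_mul, Finset.mul_sum]
      apply Finset.sum_congr rfl
      intro j _
      rw [Finset.mul_sum, Finset.mul_sum]
      apply Finset.sum_congr rfl
      intro k _
      ring
    have e5 : ∑ j, ‖A j‖ ^ 2 * ∑ k, Γ j k ≤ T * G := by
      rw [hT, Finset.sum_mul]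
      apply Finset.sum_le_sum
      intro j _
      exact mul_le_mul_of_nonneg_left (hG j) (by positivity)
    linarith
  -- conclude
  rcases eq_or_lt_of_le hT0 with h0 | h0
  · rw [← h0]
    exact mul_nonneg hF0 hG0
  · have h7 : T ^ 2 ≤ F * (T * G) := by
      calc T ^ 2 ≤ (∑ n ∈ S, (Real.sqrt (w n) * ‖f n‖) * (Real.sqrt (w n) * ‖g n‖)) ^ 2 := by
            gcongr
        _ ≤ _ := h3
        _ = F * ∑ n ∈ S, w n * ‖g n‖ ^ 2 := by rw [h4, h5]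
        _ ≤ F * (T * G) := by gcongr
    have h8 : T * T ≤ T * (F * G) := by nlinarith
    exact le_of_mul_le_mul_left h8 h0

end Pool.Agent.H439.LS
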