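import Pool.Agent.H439.LS.Chars

set_option autoImplicit false

namespace Pool.Agent.H439.LS

open Finset Complex ComplexConjugate

/-- the constant for well spaced points -/
noncomputable def C0 : ℝ := ∑' m : ℤ, 3 / (1 + (m : ℝ) ^ 2)

lemma summable_C0 : Summable fun m : ℤ => 3 / (1 + (m : ℝ) ^ 2) := by
  have h1 : Summable fun m : ℤ => 1 / (m : ℝ) ^ 2 := Real.summable_one_div_int_pow.2 (by norm_num)
  have h2 : Summable fun m : ℤ => if m = 0 then (1 : ℝ) else 0 :=
    summable_of_ne_finset_zero (s := {0}) fun m hm => by simpa using hm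
  refine Summable.of_nonneg_of_le (fun m => by positivity) (fun m => ?_) ((h1.add h2).mul_left 3)
  by_cases hm : m = 0
  · subst hm; norm_num
  · rw [if_neg hm, add_zero]
    have : (m : ℝ) ≠ 0 := by exact_mod_cast hm
    have h3 : 0 < (m : ℝ) ^ 2 := by positivity
    rw [mul_one_div]
    apply div_le_div_of_nonneg_left (by norm_num) h3
    linarith

lemma C0_nonneg : 0 ≤ C0 := tsum_nonneg fun m => by positivity

lemma spaced {ι : Type*} (S : Finset ι) (v : ι → ℝ)
    (h : ∀ a ∈ S, ∀ b ∈ S, a ≠ b → 1 ≤ |v a - v b|) :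
    ∑ a ∈ S, 1 / (1 + v a ^ 2) ≤ C0 := by
  classical
  have h1 : ∀ a ∈ S, 1 / (1 + v a ^ 2) ≤ 3 / (1 + ((⌊v a⌋ : ℤ) : ℝ) ^ 2) := by
    intro a _
    rw [div_le_div_iff₀ (by positivity) (by positivity)]
    have h2 := Int.floor_le (v a)
    have h3 := Int.lt_floor_add_one (v a)
    set m : ℝ := ((⌊v a⌋ : ℤ) : ℝ)
    nlinarith [sq_nonneg (v a), sq_nonneg (m - v a), sq_nonneg (m + v a), sq_nonneg (2 * v a - 1), sq_nonneg (2 * v a + 1)]
  refine (sum_le_sum h1).trans ?_
  have hinj : Set.InjOn (fun a => ⌊v a⌋) (S : Set ι) := by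
    intro a ha b hb hab
    by_contra hne
    have h2 := h a ha b hb hne
    simp only at hab
    have h3 := Int.floor_le (v a)
    have h4 := Int.lt_floor_add_one (v a)
    have h5 := Int.floor_le (v b)
    have h6 := Int.lt_floor_add_one (v b)
    rw [hab] at h3 h4
    have : |v a - v b| < 1 := by rw [abs_lt]; constructor <;> linarith
    linarith
  rw [← sum_image (f := fun m : ℤ => 3 / (1 + (m : ℝ) ^ 2)) hinj]
  exact summable_C0.sum_le_tsum _ fun m _ => by positivity

/-- a family of characters and heights such that the heights belonging to characters induced by the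
same primitive character differ by at least one -/
structure Spaced {J : ℕ} (q : Fin J → ℕ) (χ : ∀ j, DirichletCharacter ℂ (q j)) (t : Fin J → ℝ) :
    Prop where
  pos : ∀ j, 0 < q j
  sep : ∀ j k, j ≠ k → Agree (χ j) (χ k) → 1 ≤ |t j - t k|

/-- **The bound for one dyadic block of primes.** -/
theorem block {J : ℕ} {q : Fin J → ℕ} {χ : ∀ j, DirichletCharacter ℂ (q j)} {t : Fin J → ℝ}
    (h : Spaced q χ t) {Q : ℝ} (hq : ∀ j, (q j : ℝ) ≤ Q) (ht : ∀ j, |t j| ≤ Q)
    {z y : ℕ} (hz : 1 ≤ z) (hzy : z ≤ 2 * y) (b : ℕ → ℂ) (hb : ∀ p, ‖b p‖ ≤ 1) :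
    ∑ j, ‖∑ p ∈ (Ioc (2 * y) (4 * y)).filter Nat.Prime, b p * (χ j p * ph (t j) p)‖ ^ 2 ≤
      (31 * kz z * y + 48 * Lz z ^ 2) *
        (C0 * (31 * kz z * y) + J * (48 * Lz z ^ 2 * (Q ^ 2 * (1 + 2 * Q * hr (6 * y))))) := by
  classical
  have hy : 0 < y := by omega
  have hkz := kz_nonneg hz
  rcases isEmpty_or_nonempty (Fin J) with hJ | hJ
  · rw [Finset.univ_eq_empty, sum_empty]
    have hJ0 : (J : ℝ) = 0 := by
      rcases Nat.eq_zero_or_pos J with h0 | h0
      · exact_mod_cast h0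
      · exact (hJ.false ⟨0, h0⟩).elim
    rw [hJ0, zero_mul, add_zero]
    have := C0_nonneg
    positivity
  obtain ⟨j0⟩ := hJ
  have hQ1 : 1 ≤ Q := by
    have := hq j0
    have h1 : (1 : ℝ) ≤ q j0 := by exact_mod_cast h.pos j0
    linarith
  set E : ℝ := 48 * Lz z ^ 2 * (Q ^ 2 * (1 + 2 * Q * hr (6 * y))) with hE
  have hhr := hr_nonneg (6 * y)
  have hE0 : 0 ≤ E := by positivity
  set φ : Fin J → ℕ → ℂ := fun j m => χ j ((m + 1 : ℕ) : ZMod (q j)) * ph (t j) (m + 1) with hφ
  set w : ℕ → ℝ := fun m => W y (m + 1) * sw z (m + 1) with hw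
  set f : ℕ → ℂ := fun m => if (m + 1).Prime ∧ 2 * y < m + 1 ∧ m + 1 ≤ 4 * y then b (m + 1) else 0
    with hf
  have hw0 : ∀ m ∈ range (6 * y), 0 ≤ w m := fun m _ => mul_nonneg (W_nonneg _ _) (sw_nonneg _ _)
  -- the Gram entries
  have hgram : ∀ j k, ‖∑ n ∈ range (6 * y), (w n : ℂ) * (conj (φ j n) * φ k n)‖ ≤
      (if Agree (χ j) (χ k) then 31 * kz z * y / (1 + (t k - t j) ^ 2) else 0) + E := by
    intro j k
    have e : ∑ n ∈ range (6 * y), (w n : ℂ) * (conj (φ j n) * φ k n) =
        ∑ m ∈ range (6 * y), ((W y (m + 1) * sw z (m + 1) : ℝ) : ℂ) *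
          (pc (χ j) (χ k) (m + 1) * ph (t k - t j) (m + 1)) := by
      apply sum_congr rfl
      intro m _
      simp only [hφ, hw]
      unfold pc
      rw [map_mul, conj_ph _ (Nat.succ_pos m), sub_eq_add_neg, ph_add _ _ (Nat.succ_pos m)]
      ring
    rw [e]
    have hqq : 0 < q j * q k := Nat.mul_pos (h.pos j) (h.pos k)
    have hg := gram hqq (periodic_pc (χ j) (χ k)) (norm_pc (χ j) (χ k)) (t k - t j) z hy
    have herr : 8 * er (t k - t j) (q j * q k) z (6 * y) ≤ E := by
      unfold er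
      have h1 : ((q j * q k : ℕ) : ℝ) ≤ Q ^ 2 := by
        push_cast
        rw [sq]
        exact mul_le_mul (hq j) (hq k) (Nat.cast_nonneg _) (by linarith)
      have h2 : |t k - t j| ≤ 2 * Q := by
        have := abs_sub (t k) (t j)
        have := ht k
        have := ht j
        linarith [abs_sub (t k) (t j)]
      have h3 : 1 + |t k - t j| * hr (6 * y) ≤ 1 + 2 * Q * hr (6 * y) := by
        have := mul_le_mul_of_nonneg_right h2 hhr
        linarith
      calc 8 * (Lz z ^ 2 * (6 * ((q j * q k : ℕ) : ℝ) * (1 + |t k - t j| * hr (6 * y)))) =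
            48 * Lz z ^ 2 * (((q j * q k : ℕ) : ℝ) * (1 + |t k - t j| * hr (6 * y))) := by ring
        _ ≤ 48 * Lz z ^ 2 * (Q ^ 2 * (1 + 2 * Q * hr (6 * y))) := by
            apply mul_le_mul_of_nonneg_left _ (by positivity)
            exact mul_le_mul h1 h3 (by positivity) (by positivity)
    refine hg.trans (add_le_add ?_ herr)
    split_ifs with hA
    · have h5 := norm_kk_le hqq (periodic_pc (χ j) (χ k)) (norm_pc (χ j) (χ k)) z
      gcongr
    · have : kk (pc (χ j) (χ k)) (q j * q k) z = 0 := by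
        unfold kk
        apply sum_eq_zero
        intro s _
        apply sum_eq_zero
        intro t _
        rw [mean_zero (h.pos j) (h.pos k) hA, zero_div, mul_zero]
      rw [this, norm_zero]
      simp
  set Γ : ℝ := C0 * (31 * kz z * y) + J * E with hΓ
  have hΓ0 : 0 ≤ Γ := by
    have := C0_nonneg
    positivity
  have hrow : ∀ j, ∑ k, ‖∑ n ∈ range (6 * y), (w n : ℂ) * (conj (φ j n) * φ k n)‖ ≤ Γ := by
    intro j
    refine (sum_le_sum fun k _ => hgram j k).trans ?_
    rw [sum_add_distrib, sum_const, card_univ, Fintype.card_fin, nsmul_eq_mul]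
    apply add_le_add _ le_rfl
    rw [← sum_filter]
    have e : ∑ k ∈ univ.filter (fun k => Agree (χ j) (χ k)),
        31 * kz z * y / (1 + (t k - t j) ^ 2) =
        (∑ k ∈ univ.filter (fun k => Agree (χ j) (χ k)), 1 / (1 + (t k - t j) ^ 2)) *
          (31 * kz z * y) := by
      rw [sum_mul]
      apply sum_congr rfl
      intro k _
      ring
    rw [e]
    apply mul_le_mul_of_nonneg_right _ (by positivity)
    apply spaced (v := fun k => t k - t j)
    intro a ha b' hb' hab
    rw [mem_filter] at ha hb'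
    have h6 : Agree (χ a) (χ b') := ha.2.symm.trans (h.pos _) (h.pos _) (h.pos _) hb'.2
    have h7 := h.sep a b' hab h6
    have e2 : t a - t j - (t b' - t j) = t a - t b' := by ring
    rw [e2]
    exact h7
  have key := bessel (range (6 * y)) w hw0 f φ Γ hΓ0 hrow
  -- the left side
  have hleft : ∀ j, ∑ n ∈ range (6 * y), (w n : ℂ) * (f n * φ j n) =
      ∑ p ∈ (Ioc (2 * y) (4 * y)).filter Nat.Prime, b p * (χ j p * ph (t j) p) := by
    intro j
    have e1 : ∀ n ∈ range (6 * y), (w n : ℂ) * (f n * φ j n) =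
        if (n + 1).Prime ∧ 2 * y < n + 1 ∧ n + 1 ≤ 4 * y then
          b (n + 1) * (χ j ((n + 1 : ℕ) : ZMod (q j)) * ph (t j) (n + 1)) else 0 := by
      intro n _
      simp only [hf, hw, hφ]
      split_ifs with hc
      · rw [W_eq_one hy (by omega) hc.2.2, sw_prime hz hc.1 (by omega)]
        push_cast
        ring
      · simp
    rw [sum_congr rfl e1, ← sum_filter]
    refine sum_bij (fun m _ => m + 1) ?_ ?_ ?_ ?_
    · intro m hm
      rw [mem_filter, mem_range] at hm
      rw [mem_filter, mem_Ioc]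
      exact ⟨hm.2.2, hm.2.1⟩
    · intro a _ c _ hac
      simpa using hac
    · intro p hp
      rw [mem_filter, mem_Ioc] at hp
      refine ⟨p - 1, ?_, by omega⟩
      rw [mem_filter, mem_range]
      have : p - 1 + 1 = p := by omega
      rw [this]
      exact ⟨by omega, hp.2, hp.1⟩
    · intro m _
      rfl
  simp only [hleft] at key
  refine key.trans ?_
  apply mul_le_mul_of_nonneg_right _ hΓ0
  -- the norm of f
  have hf1 : ∑ n ∈ range (6 * y), w n * ‖f n‖ ^ 2 ≤ ∑ n ∈ range (6 * y), w n := by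
    apply sum_le_sum
    intro n hn
    have h8 : ‖f n‖ ≤ 1 := by
      simp only [hf]
      split_ifs
      · exact hb _
      · simp
    exact mul_le_of_le_one_right (hw0 n hn) (pow_le_one₀ (norm_nonneg _) h8)
  refine hf1.trans ?_
  have hone : Function.Periodic (fun _ : ℕ => (1 : ℂ)) 1 := fun _ => rfl
  have hg := gram (ψ := fun _ => 1) one_pos hone (fun _ => by simp) 0 z hy
  have h9 := norm_kk_le (ψ := fun _ => 1) one_pos hone (fun _ => by simp) z
  have e3 : ∑ m ∈ range (6 * y), ((W y (m + 1) * sw z (m + 1) : ℝ) : ℂ) * (1 * ph 0 (m + 1)) =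
      ((∑ n ∈ range (6 * y), w n : ℝ) : ℂ) := by
    push_cast
    apply sum_congr rfl
    intro m _
    rw [ph_zero]
    simp [hw]
  rw [e3, norm_real, Real.norm_of_nonneg (sum_nonneg hw0)] at hg
  refine hg.trans ?_
  unfold er
  rw [abs_zero]
  have h10 : 31 * ‖kk (fun _ => 1) 1 z‖ * (y : ℝ) ≤ 31 * kz z * y := by gcongr
  norm_num
  linarith

end Pool.Agent.H439.LS
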