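import Pool.Agent.H439.LS.Gram
import Pool.Agent.H439.LS.Bessel

set_option autoImplicit false

namespace Pool.Agent.H439.LS

open Finset Complex ComplexConjugate

/-- two Dirichlet characters agree on the integers coprime to both moduli, in other words they are
induced by the same primitive character -/
def Agree {q r : ℕ} (χ : DirichletCharacter ℂ q) (ξ : DirichletCharacter ℂ r) : Prop :=
  ∀ n : ℕ, n.Coprime (q * r) → χ n = ξ n

lemma Agree.refl {q : ℕ} (χ : DirichletCharacter ℂ q) : Agree χ χ := fun _ _ => rfl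

lemma Agree.symm {q r : ℕ} {χ : DirichletCharacter ℂ q} {ξ : DirichletCharacter ℂ r}
    (h : Agree χ ξ) : Agree ξ χ := fun n hn => (h n (by rwa [mul_comm])).symm

lemma Agree.trans {q r s : ℕ} (hq : 0 < q) (hr : 0 < r) (hs : 0 < s)
    {χ : DirichletCharacter ℂ q} {ξ : DirichletCharacter ℂ r} {ζ : DirichletCharacter ℂ s}
    (h1 : Agree χ ξ) (h2 : Agree ξ ζ) : Agree χ ζ := by
  intro n hn
  have : NeZero (q * s * r) := ⟨by positivity⟩
  have : NeZero (q * s) := ⟨by positivity⟩
  have hd : q * s ∣ q * s * r := Dvd.intro _ rfl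
  obtain ⟨x, hx⟩ := ZMod.unitsMap_surjective hd (ZMod.unitOfCoprime n hn)
  have hx2 : ((x : ZMod (q * s * r)).cast : ZMod (q * s)) = (n : ZMod (q * s)) := by
    have := congrArg (fun u : (ZMod (q * s))ˣ => (u : ZMod (q * s))) hx
    simpa [ZMod.unitsMap_def, ZMod.castHom_apply] using this
  set m := (x : ZMod (q * s * r)).val with hm
  have hmc : m.Coprime (q * s * r) := ZMod.val_coe_unit_coprime x
  have hmn : ((m : ℕ) : ZMod (q * s)) = (n : ZMod (q * s)) := by
    rw [← hx2, hm, ZMod.natCast_val]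
  have e1 : ((m : ℕ) : ZMod q) = (n : ZMod q) := by
    rw [ZMod.natCast_eq_natCast_iff] at hmn ⊢
    exact hmn.of_mul_right s
  have e2 : ((m : ℕ) : ZMod s) = (n : ZMod s) := by
    rw [ZMod.natCast_eq_natCast_iff] at hmn ⊢
    exact hmn.of_mul_left q
  have c1 : m.Coprime (q * r) := Nat.Coprime.coprime_dvd_right ⟨s, by ring⟩ hmc
  have c2 : m.Coprime (r * s) := Nat.Coprime.coprime_dvd_right ⟨q, by ring⟩ hmc
  rw [← e1, ← e2, h1 m c1, h2 m c2]

/-- the product of the characters -/
noncomputable def pc {q r : ℕ} (χ : DirichletCharacter ℂ q) (ξ : DirichletCharacter ℂ r) (n : ℕ) :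
    ℂ := conj (χ n) * ξ n

lemma norm_pc {q r : ℕ} (χ : DirichletCharacter ℂ q) (ξ : DirichletCharacter ℂ r) (n : ℕ) :
    ‖pc χ ξ n‖ ≤ 1 := by
  unfold pc
  rw [norm_mul, norm_conj]
  exact mul_le_one₀ (χ.norm_le_one _) (norm_nonneg _) (ξ.norm_le_one _)

lemma periodic_char {q : ℕ} (χ : DirichletCharacter ℂ q) (k : ℕ) :
    Function.Periodic (fun n : ℕ => χ n) (q * k) := by
  intro n
  simp only
  congr 1
  push_cast
  rw [ZMod.natCast_self, zero_mul, add_zero]

lemma periodic_pc {q r : ℕ} (χ : DirichletCharacter ℂ q) (ξ : DirichletCharacter ℂ r) :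
    Function.Periodic (pc χ ξ) (q * r) := by
  intro n
  have h1 := periodic_char χ r n
  have h2 := periodic_char ξ q n
  simp only at h1 h2
  unfold pc
  rw [h1, mul_comm q r, h2]

lemma sum_range_zmod {r : ℕ} [NeZero r] (f : ZMod r → ℂ) :
    ∑ a ∈ range r, f a = ∑ x : ZMod r, f x := by
  refine Finset.sum_bij' (fun a _ => (a : ZMod r)) (fun x _ => x.val) ?_ ?_ ?_ ?_ ?_
  · intro a _; exact mem_univ _
  · intro x _; exact mem_range.2 x.val_lt
  · intro a ha; exact ZMod.val_cast_of_lt (mem_range.1 ha)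
  · intro x _; exact ZMod.natCast_zmod_val x
  · intro a _; rfl

lemma mean_zero {q r : ℕ} (hq : 0 < q) (hr : 0 < r) {χ : DirichletCharacter ℂ q}
    {ξ : DirichletCharacter ℂ r} (h : ¬ Agree χ ξ) (D : ℕ) :
    mv (fun a => pc χ ξ (D * a)) (q * r) = 0 := by
  have : NeZero (q * r) := ⟨by positivity⟩
  set η : DirichletCharacter ℂ (q * r) :=
    (DirichletCharacter.changeLevel (Dvd.intro _ rfl : q ∣ q * r) χ)⁻¹ *
      DirichletCharacter.changeLevel (Dvd.intro_left _ rfl : r ∣ q * r) ξ with hη
  have hpc : ∀ n : ℕ, pc χ ξ n = η n := by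
    intro n
    by_cases hn : n.Coprime (q * r)
    · have hu : IsUnit (n : ZMod (q * r)) := (ZMod.isUnit_iff_coprime n _).2 hn
      obtain ⟨x, hx⟩ := hu
      have h1 : DirichletCharacter.changeLevel (Dvd.intro _ rfl : q ∣ q * r) χ n = χ n := by
        rw [← hx, DirichletCharacter.changeLevel_eq_cast_of_dvd, hx]
        congr 1
        exact ZMod.cast_natCast (Dvd.intro _ rfl) n
      have h2 : DirichletCharacter.changeLevel (Dvd.intro_left _ rfl : r ∣ q * r) ξ n = ξ n := by
        rw [← hx, DirichletCharacter.changeLevel_eq_cast_of_dvd, hx]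
        congr 1
        exact ZMod.cast_natCast (Dvd.intro_left _ rfl) n
      rw [hη, MulChar.mul_apply, h2, MulChar.inv_apply_eq_inv', h1]
      unfold pc
      congr 1
      have hnorm : ‖χ n‖ = 1 := by
        have hu' : IsUnit (n : ZMod q) :=
          (ZMod.isUnit_iff_coprime n _).2 (Nat.Coprime.coprime_mul_right_right hn)
        obtain ⟨x', hx'⟩ := hu'
        rw [← hx']
        exact χ.unit_norm_eq_one x'
      rw [Complex.inv_def, Complex.normSq_eq_norm_sq, hnorm]
      simp
    · have h0 : η n = 0 := by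
        apply MulChar.map_nonunit
        rwa [ZMod.isUnit_iff_coprime]
      rw [h0]
      unfold pc
      rw [Nat.coprime_mul_iff_right, not_and_or] at hn
      rcases hn with hn | hn
      · have : χ n = 0 := by
          apply MulChar.map_nonunit
          rwa [ZMod.isUnit_iff_coprime]
        rw [this, map_zero, zero_mul]
      · have : ξ n = 0 := by
          apply MulChar.map_nonunit
          rwa [ZMod.isUnit_iff_coprime]
        rw [this, mul_zero]
  have hne : η ≠ 1 := by
    intro h1
    apply h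
    intro n hn
    have h2 := hpc n
    rw [h1, MulChar.one_apply ((ZMod.isUnit_iff_coprime n _).2 hn)] at h2
    unfold pc at h2
    have hnorm : ‖χ n‖ = 1 := by
      have hu' : IsUnit (n : ZMod q) :=
        (ZMod.isUnit_iff_coprime n _).2 (Nat.Coprime.coprime_mul_right_right hn)
      obtain ⟨x', hx'⟩ := hu'
      rw [← hx']
      exact χ.unit_norm_eq_one x'
    have h3 : χ n * conj (χ n) = 1 := by
      rw [Complex.mul_conj, Complex.normSq_eq_norm_sq, hnorm]; simp
    calc χ n = χ n * (conj (χ n) * ξ n) := by rw [h2, mul_one]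
      _ = (χ n * conj (χ n)) * ξ n := by ring
      _ = ξ n := by rw [h3, one_mul]
  unfold mv
  have : ∑ a ∈ range (q * r), pc χ ξ (D * a) = 0 := by
    have e : ∀ a ∈ range (q * r), pc χ ξ (D * a) = η D * η (a : ZMod (q * r)) := by
      intro a _
      rw [hpc, Nat.cast_mul, map_mul]
    rw [sum_congr rfl e, ← mul_sum, sum_range_zmod, MulChar.sum_eq_zero_of_ne_one hne, mul_zero]
  rw [this, zero_div]

end Pool.Agent.H439.LS
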