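import Pool.Agent.H439.LS.Block

set_option autoImplicit false

namespace Pool.Agent.H439.LS

open Finset Complex ComplexConjugate

/-- the constant of the block inequality -/
noncomputable def CB : ℝ := 2048 * (1984 * C0 + 1)

lemma CB_pos : 0 < CB := by
  unfold CB
  have := C0_nonneg
  positivity

/-- the threshold -/
noncomputable def y0 (J : ℕ) : ℝ := max (2 ^ 96) ((50000 * J) ^ 4)

lemma y0_le {J : ℕ} {y : ℝ} (hy : y0 J ≤ y) : (2 : ℝ) ^ 96 ≤ y := (le_max_left _ _).trans hy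

theorem block2 {J : ℕ} {q : Fin J → ℕ} {χ : ∀ j, DirichletCharacter ℂ (q j)} {t : Fin J → ℝ}
    (h : Spaced q χ t) {Q : ℝ} (hq : ∀ j, (q j : ℝ) ≤ Q) (ht : ∀ j, |t j| ≤ Q)
    {y : ℕ} (hy : y0 J ≤ y) (hQy : Q ^ 8 ≤ y) (b : ℕ → ℂ) (hb : ∀ p, ‖b p‖ ≤ 1) :
    ∑ j, ‖∑ p ∈ (Ioc (2 * y) (4 * y)).filter Nat.Prime, b p * (χ j p * ph (t j) p)‖ ^ 2 ≤
      CB * ((y : ℝ) / Real.log y) ^ 2 := by
  have hC0 := C0_nonneg
  have hlogpos : 0 < Real.log y := by
    apply Real.log_pos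
    exact lt_of_lt_of_le (by norm_num) (y0_le hy)
  rcases Nat.eq_zero_or_pos J with hJ | hJ
  · subst hJ
    rw [Finset.univ_eq_empty, sum_empty]
    have := CB_pos
    positivity
  have hQ1 : 1 ≤ Q := by
    have := hq ⟨0, hJ⟩
    have h1 : (1 : ℝ) ≤ q ⟨0, hJ⟩ := by exact_mod_cast h.pos ⟨0, hJ⟩
    linarith
  have hJ1 : (1 : ℝ) ≤ J := by exact_mod_cast hJ
  have hy1 : (2 : ℝ) ^ 96 ≤ y := y0_le hy
  have hy2 : (50000 * (J : ℝ)) ^ 4 ≤ y := (le_max_right _ _).trans hy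
  have hy0 : (0 : ℝ) < y := lt_of_lt_of_le (by norm_num) hy1
  -- the root of `y`
  set x : ℝ := (y : ℝ) ^ (1 / 32 : ℝ) with hx
  have hx32 : x ^ 32 = y := by
    rw [hx, ← Real.rpow_natCast, ← Real.rpow_mul hy0.le]
    norm_num
  have hx0 : 0 < x := Real.rpow_pos_of_pos hy0 _
  have hx8 : 8 ≤ x := by
    by_contra hlt
    rw [not_le] at hlt
    have : x ^ 32 < 8 ^ 32 := pow_lt_pow_left₀ hlt hx0.le (by norm_num)
    rw [hx32] at this
    have e : (8 : ℝ) ^ 32 = 2 ^ 96 := by norm_num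
    rw [e] at this
    linarith
  have hx2 : 2 ≤ x := by linarith
  have hlog : Real.log y = 32 * Real.log x := by
    rw [← hx32, Real.log_pow]; norm_num
  have hlogx : 0 < Real.log x := Real.log_pos (by linarith)
  have hlogx2 : Real.log x ≤ x := (Real.log_le_sub_one_of_pos hx0).trans (by linarith)
  -- the level
  set z : ℕ := ⌊x ^ 2⌋₊ with hz
  have hz1 : (z : ℝ) ≤ x ^ 2 := Nat.floor_le (by positivity)
  have hz2 : x ≤ z := by
    have := Nat.lt_floor_add_one (x ^ 2)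
    rw [← hz] at this
    nlinarith
  have hzn : 2 ≤ z := by
    have : (2 : ℝ) ≤ z := hx2.trans hz2
    exact_mod_cast this
  have hkz : kz z ≤ 64 / Real.log y := by
    refine (kz_le hzn).trans ?_
    rw [hlog, div_le_div_iff₀ (Real.log_pos (by exact_mod_cast hzn)) (by positivity)]
    have := Real.log_le_log hx0 hz2
    linarith
  have hkz0 := kz_nonneg (z := z) (by omega)
  have hLz : Lz z ^ 2 ≤ x ^ 8 := by
    have h1 := Lz_le (z := z) (by omega)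
    have h2 := Lz_nonneg z
    calc Lz z ^ 2 ≤ ((z : ℝ) ^ 2) ^ 2 := by gcongr
      _ ≤ ((x ^ 2) ^ 2) ^ 2 := by gcongr
      _ = x ^ 8 := by ring
  have hQx : Q ≤ x ^ 4 := by
    by_contra hlt
    rw [not_le] at hlt
    have h1 : (x ^ 4) ^ 8 < Q ^ 8 := pow_lt_pow_left₀ hlt (by positivity) (by norm_num)
    have h2 : (x ^ 4) ^ 8 = y := by rw [← hx32]; ring
    linarith
  have hzy : z ≤ 2 * y := by
    have h1 : (z : ℝ) ≤ y := by
      refine hz1.trans ?_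
      rw [← hx32]
      exact pow_le_pow_right₀ (by linarith) (by norm_num)
    have : z ≤ y := by exact_mod_cast h1
    omega
  refine (block h hq ht (by omega) hzy b hb).trans ?_
  set Y : ℝ := (y : ℝ) / Real.log y with hY
  have hY0 : 0 < Y := div_pos hy0 hlogpos
  have hYx : x ^ 31 / 32 ≤ Y := by
    rw [hY, hlog, ← hx32, div_le_div_iff₀ (by norm_num) (by positivity)]
    calc x ^ 31 * (32 * Real.log x) ≤ x ^ 31 * (32 * x) := by gcongr
      _ = x ^ 32 * 32 := by ring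
  have hxp : ∀ m n : ℕ, m ≤ n → x ^ m ≤ x ^ n := fun m n h => pow_le_pow_right₀ (by linarith) h
  -- first factor
  have hky : 31 * kz z * y ≤ 1984 * Y := by
    calc 31 * kz z * y ≤ 31 * (64 / Real.log y) * y := by gcongr
      _ = 1984 * Y := by rw [hY]; ring
  have h48 : 48 * Lz z ^ 2 ≤ 64 * Y := by
    have h1 : (48 : ℝ) * x ^ 8 ≤ 64 * (x ^ 31 / 32) := by
      have h2 : (24 : ℝ) ≤ x ^ 23 := by
        have : (2 : ℝ) ^ 23 ≤ x ^ 23 := pow_le_pow_left₀ (by norm_num) hx2 23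
        norm_num at this
        linarith
      have h3 : x ^ 31 = x ^ 23 * x ^ 8 := by ring
      rw [h3]
      have h4 : 0 < x ^ 8 := by positivity
      nlinarith
    calc 48 * Lz z ^ 2 ≤ 48 * x ^ 8 := by gcongr
      _ ≤ 64 * (x ^ 31 / 32) := h1
      _ ≤ 64 * Y := by gcongr
  have hF1 : 31 * kz z * y + 48 * Lz z ^ 2 ≤ 2048 * Y := by linarith
  -- second factor
  have hhr : 1 + 2 * Q * hr (6 * y) ≤ 200 * x ^ 5 := by
    have h1 := hr_le (6 * y)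
    have h2 : Real.log ((6 * y : ℕ) : ℝ) ≤ 5 + 32 * x := by
      push_cast
      rw [Real.log_mul (by norm_num) hy0.ne', hlog]
      have h3 : Real.log 6 ≤ 5 := (Real.log_le_sub_one_of_pos (by norm_num)).trans (by norm_num)
      linarith
    have h3 : hr (6 * y) ≤ 6 + 32 * x := by linarith
    have h4 : 2 * Q * hr (6 * y) ≤ 2 * x ^ 4 * (6 + 32 * x) := by
      have := hr_nonneg (6 * y)
      gcongr
    have h5 : x ^ 4 ≤ x ^ 5 := hxp 4 5 (by norm_num)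
    have h6 : 1 ≤ x ^ 5 := one_le_pow₀ (by linarith)
    have h7 : 2 * x ^ 4 * (6 + 32 * x) = 12 * x ^ 4 + 64 * x ^ 5 := by ring
    linarith
  have hJx : 50000 * (J : ℝ) ≤ x ^ 8 := by
    by_contra hlt
    rw [not_le] at hlt
    have h1 : (x ^ 8) ^ 4 < (50000 * (J : ℝ)) ^ 4 := pow_lt_pow_left₀ hlt (by positivity) (by norm_num)
    have h2 : (x ^ 8) ^ 4 = y := by rw [← hx32]; ring
    linarith
  have hF2 : J * (48 * Lz z ^ 2 * (Q ^ 2 * (1 + 2 * Q * hr (6 * y)))) ≤ Y := by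
    have hh := hr_nonneg (6 * y)
    calc J * (48 * Lz z ^ 2 * (Q ^ 2 * (1 + 2 * Q * hr (6 * y)))) ≤
          J * (48 * x ^ 8 * ((x ^ 4) ^ 2 * (200 * x ^ 5))) := by gcongr
      _ = J * 9600 * x ^ 21 := by ring
      _ ≤ x ^ 8 * x ^ 21 := by
          apply mul_le_mul_of_nonneg_right _ (by positivity)
          linarith
      _ = x ^ 29 := by ring
      _ ≤ x ^ 31 / 32 := by
          have h1 : x ^ 31 = x ^ 29 * x ^ 2 := by ring
          have h2 : (64 : ℝ) ≤ x ^ 2 := by nlinarith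
          have h3 : 0 < x ^ 29 := by positivity
          rw [h1]
          nlinarith
      _ ≤ Y := hYx
  have hF2' : C0 * (31 * kz z * y) + J * (48 * Lz z ^ 2 * (Q ^ 2 * (1 + 2 * Q * hr (6 * y)))) ≤
      (1984 * C0 + 1) * Y := by
    have := mul_le_mul_of_nonneg_left hky hC0
    linarith
  calc _ ≤ 2048 * Y * ((1984 * C0 + 1) * Y) := by
        have hh := hr_nonneg (6 * y)
        apply mul_le_mul hF1 hF2' (by positivity) (by positivity)
    _ = CB * Y ^ 2 := by unfold CB; ring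

/-- the vector of the twisted sums -/
noncomputable def vec {J : ℕ} {q : Fin J → ℕ} (χ : ∀ j, DirichletCharacter ℂ (q j)) (t : Fin J → ℝ)
    (c : ℕ → ℂ) (s : Finset ℕ) : EuclideanSpace ℂ (Fin J) :=
  WithLp.toLp 2 fun j => ∑ p ∈ s.filter Nat.Prime, c p * (χ j p * ph (t j) p)

lemma norm_vec {J : ℕ} {q : Fin J → ℕ} (χ : ∀ j, DirichletCharacter ℂ (q j)) (t : Fin J → ℝ)
    (c : ℕ → ℂ) (s : Finset ℕ) : ‖vec χ t c s‖ =
      Real.sqrt (∑ j, ‖∑ p ∈ s.filter Nat.Prime, c p * (χ j p * ph (t j) p)‖ ^ 2) := by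
  rw [EuclideanSpace.norm_eq]
  rfl

lemma vec_union {J : ℕ} {q : Fin J → ℕ} (χ : ∀ j, DirichletCharacter ℂ (q j)) (t : Fin J → ℝ)
    (c : ℕ → ℂ) {s s' : Finset ℕ} (h : Disjoint s s') :
    vec χ t c (s ∪ s') = vec χ t c s + vec χ t c s' := by
  ext j
  change ∑ p ∈ (s ∪ s').filter Nat.Prime, c p * (χ j p * ph (t j) p) =
    ∑ p ∈ s.filter Nat.Prime, c p * (χ j p * ph (t j) p) +
      ∑ p ∈ s'.filter Nat.Prime, c p * (χ j p * ph (t j) p)
  rw [filter_union, sum_union (disjoint_filter_filter h)]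

theorem norm_vec_block {J : ℕ} {q : Fin J → ℕ} {χ : ∀ j, DirichletCharacter ℂ (q j)}
    {t : Fin J → ℝ} (h : Spaced q χ t) {Q : ℝ} (hq : ∀ j, (q j : ℝ) ≤ Q) (ht : ∀ j, |t j| ≤ Q)
    {y : ℕ} (hy : y0 J ≤ y) (hQy : Q ^ 8 ≤ y) (c : ℕ → ℂ) {g : ℝ} (hg0 : 0 < g)
    (hg : ∀ p ∈ Ioc (2 * y) (4 * y), p.Prime → ‖c p‖ ≤ g) :
    ‖vec χ t c (Ioc (2 * y) (4 * y))‖ ≤ g * (Real.sqrt CB * ((y : ℝ) / Real.log y)) := by
  classical
  set b : ℕ → ℂ := fun p => if p.Prime ∧ p ∈ Ioc (2 * y) (4 * y) then c p / g else 0 with hb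
  have hb1 : ∀ p, ‖b p‖ ≤ 1 := by
    intro p
    simp only [hb]
    split_ifs with hc
    · rw [norm_div, norm_real, Real.norm_of_nonneg hg0.le, div_le_one hg0]
      exact hg p hc.2 hc.1
    · simp
  have h1 := block2 h hq ht hy hQy b hb1
  have hlogpos : 0 < Real.log y := by
    apply Real.log_pos
    exact lt_of_lt_of_le (by norm_num) (y0_le hy)
  have hy0 : (0 : ℝ) ≤ y := Nat.cast_nonneg y
  rw [norm_vec]
  apply Real.sqrt_le_iff.2
  have hCB := CB_pos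
  refine ⟨by positivity, ?_⟩
  have e : ∀ j, ∑ p ∈ (Ioc (2 * y) (4 * y)).filter Nat.Prime, c p * (χ j p * ph (t j) p) =
      g * ∑ p ∈ (Ioc (2 * y) (4 * y)).filter Nat.Prime, b p * (χ j p * ph (t j) p) := by
    intro j
    rw [mul_sum]
    apply sum_congr rfl
    intro p hp
    rw [mem_filter] at hp
    simp only [hb]
    rw [if_pos ⟨hp.2, hp.1⟩]
    have : (g : ℂ) ≠ 0 := by exact_mod_cast hg0.ne'
    field_simp
  simp_rw [e, norm_mul, mul_pow]
  rw [← mul_sum, norm_real, Real.norm_of_nonneg hg0.le]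
  rw [Real.sq_sqrt hCB.le]
  apply mul_le_mul_of_nonneg_left _ (by positivity)
  exact h1

theorem dyadic {J : ℕ} {q : Fin J → ℕ} {χ : ∀ j, DirichletCharacter ℂ (q j)}
    {t : Fin J → ℝ} (h : Spaced q χ t) {Q : ℝ} (hq : ∀ j, (q j : ℝ) ≤ Q) (ht : ∀ j, |t j| ≤ Q)
    {Y : ℕ} (hY : y0 J ≤ Y) (hQY : Q ^ 8 ≤ Y) (c : ℕ → ℂ) (g : ℕ → ℝ) (hg0 : ∀ k, 0 < g k)
    (hg : ∀ k, ∀ p ∈ Ioc (2 * (2 ^ k * Y)) (4 * (2 ^ k * Y)), p.Prime → ‖c p‖ ≤ g k) (K : ℕ) :
    ‖vec χ t c (Ioc (2 * Y) (2 ^ (K + 1) * Y))‖ ≤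
      ∑ k ∈ range K, g k * (Real.sqrt CB * ((2 ^ k * Y : ℝ) / Real.log (2 ^ k * Y))) := by
  classical
  induction K with
  | zero =>
    have : Ioc (2 * Y) (2 ^ (0 + 1) * Y) = ∅ := by simp
    rw [this, range_zero, sum_empty]
    apply le_of_eq
    rw [norm_vec]
    simp
  | succ K ih =>
    have e1 : Ioc (2 * Y) (2 ^ (K + 1 + 1) * Y) = Ioc (2 * Y) (2 ^ (K + 1) * Y) ∪
        Ioc (2 * (2 ^ K * Y)) (4 * (2 ^ K * Y)) := by
      have a1 : 2 ^ (K + 1) * Y = 2 * (2 ^ K * Y) := by ring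
      have a2 : 2 ^ (K + 1 + 1) * Y = 4 * (2 ^ K * Y) := by ring
      have a3 : Y ≤ 2 ^ K * Y := Nat.le_mul_of_pos_left _ (by positivity)
      rw [a1, a2]
      ext p
      simp only [mem_Ioc, mem_union]
      omega
    have e2 : Disjoint (Ioc (2 * Y) (2 ^ (K + 1) * Y)) (Ioc (2 * (2 ^ K * Y)) (4 * (2 ^ K * Y))) := by
      have a1 : 2 ^ (K + 1) * Y = 2 * (2 ^ K * Y) := by ring
      rw [a1, disjoint_left]
      intro p hp hp'
      rw [mem_Ioc] at hp hp'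
      omega
    rw [e1, vec_union _ _ _ e2, sum_range_succ]
    refine (norm_add_le _ _).trans (add_le_add ih ?_)
    have a3 : (Y : ℝ) ≤ ((2 ^ K * Y : ℕ) : ℝ) := by
      exact_mod_cast Nat.le_mul_of_pos_left _ (by positivity)
    have h2 := norm_vec_block h hq ht (y := 2 ^ K * Y) (hY.trans a3) (hQY.trans a3) c (hg0 K)
      (hg K)
    push_cast at h2
    exact h2

end Pool.Agent.H439.LS
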