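import Mathlib

set_option autoImplicit false

namespace Pool.Agent.H439.LS

open Finset Complex

/-- `n ^ {iu}` -/
noncomputable def ph (u : ℝ) (n : ℕ) : ℂ := (n : ℂ) ^ ((u : ℂ) * I)

lemma norm_ph (u : ℝ) {n : ℕ} (hn : 0 < n) : ‖ph u n‖ = 1 := by
  unfold ph
  rw [norm_natCast_cpow_of_pos hn]
  simp

lemma ph_mul (u : ℝ) (m n : ℕ) : ph u (m * n) = ph u m * ph u n := by
  unfold ph
  push_cast
  exact natCast_mul_natCast_cpow m n _

lemma ph_zero (n : ℕ) : ph 0 n = 1 := by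
  unfold ph; simp

lemma ph_add (u v : ℝ) {n : ℕ} (hn : 0 < n) : ph (u + v) n = ph u n * ph v n := by
  unfold ph
  rw [← cpow_add _ _ (by exact_mod_cast hn.ne')]
  congr 1
  push_cast
  ring

lemma conj_ph (u : ℝ) {n : ℕ} (hn : 0 < n) : (starRingEnd ℂ) (ph u n) = ph (-u) n := by
  unfold ph
  have hn' : (n : ℂ) ≠ 0 := by exact_mod_cast hn.ne'
  rw [cpow_def_of_ne_zero hn', cpow_def_of_ne_zero hn', ← exp_conj]
  congr 1
  rw [← natCast_log, map_mul, map_mul, conj_ofReal, conj_ofReal, conj_I]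
  push_cast
  ring

/-- `y^{1+iu}/(1+iu)` -/
noncomputable def G1 (u y : ℝ) : ℂ := (y : ℂ) ^ (1 + (u : ℂ) * I) / (1 + (u : ℂ) * I)

/-- `y^{2+iu}/((1+iu)(2+iu))` -/
noncomputable def G2 (u y : ℝ) : ℂ :=
  (y : ℂ) ^ (2 + (u : ℂ) * I) / ((1 + (u : ℂ) * I) * (2 + (u : ℂ) * I))

lemma one_add_ne (u : ℝ) : (1 + (u : ℂ) * I) ≠ 0 := by
  intro h
  have := congrArg Complex.re h
  simp at this

lemma two_add_ne (u : ℝ) : (2 + (u : ℂ) * I) ≠ 0 := by
  intro h
  have := congrArg Complex.re h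
  simp at this

lemma hasDerivAt_G1 (u : ℝ) {y : ℝ} (hy : 0 < y) :
    HasDerivAt (G1 u) ((y : ℂ) ^ ((u : ℂ) * I)) y := by
  have h := (hasDerivAt_ofReal_cpow_const (x := y) (r := 1 + (u : ℂ) * I) hy.ne'
    (one_add_ne u)).div_const (1 + (u : ℂ) * I)
  have e : (1 + (u : ℂ) * I) * (y : ℂ) ^ (1 + (u : ℂ) * I - 1) / (1 + (u : ℂ) * I) =
      (y : ℂ) ^ ((u : ℂ) * I) := by
    rw [mul_div_cancel_left₀ _ (one_add_ne u), add_sub_cancel_left]
  rw [e] at h
  exact h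

lemma hasDerivAt_G2 (u : ℝ) {y : ℝ} (hy : 0 < y) :
    HasDerivAt (G2 u) (G1 u y) y := by
  have h := (hasDerivAt_ofReal_cpow_const (x := y) (r := 2 + (u : ℂ) * I) hy.ne'
    (two_add_ne u)).div_const ((1 + (u : ℂ) * I) * (2 + (u : ℂ) * I))
  have e : (2 + (u : ℂ) * I) * (y : ℂ) ^ (2 + (u : ℂ) * I - 1) /
      ((1 + (u : ℂ) * I) * (2 + (u : ℂ) * I)) = G1 u y := by
    unfold G1
    have h1 := one_add_ne u
    have h2 := two_add_ne u
    rw [show (2 : ℂ) + (u : ℂ) * I - 1 = 1 + (u : ℂ) * I by ring]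
    field_simp
  rw [e] at h
  exact h

lemma hasDerivAt_phase (u : ℝ) {y : ℝ} (hy : 0 < y) :
    HasDerivAt (fun y : ℝ => (y : ℂ) ^ ((u : ℂ) * I))
      (((u : ℂ) * I) * (y : ℂ) ^ ((u : ℂ) * I - 1)) y := by
  have := (hasDerivAt_id (y : ℂ)).cpow_const (c := (u : ℂ) * I) (by
    left; simpa using hy)
  have h2 := HasDerivAt.comp_ofReal this
  simpa using h2

lemma norm_cpow_iu (u : ℝ) {y : ℝ} (hy : 0 < y) : ‖(y : ℂ) ^ ((u : ℂ) * I)‖ = 1 := by
  rw [norm_cpow_eq_rpow_re_of_pos hy]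
  simp

/-- the phase is Lipschitz -/
lemma phase_lip (u : ℝ) {a b : ℝ} (ha : 0 < a) (hab : a ≤ b) :
    ‖(b : ℂ) ^ ((u : ℂ) * I) - (a : ℂ) ^ ((u : ℂ) * I)‖ ≤ |u| / a * (b - a) := by
  refine norm_image_sub_le_of_norm_deriv_le_segment' (f := fun y : ℝ => (y : ℂ) ^ ((u : ℂ) * I))
    (f' := fun y : ℝ => ((u : ℂ) * I) * (y : ℂ) ^ ((u : ℂ) * I - 1)) (C := |u| / a) ?_ ?_ b
    (Set.right_mem_Icc.2 hab)
  · intro x hx
    exact (hasDerivAt_phase u (lt_of_lt_of_le ha hx.1)).hasDerivWithinAt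
  · intro x hx
    have hx0 : 0 < x := lt_of_lt_of_le ha hx.1
    rw [norm_mul, norm_mul, norm_cpow_eq_rpow_re_of_pos hx0, norm_real, norm_I, mul_one,
      Real.norm_eq_abs]
    simp only [sub_re, mul_re, ofReal_re, I_re, mul_zero, ofReal_im, I_im, mul_one, sub_self,
      one_re, zero_sub]
    rw [Real.rpow_neg_one, div_eq_mul_inv]
    apply mul_le_mul_of_nonneg_left _ (abs_nonneg _)
    exact inv_anti₀ ha hx.1

/-- `G1` is 1-Lipschitz -/
lemma G1_lip (u : ℝ) {a b : ℝ} (ha : 0 < a) (hab : a ≤ b) : ‖G1 u b - G1 u a‖ ≤ b - a := by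
  have := norm_image_sub_le_of_norm_deriv_le_segment' (f := G1 u)
    (f' := fun y : ℝ => (y : ℂ) ^ ((u : ℂ) * I)) (C := 1) (a := a) (b := b) ?_ ?_ b
    (Set.right_mem_Icc.2 hab)
  · simpa using this
  · intro x hx
    exact (hasDerivAt_G1 u (lt_of_lt_of_le ha hx.1)).hasDerivWithinAt
  · intro x hx
    exact (norm_cpow_iu u (lt_of_lt_of_le ha hx.1)).le

lemma G1_zero (u : ℝ) : G1 u 0 = 0 := by
  unfold G1
  rw [ofReal_zero, zero_cpow (one_add_ne u), zero_div]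

lemma norm_one_add (u : ℝ) : 1 ≤ ‖(1 + (u : ℂ) * I)‖ := by
  have := abs_re_le_norm (1 + (u : ℂ) * I)
  simpa using this

lemma norm_two_add (u : ℝ) : 1 ≤ ‖(2 + (u : ℂ) * I)‖ := by
  have := abs_re_le_norm (2 + (u : ℂ) * I)
  simp at this
  linarith

lemma norm_G1 (u : ℝ) {y : ℝ} (hy : 0 ≤ y) : ‖G1 u y‖ ≤ y := by
  rcases hy.eq_or_lt with h | h
  · rw [← h, G1_zero, norm_zero]
  · unfold G1
    rw [norm_div, norm_cpow_eq_rpow_re_of_pos h]
    simp only [add_re, one_re, mul_re, ofReal_re, I_re, mul_zero, ofReal_im, I_im, mul_one,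
      sub_self, add_zero, Real.rpow_one]
    exact div_le_self h.le (norm_one_add u)

/-- `G1` is 1-Lipschitz on the closed half line -/
lemma G1_lip' (u : ℝ) {a b : ℝ} (ha : 0 ≤ a) (hab : a ≤ b) : ‖G1 u b - G1 u a‖ ≤ b - a := by
  rcases ha.eq_or_lt with h | h
  · rw [← h, G1_zero, sub_zero, sub_zero]
    exact norm_G1 u (ha.trans hab)
  · exact G1_lip u h hab

/-- mean value estimate of second order -/
lemma G2_step (u : ℝ) {a : ℝ} (ha : 0 < a) : ‖G2 u (a + 1) - G2 u a - G1 u a‖ ≤ 1 := by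
  have := norm_image_sub_le_of_norm_deriv_le_segment' (f := fun y : ℝ => G2 u y - y * G1 u a)
    (f' := fun y : ℝ => G1 u y - G1 u a) (C := 1) (a := a) (b := a + 1) ?_ ?_ (a + 1)
    (Set.right_mem_Icc.2 (by linarith))
  · have e : (G2 u (a + 1) - ((a + 1 : ℝ) : ℂ) * G1 u a) - (G2 u a - (a : ℂ) * G1 u a) =
      G2 u (a + 1) - G2 u a - G1 u a := by
      push_cast; ring
    rw [e] at this
    simpa using this
  · intro x hx
    have h1 := hasDerivAt_G2 u (lt_of_lt_of_le ha hx.1)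
    have h2 : HasDerivAt (fun y : ℝ => (y : ℂ) * G1 u a) (1 * G1 u a) x :=
      (HasDerivAt.ofReal_comp (hasDerivAt_id x)).mul_const _
    rw [one_mul] at h2
    exact (h1.sub h2).hasDerivWithinAt
  · intro x hx
    refine (G1_lip u ha hx.1).trans ?_
    linarith [hx.2]

/-- harmonic sums -/
noncomputable def hr (N : ℕ) : ℝ := ∑ m ∈ range N, 1 / ((m : ℝ) + 1)

lemma hr_nonneg (N : ℕ) : 0 ≤ hr N := sum_nonneg fun m _ => by positivity

lemma hr_mono {M N : ℕ} (h : M ≤ N) : hr M ≤ hr N :=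
  sum_le_sum_of_subset_of_nonneg (range_mono h) fun m _ _ => by positivity

lemma hr_le (N : ℕ) : hr N ≤ 1 + Real.log N := by
  have := harmonic_le_one_add_log N
  have h2 : (harmonic N : ℝ) = hr N := by
    unfold harmonic hr
    push_cast
    simp
  rw [← h2]
  exact this

lemma ph_step (u : ℝ) (m : ℕ) : ‖ph u (m + 2) - ph u (m + 1)‖ ≤ |u| * (1 / ((m : ℝ) + 1)) := by
  have h := phase_lip u (a := (m : ℝ) + 1) (b := (m : ℝ) + 2) (by positivity) (by linarith)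
  unfold ph
  have e : |u| / ((m : ℝ) + 1) * ((m : ℝ) + 2 - ((m : ℝ) + 1)) = |u| * (1 / ((m : ℝ) + 1)) := by
    ring
  rw [e] at h
  push_cast at h ⊢
  exact h

/-- Abel summation -/
lemma abel (c f : ℕ → ℂ) (B : ℝ) (hB : ∀ N, ‖∑ m ∈ range N, c m‖ ≤ B) (hf : ∀ m, ‖f m‖ ≤ 1)
    (N : ℕ) : ‖∑ m ∈ range N, c m * f m‖ ≤ B * (1 + ∑ m ∈ range (N - 1), ‖f (m + 1) - f m‖) := by
  have hB0 : 0 ≤ B := (norm_nonneg _).trans (hB 0)
  rcases Nat.eq_zero_or_pos N with h | h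
  · subst h
    simpa using hB0
  · obtain ⟨n, rfl⟩ := Nat.exists_eq_succ_of_ne_zero h.ne'
    have key : ∀ n : ℕ, ∑ m ∈ range (n + 1), c m * f m = (∑ m ∈ range (n + 1), c m) * f n -
        ∑ m ∈ range n, (∑ i ∈ range (m + 1), c i) * (f (m + 1) - f m) := by
      intro n
      induction n with
      | zero => simp
      | succ n ih =>
        rw [sum_range_succ, ih, sum_range_succ (fun m => c m) (n + 1), sum_range_succ (fun m =>
          (∑ i ∈ range (m + 1), c i) * (f (m + 1) - f m)) n]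
        ring
    rw [Nat.succ_eq_add_one, key n, Nat.add_sub_cancel]
    refine (norm_sub_le _ _).trans ?_
    have h1 : ‖(∑ m ∈ range (n + 1), c m) * f n‖ ≤ B * 1 := by
      rw [norm_mul]
      exact mul_le_mul (hB _) (hf n) (norm_nonneg _) hB0
    have h2 : ‖∑ m ∈ range n, (∑ i ∈ range (m + 1), c i) * (f (m + 1) - f m)‖ ≤
        ∑ m ∈ range n, B * ‖f (m + 1) - f m‖ := by
      refine norm_sum_le_of_le _ fun m _ => ?_
      rw [norm_mul]
      exact mul_le_mul_of_nonneg_right (hB _) (norm_nonneg _)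
    rw [← mul_sum] at h2
    linarith

/-- partial sums of a periodic sequence of mean value zero -/
lemma periodic_sum {c : ℕ → ℂ} {r : ℕ} (hr : 0 < r) (hc : Function.Periodic c r)
    (h0 : ∑ m ∈ range r, c m = 0) {b : ℝ} (hb : ∀ m, ‖c m‖ ≤ b) (N : ℕ) :
    ‖∑ m ∈ range N, c m‖ ≤ r * b := by
  have hb0 : 0 ≤ b := (norm_nonneg _).trans (hb 0)
  have h1 : Function.Periodic (fun N => ∑ m ∈ range N, c m) r := by
    intro N
    change ∑ m ∈ range (N + r), c m = ∑ m ∈ range N, c m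
    rw [add_comm N r, sum_range_add, h0, zero_add]
    apply sum_congr rfl
    intro m _
    rw [add_comm r m]
    exact hc m
  have h2 : (fun N => ∑ m ∈ range N, c m) N = (fun N => ∑ m ∈ range N, c m) (N % r) :=
    (h1.map_mod_nat N).symm
  simp only at h2
  rw [h2]
  refine (norm_sum_le_of_le _ fun m _ => hb m).trans ?_
  rw [sum_const, card_range, nsmul_eq_mul]
  apply mul_le_mul_of_nonneg_right _ hb0
  exact_mod_cast (Nat.mod_lt N hr).le

/-- mean value -/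
noncomputable def mv (ψ : ℕ → ℂ) (r : ℕ) : ℂ := (∑ a ∈ range r, ψ a) / r

lemma norm_mv {ψ : ℕ → ℂ} (hψ : ∀ n, ‖ψ n‖ ≤ 1) (r : ℕ) : ‖mv ψ r‖ ≤ 1 := by
  unfold mv
  rcases Nat.eq_zero_or_pos r with h | h
  · subst h; simp
  · rw [norm_div, norm_natCast, div_le_one (by exact_mod_cast h)]
    refine (norm_sum_le_of_le _ fun m _ => hψ m).trans ?_
    simp

/-- one step -/
lemma G1_step (u : ℝ) (n : ℕ) :
    ‖ph u (n + 2) - (G1 u ((n : ℝ) + 2) - G1 u ((n : ℝ) + 1))‖ ≤ |u| * (1 / ((n : ℝ) + 1)) := by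
  have hn : (0 : ℝ) < (n : ℝ) + 1 := by positivity
  have hph : ph u (n + 2) = (((n : ℝ) + 2 : ℝ) : ℂ) ^ ((u : ℂ) * I) := by
    unfold ph; push_cast; rfl
  have h7 := norm_image_sub_le_of_norm_deriv_le_segment' (f := fun y : ℝ =>
      (y : ℂ) * ph u (n + 2) - G1 u y)
    (f' := fun y : ℝ => ph u (n + 2) - (y : ℂ) ^ ((u : ℂ) * I)) (C := |u| * (1 / ((n : ℝ) + 1)))
    (a := (n : ℝ) + 1) (b := (n : ℝ) + 2) ?_ ?_ ((n : ℝ) + 2) (Set.right_mem_Icc.2 (by linarith))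
  · have e : ((((n : ℝ) + 2 : ℝ) : ℂ) * ph u (n + 2) - G1 u ((n : ℝ) + 2)) -
        ((((n : ℝ) + 1 : ℝ) : ℂ) * ph u (n + 2) - G1 u ((n : ℝ) + 1)) =
        ph u (n + 2) - (G1 u ((n : ℝ) + 2) - G1 u ((n : ℝ) + 1)) := by
      push_cast; ring
    rw [e] at h7
    refine h7.trans (le_of_eq ?_)
    ring
  · intro x hx
    have hx0 : 0 < x := lt_of_lt_of_le hn hx.1
    have h2 : HasDerivAt (fun y : ℝ => (y : ℂ) * ph u (n + 2)) (1 * ph u (n + 2)) x :=
      (HasDerivAt.ofReal_comp (hasDerivAt_id x)).mul_const _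
    rw [one_mul] at h2
    exact (h2.sub (hasDerivAt_G1 u hx0)).hasDerivWithinAt
  · intro x hx
    have hx0 : 0 < x := lt_of_lt_of_le hn hx.1
    rw [hph]
    refine (phase_lip u hx0 hx.2.le).trans ?_
    have h1 : |u| / x ≤ |u| / ((n : ℝ) + 1) := div_le_div_of_nonneg_left (abs_nonneg _) hn hx.1
    have h2 : (n : ℝ) + 2 - x ≤ 1 := by linarith [hx.1]
    have h3 : 0 ≤ (n : ℝ) + 2 - x := by linarith [hx.2]
    calc |u| / x * ((n : ℝ) + 2 - x) ≤ |u| / ((n : ℝ) + 1) * 1 :=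
          mul_le_mul h1 h2 h3 (by positivity)
      _ = _ := by ring

lemma G1_one (u : ℝ) : ‖1 - G1 u 1‖ ≤ 1 := by
  have h2 : G1 u 1 = 1 / (1 + (u : ℂ) * I) := by unfold G1; simp
  rw [h2]
  have h3 : (1 : ℂ) - 1 / (1 + (u : ℂ) * I) = (u : ℂ) * I / (1 + (u : ℂ) * I) := by
    have := one_add_ne u
    field_simp
    ring
  rw [h3, norm_div, norm_mul, norm_real, norm_I, mul_one, Real.norm_eq_abs]
  have h4 := norm_one_add u
  rw [div_le_one (by linarith)]
  have := abs_im_le_norm (1 + (u : ℂ) * I)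
  simpa using this

/-- sum of the phases -/
lemma sum_ph_succ (u : ℝ) (n : ℕ) :
    ‖∑ m ∈ range (n + 1), ph u (m + 1) - G1 u ((n : ℝ) + 1)‖ ≤ 1 + |u| * hr n := by
  induction n with
  | zero =>
    have h1 : ph u 1 = 1 := by unfold ph; simp
    have h6 : hr 0 = 0 := by unfold hr; simp
    simp only [zero_add, range_one, sum_singleton, Nat.cast_zero, h1, h6, mul_zero, add_zero]
    exact G1_one u
  | succ n ih =>
    rw [sum_range_succ]
    have e : hr (n + 1) = hr n + 1 / ((n : ℝ) + 1) := by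
      unfold hr; rw [sum_range_succ]
    have key := G1_step u n
    have e2 : ∑ m ∈ range (n + 1), ph u (m + 1) + ph u (n + 1 + 1) -
        G1 u (((n + 1 : ℕ) : ℝ) + 1) = (∑ m ∈ range (n + 1), ph u (m + 1) - G1 u ((n : ℝ) + 1)) +
        (ph u (n + 2) - (G1 u ((n : ℝ) + 2) - G1 u ((n : ℝ) + 1))) := by
      have : ((n + 1 : ℕ) : ℝ) + 1 = (n : ℝ) + 2 := by push_cast; ring
      rw [this]
      ring
    rw [e2, e]
    refine (norm_add_le _ _).trans ?_
    linarith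

lemma sum_ph (u : ℝ) (N : ℕ) : ‖∑ m ∈ range N, ph u (m + 1) - G1 u N‖ ≤ 1 + |u| * hr N := by
  rcases Nat.eq_zero_or_pos N with h | h
  · subst h
    simp [G1_zero, hr]
  · obtain ⟨n, rfl⟩ := Nat.exists_eq_succ_of_ne_zero h.ne'
    have h1 := sum_ph_succ u n
    have h2 : hr n ≤ hr (n + 1) := hr_mono (Nat.le_succ n)
    have h3 : ((n.succ : ℕ) : ℝ) = (n : ℝ) + 1 := by push_cast; rfl
    rw [h3]
    refine h1.trans ?_
    have := mul_le_mul_of_nonneg_left h2 (abs_nonneg u)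
    rw [Nat.succ_eq_add_one]
    linarith

/-- sums of periodic functions times phases -/
lemma sum_periodic {ψ : ℕ → ℂ} {r : ℕ} (hr0 : 0 < r) (hψ : Function.Periodic ψ r)
    (h1 : ∀ n, ‖ψ n‖ ≤ 1) (u : ℝ) (N : ℕ) :
    ‖∑ m ∈ range N, ψ (m + 1) * ph u (m + 1) - mv ψ r * G1 u N‖ ≤
      4 * r * (1 + |u| * hr N) := by
  set μ := mv ψ r with hμ
  have hμ1 : ‖μ‖ ≤ 1 := norm_mv h1 r
  have hr1 : (1 : ℝ) ≤ r := by exact_mod_cast hr0
  have hX : 0 ≤ |u| * hr N := mul_nonneg (abs_nonneg _) (hr_nonneg N)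
  -- the oscillating part
  have hc : Function.Periodic (fun m => ψ (m + 1) - μ) r := by
    intro m
    simp only
    rw [show m + r + 1 = m + 1 + r by ring, hψ]
  have hc0 : ∑ m ∈ range r, (ψ (m + 1) - μ) = 0 := by
    rw [sum_sub_distrib, sum_const, card_range, nsmul_eq_mul]
    have e1 : ∑ m ∈ range r, ψ (m + 1) = ∑ m ∈ range r, ψ m := by
      have h2 := sum_range_succ' ψ r
      have h3 := sum_range_succ ψ r
      have h4 : ψ r = ψ 0 := by
        have := hψ 0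
        simpa using this
      rw [h3, h4] at h2
      exact (add_right_cancel h2).symm
    rw [e1, hμ, mv]
    have : (r : ℂ) ≠ 0 := by exact_mod_cast hr0.ne'
    field_simp
    ring
  have hcb : ∀ m, ‖ψ (m + 1) - μ‖ ≤ 2 := fun m => (norm_sub_le _ _).trans (by linarith [h1 (m + 1)])
  have hB := periodic_sum hr0 hc hc0 hcb
  have hab := abel (fun m => ψ (m + 1) - μ) (fun m => ph u (m + 1)) _ hB
    (fun m => (norm_ph u (Nat.succ_pos m)).le) N
  have hvar : ∑ m ∈ range (N - 1), ‖ph u (m + 1 + 1) - ph u (m + 1)‖ ≤ |u| * hr N := by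
    refine (sum_le_sum fun m _ => ph_step u m).trans ?_
    rw [← mul_sum]
    apply mul_le_mul_of_nonneg_left _ (abs_nonneg _)
    exact hr_mono (Nat.sub_le N 1)
  have h3 : ‖∑ m ∈ range N, (ψ (m + 1) - μ) * ph u (m + 1)‖ ≤ (r : ℝ) * 2 * (1 + |u| * hr N) := by
    refine hab.trans ?_
    apply mul_le_mul_of_nonneg_left _ (by positivity)
    linarith
  have h4 := sum_ph u N
  have e : ∑ m ∈ range N, ψ (m + 1) * ph u (m + 1) - μ * G1 u N =
      (∑ m ∈ range N, (ψ (m + 1) - μ) * ph u (m + 1)) +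
        μ * (∑ m ∈ range N, ph u (m + 1) - G1 u N) := by
    simp_rw [sub_mul]
    rw [sum_sub_distrib, ← mul_sum]
    ring
  rw [e]
  refine (norm_add_le _ _).trans ?_
  have h5 : ‖μ * (∑ m ∈ range N, ph u (m + 1) - G1 u N)‖ ≤ 1 * (1 + |u| * hr N) := by
    rw [norm_mul]
    exact mul_le_mul hμ1 h4 (norm_nonneg _) (by norm_num)
  have h6 : 0 ≤ 1 + |u| * hr N := by linarith
  nlinarith

/-- sums over the multiples of `D` -/
lemma sum_multiples {ψ : ℕ → ℂ} {r : ℕ} (hr0 : 0 < r) (hψ : Function.Periodic ψ r)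
    (h1 : ∀ n, ‖ψ n‖ ≤ 1) (u : ℝ) (N : ℕ) {D : ℕ} (hD : 0 < D) :
    ‖∑ m ∈ range N, (if D ∣ m + 1 then ψ (m + 1) * ph u (m + 1) else 0) -
      mv (fun a => ψ (D * a)) r / D * G1 u N‖ ≤ 5 * r * (1 + |u| * hr N) := by
  have hr1 : (1 : ℝ) ≤ r := by exact_mod_cast hr0
  have e1 : ∑ m ∈ range N, (if D ∣ m + 1 then ψ (m + 1) * ph u (m + 1) else 0) =
      ph u D * ∑ m ∈ range (N / D), ψ (D * (m + 1)) * ph u (m + 1) := by
    rw [mul_sum, ← sum_filter]
    symm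
    refine sum_bij (fun m _ => D * (m + 1) - 1) ?_ ?_ ?_ ?_
    · intro m hm
      rw [mem_range] at hm
      have h2 : 0 < D * (m + 1) := Nat.mul_pos hD (Nat.succ_pos m)
      have h3 : D * (m + 1) ≤ N := by
        calc D * (m + 1) ≤ D * (N / D) := Nat.mul_le_mul_left _ hm
          _ ≤ N := Nat.mul_div_le N D
      rw [mem_filter, mem_range]
      refine ⟨by omega, ?_⟩
      rw [Nat.sub_add_cancel h2]
      exact Dvd.intro _ rfl
    · intro a _ b _ hab
      have h2 : 0 < D * (a + 1) := Nat.mul_pos hD (Nat.succ_pos a)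
      have h3 : 0 < D * (b + 1) := Nat.mul_pos hD (Nat.succ_pos b)
      have h4 : D * (a + 1) = D * (b + 1) := by omega
      have := Nat.eq_of_mul_eq_mul_left hD h4
      omega
    · intro m hm
      rw [mem_filter, mem_range] at hm
      obtain ⟨k, hk⟩ := hm.2
      have hk0 : 0 < k := by
        rcases Nat.eq_zero_or_pos k with h | h
        · rw [h, mul_zero] at hk; omega
        · exact h
      refine ⟨k - 1, ?_, ?_⟩
      · rw [mem_range]
        have : k ≤ N / D := by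
          rw [Nat.le_div_iff_mul_le hD, mul_comm, ← hk]
          omega
        omega
      · have : k - 1 + 1 = k := by omega
        simp only [this, ← hk]
        omega
    · intro m _
      have h2 : 0 < D * (m + 1) := Nat.mul_pos hD (Nat.succ_pos m)
      rw [Nat.sub_add_cancel h2, ph_mul]
      ring
  set μ := mv (fun a => ψ (D * a)) r with hμ
  have hψ' : Function.Periodic (fun a => ψ (D * a)) r := by
    intro a
    simp only
    rw [mul_add]
    have := hψ.nat_mul D (D * a)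
    simpa using this
  have h2 := sum_periodic hr0 hψ' (fun n => h1 _) u (N / D)
  rw [← hμ] at h2
  have hμ1 : ‖μ‖ ≤ 1 := norm_mv (fun n => h1 _) r
  have hDr : (0 : ℝ) < D := by exact_mod_cast hD
  have e2 : G1 u N / D = ph u D * G1 u ((N : ℝ) / D) := by
    have hDc : (D : ℂ) ≠ 0 := by exact_mod_cast hD.ne'
    have e0 : (N : ℝ) = (D : ℝ) * ((N : ℝ) / D) := by field_simp
    unfold G1 ph
    conv_lhs => rw [e0]
    rw [ofReal_mul, mul_cpow_ofReal_nonneg hDr.le (by positivity), ofReal_natCast,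
      cpow_add _ _ hDc, cpow_one]
    field_simp
  have h3 : ‖G1 u ((N : ℝ) / D) - G1 u ((N / D : ℕ) : ℝ)‖ ≤ 1 := by
    refine (G1_lip' u (Nat.cast_nonneg _) Nat.cast_div_le).trans ?_
    have := Nat.lt_floor_add_one ((N : ℝ) / D)
    rw [Nat.floor_div_eq_div] at this
    linarith
  have hphD := norm_ph u hD
  rw [e1]
  have e3 : ph u D * ∑ m ∈ range (N / D), ψ (D * (m + 1)) * ph u (m + 1) - μ / D * G1 u N =
      ph u D * ((∑ m ∈ range (N / D), ψ (D * (m + 1)) * ph u (m + 1) - μ * G1 u ((N / D : ℕ) : ℝ))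
        - μ * (G1 u ((N : ℝ) / D) - G1 u ((N / D : ℕ) : ℝ))) := by
    have : μ / D * G1 u N = μ * (G1 u N / D) := by ring
    rw [this, e2]
    ring
  rw [e3, norm_mul, hphD, one_mul]
  refine (norm_sub_le _ _).trans ?_
  have h4 : ‖μ * (G1 u ((N : ℝ) / D) - G1 u ((N / D : ℕ) : ℝ))‖ ≤ 1 * 1 := by
    rw [norm_mul]
    exact mul_le_mul hμ1 h3 (norm_nonneg _) (by norm_num)
  have h5 : hr (N / D) ≤ hr N := hr_mono (Nat.div_le_self N D)
  have h6 : 4 * (r : ℝ) * (1 + |u| * hr (N / D)) ≤ 4 * r * (1 + |u| * hr N) := by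
    apply mul_le_mul_of_nonneg_left _ (by positivity)
    have := mul_le_mul_of_nonneg_left h5 (abs_nonneg u)
    linarith
  have h7 : (1 : ℝ) ≤ r * (1 + |u| * hr N) := by
    have hX : 0 ≤ |u| * hr N := mul_nonneg (abs_nonneg _) (hr_nonneg N)
    nlinarith
  linarith

end Pool.Agent.H439.LS
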