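import Pool.Agent.H439.LS.Weights
import Pool.Agent.H439.LS.Periodic

set_option autoImplicit false

namespace Pool.Agent.H439.LS

open Finset Complex

/-- the sifted sums -/
noncomputable def AA (ψ : ℕ → ℂ) (u : ℝ) (z N : ℕ) : ℂ :=
  ∑ m ∈ range N, (sw z (m + 1) : ℂ) * (ψ (m + 1) * ph u (m + 1))

/-- the mean value of the sifted function -/
noncomputable def kk (ψ : ℕ → ℂ) (r z : ℕ) : ℂ :=
  ∑ s ∈ (PZ z).powerset, ∑ t ∈ (PZ z).powerset,
    ((lz z s * lz z t : ℝ) : ℂ) * (mv (fun a => ψ (qq (s ∪ t) * a)) r / (qq (s ∪ t) : ℂ))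

lemma sieve_sum {ψ : ℕ → ℂ} {r : ℕ} (hr0 : 0 < r) (hψ : Function.Periodic ψ r)
    (h1 : ∀ n, ‖ψ n‖ ≤ 1) (u : ℝ) (z N : ℕ) :
    ‖AA ψ u z N - kk ψ r z * G1 u N‖ ≤ Lz z ^ 2 * (5 * r * (1 + |u| * hr N)) := by
  have e1 : AA ψ u z N = ∑ s ∈ (PZ z).powerset, ∑ t ∈ (PZ z).powerset,
      ((lz z s * lz z t : ℝ) : ℂ) *
        ∑ m ∈ range N, (if qq (s ∪ t) ∣ m + 1 then ψ (m + 1) * ph u (m + 1) else 0) := by
    unfold AA
    simp_rw [mul_sum]
    have : ∀ m ∈ range N, (sw z (m + 1) : ℂ) * (ψ (m + 1) * ph u (m + 1)) =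
        ∑ s ∈ (PZ z).powerset, ∑ t ∈ (PZ z).powerset, ((lz z s * lz z t : ℝ) : ℂ) *
          (if qq (s ∪ t) ∣ m + 1 then ψ (m + 1) * ph u (m + 1) else 0) := by
      intro m _
      rw [sw_expand]
      push_cast
      rw [sum_mul]
      apply sum_congr rfl
      intro s _
      rw [sum_mul]
      apply sum_congr rfl
      intro t _
      split_ifs
      · rw [ofReal_one, mul_one]
      · rw [ofReal_zero, mul_zero, zero_mul]
    rw [sum_congr rfl this, sum_comm]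
    apply sum_congr rfl
    intro s _
    rw [sum_comm]
  have e2 : AA ψ u z N - kk ψ r z * G1 u N = ∑ s ∈ (PZ z).powerset, ∑ t ∈ (PZ z).powerset,
      ((lz z s * lz z t : ℝ) : ℂ) *
        (∑ m ∈ range N, (if qq (s ∪ t) ∣ m + 1 then ψ (m + 1) * ph u (m + 1) else 0) -
          mv (fun a => ψ (qq (s ∪ t) * a)) r / (qq (s ∪ t) : ℂ) * G1 u N) := by
    rw [e1]
    unfold kk
    rw [sum_mul, ← sum_sub_distrib]
    apply sum_congr rfl
    intro s _
    rw [sum_mul, ← sum_sub_distrib]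
    apply sum_congr rfl
    intro t _
    ring
  rw [e2]
  have h2 : ∀ s ∈ (PZ z).powerset, ∀ t ∈ (PZ z).powerset,
      ‖((lz z s * lz z t : ℝ) : ℂ) *
        (∑ m ∈ range N, (if qq (s ∪ t) ∣ m + 1 then ψ (m + 1) * ph u (m + 1) else 0) -
          mv (fun a => ψ (qq (s ∪ t) * a)) r / (qq (s ∪ t) : ℂ) * G1 u N)‖ ≤
      |lz z s| * |lz z t| * (5 * r * (1 + |u| * hr N)) := by
    intro s hs t ht
    rw [mem_powerset] at hs ht
    rw [norm_mul, norm_real, Real.norm_eq_abs, abs_mul]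
    apply mul_le_mul_of_nonneg_left _ (by positivity)
    exact sum_multiples hr0 hψ h1 u N (qq_pos (union_subset hs ht))
  refine (norm_sum_le_of_le _ fun s hs => (norm_sum_le_of_le _ fun t ht => h2 s hs t ht)).trans ?_
  simp_rw [← sum_mul, ← mul_sum]
  rw [← sum_mul]
  apply le_of_eq
  unfold Lz
  ring

lemma norm_kk_le {ψ : ℕ → ℂ} {r : ℕ} (hr0 : 0 < r) (hψ : Function.Periodic ψ r)
    (h1 : ∀ n, ‖ψ n‖ ≤ 1) (z : ℕ) : ‖kk ψ r z‖ ≤ kz z := by
  -- compare with the constant function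
  have hone : Function.Periodic (fun _ : ℕ => (1 : ℂ)) 1 := fun _ => rfl
  have hk1 : kk (fun _ => 1) 1 z = (kz z : ℂ) := by
    unfold kk kz
    push_cast
    apply sum_congr rfl
    intro s _
    apply sum_congr rfl
    intro t _
    unfold mv
    simp
  have hG : ∀ N : ℕ, G1 0 N = N := by
    intro N
    unfold G1
    simp
  set C := Lz z ^ 2 * (5 * r * 1) + Lz z ^ 2 * (5 * 1 * 1) with hC
  have key : ∀ N : ℕ, ‖kk ψ r z‖ * N ≤ kz z * N + C := by
    intro N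
    have a1 := sieve_sum hr0 hψ h1 0 z N
    have a2 := sieve_sum (r := 1) one_pos hone (fun _ => by simp) 0 z N
    rw [hG, abs_zero, zero_mul, add_zero] at a1 a2
    rw [hk1] at a2
    have a3 : ‖AA ψ 0 z N‖ ≤ ∑ m ∈ range N, sw z (m + 1) := by
      unfold AA
      refine norm_sum_le_of_le _ fun m _ => ?_
      rw [norm_mul, norm_real, Real.norm_of_nonneg (sw_nonneg _ _), norm_mul,
        norm_ph 0 (Nat.succ_pos m), mul_one]
      exact mul_le_of_le_one_right (sw_nonneg _ _) (h1 _)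
    have a4 : AA (fun _ => 1) 0 z N = ((∑ m ∈ range N, sw z (m + 1) : ℝ) : ℂ) := by
      unfold AA
      push_cast
      apply sum_congr rfl
      intro m _
      rw [ph_zero]
      ring
    rw [a4] at a2
    have a5 : ∑ m ∈ range N, sw z (m + 1) ≤ kz z * N + Lz z ^ 2 * (5 * 1 * 1) := by
      have b1 : ((∑ m ∈ range N, sw z (m + 1) : ℝ) : ℂ) - (kz z : ℂ) * N =
          (((∑ m ∈ range N, sw z (m + 1)) - kz z * N : ℝ) : ℂ) := by push_cast; ring
      rw [b1, norm_real, Real.norm_eq_abs] at a2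
      have b2 := le_abs_self ((∑ m ∈ range N, sw z (m + 1)) - kz z * N)
      push_cast at a2
      linarith
    have a6 : ‖kk ψ r z * N‖ ≤ ‖AA ψ 0 z N‖ + Lz z ^ 2 * (5 * r * 1) := by
      have : kk ψ r z * N = AA ψ 0 z N - (AA ψ 0 z N - kk ψ r z * N) := by ring
      rw [this]
      exact (norm_sub_le _ _).trans (by linarith)
    rw [norm_mul, norm_natCast] at a6
    linarith
  by_contra hlt
  rw [not_le] at hlt
  obtain ⟨N, hN⟩ := exists_nat_gt (C / (‖kk ψ r z‖ - kz z))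
  have h2 : 0 < ‖kk ψ r z‖ - kz z := by linarith
  rw [div_lt_iff₀ h2] at hN
  have := key N
  nlinarith

/-- the summed function -/
noncomputable def BB (ψ : ℕ → ℂ) (u : ℝ) (z c : ℕ) : ℂ := ∑ k ∈ range c, AA ψ u z k

lemma sum_G1 (u : ℝ) (c : ℕ) : ‖∑ k ∈ range c, G1 u k - G2 u c‖ ≤ c := by
  have hG2 : G2 u 0 = 0 := by
    unfold G2
    rw [ofReal_zero, zero_cpow (two_add_ne u), zero_div]
  have h1 : ∀ n : ℕ, ‖∑ k ∈ range (n + 1), G1 u k - G2 u ((n + 1 : ℕ) : ℝ)‖ ≤ ((n + 1 : ℕ) : ℝ) := by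
    intro n
    induction n with
    | zero =>
      simp only [zero_add, range_one, sum_singleton, Nat.cast_zero, Nat.cast_one, G1_zero, zero_sub,
        norm_neg]
      unfold G2
      rw [ofReal_one, one_cpow, norm_div, norm_one, norm_mul, div_le_one (by
        have := norm_one_add u; have := norm_two_add u; positivity)]
      have h1 := norm_one_add u
      have h2 := norm_two_add u
      nlinarith
    | succ n ih =>
      rw [sum_range_succ]
      have h2 := G2_step u (a := ((n + 1 : ℕ) : ℝ)) (by positivity)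
      have e : ∑ k ∈ range (n + 1), G1 u k + G1 u ((n + 1 : ℕ) : ℝ) - G2 u ((n + 1 + 1 : ℕ) : ℝ) =
          (∑ k ∈ range (n + 1), G1 u k - G2 u ((n + 1 : ℕ) : ℝ)) -
          (G2 u (((n + 1 : ℕ) : ℝ) + 1) - G2 u ((n + 1 : ℕ) : ℝ) - G1 u ((n + 1 : ℕ) : ℝ)) := by
        have : ((n + 1 + 1 : ℕ) : ℝ) = ((n + 1 : ℕ) : ℝ) + 1 := by push_cast; ring
        rw [this]
        ring
      rw [e]
      refine (norm_sub_le _ _).trans ?_
      push_cast at ih h2 ⊢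
      linarith
  rcases Nat.eq_zero_or_pos c with h | h
  · subst h
    simp [hG2]
  · obtain ⟨n, rfl⟩ := Nat.exists_eq_succ_of_ne_zero h.ne'
    exact h1 n

lemma norm_G2 (u : ℝ) (c : ℕ) : ‖G2 u c‖ ≤ (c : ℝ) ^ 2 / (1 + u ^ 2) := by
  rcases Nat.eq_zero_or_pos c with h | h
  · subst h
    unfold G2
    rw [Nat.cast_zero, ofReal_zero, zero_cpow (two_add_ne u), zero_div, norm_zero]
    simp
  · have hc : (0 : ℝ) < c := by exact_mod_cast h
    unfold G2
    rw [norm_div, norm_cpow_eq_rpow_re_of_pos hc]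
    simp only [add_re, re_ofNat, mul_re, ofReal_re, I_re, mul_zero, ofReal_im, I_im, mul_one,
      sub_self, add_zero, Real.rpow_ofNat]
    apply div_le_div_of_nonneg_left (by positivity) (by positivity)
    rw [norm_mul]
    have h1 : ‖(1 + (u : ℂ) * I)‖ ^ 2 = 1 + u ^ 2 := by
      rw [← Complex.normSq_eq_norm_sq, Complex.normSq_apply]
      simp; ring
    have h2 : ‖(2 + (u : ℂ) * I)‖ ^ 2 = 4 + u ^ 2 := by
      rw [← Complex.normSq_eq_norm_sq, Complex.normSq_apply]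
      simp; ring
    have h3 : ‖(1 + (u : ℂ) * I)‖ ≤ ‖(2 + (u : ℂ) * I)‖ := by
      apply le_of_sq_le_sq _ (norm_nonneg _)
      rw [h1, h2]; linarith
    nlinarith [norm_nonneg (1 + (u : ℂ) * I)]

/-- the error term -/
noncomputable def er (u : ℝ) (r z N : ℕ) : ℝ := Lz z ^ 2 * (6 * r * (1 + |u| * hr N))

lemma BB_bound {ψ : ℕ → ℂ} {r : ℕ} (hr0 : 0 < r) (hψ : Function.Periodic ψ r)
    (h1 : ∀ n, ‖ψ n‖ ≤ 1) (u : ℝ) (z : ℕ) {c N : ℕ} (hc : c ≤ N) :
    ‖BB ψ u z c - kk ψ r z * G2 u c‖ ≤ c * er u r z N := by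
  have hr1 : (1 : ℝ) ≤ r := by exact_mod_cast hr0
  have hk : ‖kk ψ r z‖ ≤ Lz z ^ 2 := by
    unfold kk Lz
    rw [sq, sum_mul_sum]
    refine norm_sum_le_of_le _ fun s hs => norm_sum_le_of_le _ fun t ht => ?_
    rw [norm_mul, norm_real, Real.norm_eq_abs, abs_mul, norm_div, norm_natCast]
    have h2 : ‖mv (fun a => ψ (qq (s ∪ t) * a)) r‖ ≤ 1 := norm_mv (fun n => h1 _) r
    have h3 : 0 < qq (s ∪ t) := qq_pos (union_subset (mem_powerset.1 hs) (mem_powerset.1 ht))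
    have h4 : (1 : ℝ) ≤ qq (s ∪ t) := by exact_mod_cast h3
    have h5 : ‖mv (fun a => ψ (qq (s ∪ t) * a)) r‖ / (qq (s ∪ t) : ℝ) ≤ 1 := by
      rw [div_le_one (by linarith)]
      linarith
    exact mul_le_of_le_one_right (by positivity) h5
  have e : BB ψ u z c - kk ψ r z * G2 u c =
      ∑ k ∈ range c, (AA ψ u z k - kk ψ r z * G1 u k) +
        kk ψ r z * (∑ k ∈ range c, G1 u k - G2 u c) := by
    unfold BB
    rw [sum_sub_distrib, ← mul_sum]
    ring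
  rw [e]
  refine (norm_add_le _ _).trans ?_
  have a1 : ‖∑ k ∈ range c, (AA ψ u z k - kk ψ r z * G1 u k)‖ ≤
      c * (Lz z ^ 2 * (5 * r * (1 + |u| * hr N))) := by
    refine (norm_sum_le_of_le (n := fun _ => Lz z ^ 2 * (5 * r * (1 + |u| * hr N))) _
      fun k hk => ?_).trans ?_
    · refine (sieve_sum hr0 hψ h1 u z k).trans ?_
      have h5 : hr k ≤ hr N := hr_mono (by have := mem_range.1 hk; omega)
      apply mul_le_mul_of_nonneg_left _ (by positivity)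
      apply mul_le_mul_of_nonneg_left _ (by positivity)
      have := mul_le_mul_of_nonneg_left h5 (abs_nonneg u)
      linarith
    · rw [sum_const, card_range, nsmul_eq_mul]
  have a2 : ‖kk ψ r z * (∑ k ∈ range c, G1 u k - G2 u c)‖ ≤ Lz z ^ 2 * c := by
    rw [norm_mul]
    exact mul_le_mul hk (sum_G1 u c) (norm_nonneg _) (by positivity)
  have hX : 0 ≤ |u| * hr N := mul_nonneg (abs_nonneg _) (hr_nonneg N)
  have a3 : (1 : ℝ) ≤ r * (1 + |u| * hr N) := by nlinarith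
  have a4 : Lz z ^ 2 * c ≤ c * (Lz z ^ 2 * (r * (1 + |u| * hr N))) := by
    have : Lz z ^ 2 * c * 1 ≤ Lz z ^ 2 * c * (r * (1 + |u| * hr N)) :=
      mul_le_mul_of_nonneg_left a3 (by positivity)
    calc Lz z ^ 2 * c = Lz z ^ 2 * c * 1 := by ring
      _ ≤ _ := this
      _ = _ := by ring
  unfold er
  calc _ ≤ c * (Lz z ^ 2 * (5 * r * (1 + |u| * hr N))) + c * (Lz z ^ 2 * (r * (1 + |u| * hr N))) := by
        linarith
    _ = _ := by ring

/-- the trapezoidal weight -/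
noncomputable def W (y n : ℕ) : ℝ :=
  (((6 * y - n : ℕ) : ℝ) - ((4 * y - n : ℕ) : ℝ) - 2 * ((2 * y - n : ℕ) : ℝ) +
    2 * ((y - n : ℕ) : ℝ)) / (2 * y)

lemma W_nonneg (y n : ℕ) : 0 ≤ W y n := by
  unfold W
  apply div_nonneg _ (by positivity)
  have h : 4 * y - n + 2 * (2 * y - n) ≤ 6 * y - n + 2 * (y - n) := by omega
  have h2 : ((4 * y - n : ℕ) : ℝ) + 2 * ((2 * y - n : ℕ) : ℝ) ≤
      ((6 * y - n : ℕ) : ℝ) + 2 * ((y - n : ℕ) : ℝ) := by exact_mod_cast h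
  linarith

lemma W_eq_one {y n : ℕ} (hy : 0 < y) (h1 : 2 * y ≤ n) (h2 : n ≤ 4 * y) : W y n = 1 := by
  unfold W
  have e1 : 2 * y - n = 0 := by omega
  have e2 : y - n = 0 := by omega
  have e3 : 6 * y - n = 4 * y - n + 2 * y := by omega
  rw [e1, e2, e3]
  have : (y : ℝ) ≠ 0 := by exact_mod_cast hy.ne'
  push_cast
  field_simp
  ring

lemma sum_V (ψ : ℕ → ℂ) (u : ℝ) (z c N : ℕ) (hc : c ≤ N) :
    ∑ m ∈ range N, ((c - (m + 1) : ℕ) : ℂ) * ((sw z (m + 1) : ℂ) * (ψ (m + 1) * ph u (m + 1))) =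
      BB ψ u z c := by
  unfold BB AA
  have h1 : ∀ k ∈ range c, ∑ m ∈ range k, (sw z (m + 1) : ℂ) * (ψ (m + 1) * ph u (m + 1)) =
      ∑ m ∈ range N, if m < k then (sw z (m + 1) : ℂ) * (ψ (m + 1) * ph u (m + 1)) else 0 := by
    intro k hk
    rw [← sum_filter]
    apply sum_congr _ (fun _ _ => rfl)
    ext m
    simp only [mem_range, mem_filter] at hk ⊢
    omega
  rw [sum_congr rfl h1, sum_comm]
  apply sum_congr rfl
  intro m _
  rw [← sum_filter, sum_const, nsmul_eq_mul]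
  congr 2
  have : filter (fun k => m < k) (range c) = Ioo m c := by
    ext k
    simp only [mem_range, mem_filter, mem_Ioo]
    omega
  rw [this, Nat.card_Ioo]
  omega

/-- **The Gram entries.** -/
theorem gram {ψ : ℕ → ℂ} {r : ℕ} (hr0 : 0 < r) (hψ : Function.Periodic ψ r)
    (h1 : ∀ n, ‖ψ n‖ ≤ 1) (u : ℝ) (z : ℕ) {y : ℕ} (hy : 0 < y) :
    ‖∑ m ∈ range (6 * y), ((W y (m + 1) * sw z (m + 1) : ℝ) : ℂ) * (ψ (m + 1) * ph u (m + 1))‖ ≤
      31 * ‖kk ψ r z‖ * y / (1 + u ^ 2) + 8 * er u r z (6 * y) := by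
  have e1 : ∑ m ∈ range (6 * y), ((W y (m + 1) * sw z (m + 1) : ℝ) : ℂ) *
      (ψ (m + 1) * ph u (m + 1)) =
      (BB ψ u z (6 * y) - BB ψ u z (4 * y) - 2 * BB ψ u z (2 * y) + 2 * BB ψ u z y) / (2 * y) := by
    rw [← sum_V ψ u z (6 * y) (6 * y) le_rfl, ← sum_V ψ u z (4 * y) (6 * y) (by omega),
      ← sum_V ψ u z (2 * y) (6 * y) (by omega), ← sum_V ψ u z y (6 * y) (by omega), mul_sum,
      mul_sum, ← sum_sub_distrib, ← sum_sub_distrib, ← sum_add_distrib, sum_div]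
    apply sum_congr rfl
    intro m _
    unfold W
    push_cast
    ring
  have hy0 : (0 : ℝ) < y := by exact_mod_cast hy
  have b6 := BB_bound hr0 hψ h1 u z (c := 6 * y) (N := 6 * y) le_rfl
  have b4 := BB_bound hr0 hψ h1 u z (c := 4 * y) (N := 6 * y) (by omega)
  have b2 := BB_bound hr0 hψ h1 u z (c := 2 * y) (N := 6 * y) (by omega)
  have b1 := BB_bound hr0 hψ h1 u z (c := y) (N := 6 * y) (by omega)
  set E := er u r z (6 * y) with hE
  set κ := kk ψ r z with hκ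
  have hu : (0 : ℝ) < 1 + u ^ 2 := by positivity
  have nb : ∀ c : ℕ, ‖BB ψ u z c - κ * G2 u c‖ ≤ c * E →
      ‖BB ψ u z c‖ ≤ ‖κ‖ * ((c : ℝ) ^ 2 / (1 + u ^ 2)) + c * E := by
    intro c h
    have e : BB ψ u z c = κ * G2 u c + (BB ψ u z c - κ * G2 u c) := by ring
    rw [e]
    refine (norm_add_le _ _).trans ?_
    rw [norm_mul]
    have := mul_le_mul_of_nonneg_left (norm_G2 u c) (norm_nonneg κ)
    linarith
  have c6 := nb _ b6
  have c4 := nb _ b4
  have c2 := nb _ b2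
  have c1 := nb _ b1
  rw [e1, norm_div]
  have hden : ‖(2 * (y : ℂ))‖ = 2 * y := by
    rw [norm_mul, norm_natCast]; norm_num
  rw [hden, div_le_iff₀ (by positivity)]
  have h2 : ‖BB ψ u z (6 * y) - BB ψ u z (4 * y) - 2 * BB ψ u z (2 * y) + 2 * BB ψ u z y‖ ≤
      ‖BB ψ u z (6 * y)‖ + ‖BB ψ u z (4 * y)‖ + 2 * ‖BB ψ u z (2 * y)‖ + 2 * ‖BB ψ u z y‖ := by
    have a1 := norm_add_le (BB ψ u z (6 * y) - BB ψ u z (4 * y) - 2 * BB ψ u z (2 * y)) (2 * BB ψ u z y)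
    have a2 := norm_sub_le (BB ψ u z (6 * y) - BB ψ u z (4 * y)) (2 * BB ψ u z (2 * y))
    have a3 := norm_sub_le (BB ψ u z (6 * y)) (BB ψ u z (4 * y))
    rw [norm_mul, Complex.norm_ofNat] at a1 a2
    linarith
  refine h2.trans ?_
  push_cast at c6 c4 c2 c1
  have e3 : (31 * ‖κ‖ * y / (1 + u ^ 2) + 8 * E) * (2 * y) =
      ‖κ‖ * ((6 * (y : ℝ)) ^ 2 / (1 + u ^ 2)) + 6 * y * E +
      (‖κ‖ * ((4 * (y : ℝ)) ^ 2 / (1 + u ^ 2)) + 4 * y * E) +
      2 * (‖κ‖ * ((2 * (y : ℝ)) ^ 2 / (1 + u ^ 2)) + 2 * y * E) +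
      2 * (‖κ‖ * ((y : ℝ) ^ 2 / (1 + u ^ 2)) + y * E) := by
    field_simp
    ring
  rw [e3]
  linarith

end Pool.Agent.H439.LS
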