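import Pool.Agent.H439.LS.Count

set_option autoImplicit false

namespace Pool.Agent.H439.LS

open Finset Complex ComplexConjugate Filter Topology NumberField IsDedekindDomain Polynomial

/-- the constant of the large sieve inequality for the prime Dirichlet series -/
noncomputable def CE : ℝ := 32 * CB + 1682

lemma CE_pos : 0 < CE := by
  unfold CE
  have := CB_pos
  linarith

lemma loglog_ge {R : ℝ} (hR : 16 ≤ R) : 1 ≤ Real.log (Real.log R) ∧ 2 ≤ Real.log R := by
  have h1 : Real.log 16 ≤ Real.log R := Real.log_le_log (by norm_num) hR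
  have h2 : Real.log 16 = 4 * Real.log 2 := by
    rw [show (16 : ℝ) = 2 ^ 4 by norm_num, Real.log_pow]; norm_num
  have h3 := Real.log_two_gt_d9
  have h4 := Real.exp_one_lt_d9
  constructor
  · rw [Real.le_log_iff_exp_le (by linarith)]
    linarith
  · linarith

/-- **The large sieve inequality for the prime Dirichlet series.** -/
theorem l2_PS {J : ℕ} {q : Fin J → ℕ} {χ : ∀ j, DirichletCharacter ℂ (q j)} {t : Fin J → ℝ}
    (hsp : Spaced q χ t) {R : ℝ} (hR : 16 ≤ R) (hq : ∀ j, (q j : ℝ) ≤ R)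
    (ht : ∀ j, |t j| ≤ R) {a : ℕ → ℂ} {M : ℝ} (hM : 0 ≤ M) (ha : ∀ p : ℕ, p.Prime → ‖a p‖ ≤ M)
    {ε : ℝ} (h0 : 0 < ε) (h1 : ε ≤ 1 / 2) :
    ∑ j, ‖PS a (χ j) (1 + (ε : ℂ) + (t j : ℂ) * I)‖ ^ 2 ≤
      CE * M ^ 2 * (Real.log (1 / ε) ^ 2 + J * Real.log (Real.log R) ^ 2) := by
  have hCB := CB_pos
  rcases hM.eq_or_lt with hM0 | hM0
  · have : ∀ j, PS a (χ j) (1 + (ε : ℂ) + (t j : ℂ) * I) = 0 := by
      intro j
      unfold PS
      have : ∀ p : Nat.Primes, a p * (χ j (p : ℕ) * ((p : ℕ) : ℂ) ^ (-(1 + (ε : ℂ) + (t j : ℂ) * I))) = 0 := by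
        intro p
        have h2 := ha p p.2
        rw [← hM0] at h2
        rw [norm_le_zero_iff.1 h2, zero_mul]
      rw [tsum_congr this, tsum_zero]
    simp [this, ← hM0]
  have hJR := card_le hsp hR hq ht
  obtain ⟨hll, hl⟩ := loglog_ge hR
  set LL := Real.log (Real.log R) with hLL
  have hR0 : 0 < R := by linarith
  -- the starting point
  set V : ℝ := 2 ^ 96 * 50000 ^ 4 * R ^ 16 with hV
  have hRp : (1 : ℝ) ≤ R ^ 16 := one_le_pow₀ (by linarith)
  obtain ⟨n, hn1, hn2⟩ := exists_pow V (by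
    rw [hV]
    have : (1 : ℝ) ≤ 2 ^ 96 * 50000 ^ 4 := by norm_num
    nlinarith)
  have hnY : y0 J ≤ ((2 ^ n : ℕ) : ℝ) := by
    push_cast
    refine le_trans ?_ hn1
    unfold y0
    apply max_le
    · rw [hV]
      have : (1 : ℝ) ≤ 50000 ^ 4 * R ^ 16 := by nlinarith
      calc (2 : ℝ) ^ 96 = 2 ^ 96 * 1 := by ring
        _ ≤ 2 ^ 96 * (50000 ^ 4 * R ^ 16) := mul_le_mul_of_nonneg_left this (by norm_num)
        _ = _ := by ring
    · rw [hV, mul_pow]
      have h3 : (J : ℝ) ^ 4 ≤ R ^ 16 := by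
        calc (J : ℝ) ^ 4 ≤ (R ^ 4) ^ 4 := pow_le_pow_left₀ (Nat.cast_nonneg J) hJR 4
          _ = R ^ 16 := by ring
      calc (50000 : ℝ) ^ 4 * J ^ 4 ≤ 50000 ^ 4 * R ^ 16 := by gcongr
        _ ≤ 2 ^ 96 * (50000 ^ 4 * R ^ 16) := le_mul_of_one_le_left (by positivity) (by norm_num)
        _ = _ := by ring
  have hnQ : R ^ 8 ≤ ((2 ^ n : ℕ) : ℝ) := by
    push_cast
    refine le_trans ?_ hn1
    rw [hV]
    have h8 : R ^ 8 ≤ R ^ 16 := pow_le_pow_right₀ (by linarith) (by norm_num)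
    exact h8.trans (le_mul_of_one_le_left (by positivity) (by norm_num))
  have hnpos : 1 ≤ n := by
    by_contra hcon
    have : n = 0 := by omega
    rw [this] at hnY
    have h96 := (y0_le hnY)
    norm_num at h96
  have hlogV : Real.log V ≤ 111 + 16 * Real.log R := by
    rw [hV, Real.log_mul (by positivity) (by positivity), Real.log_mul (by positivity) (by positivity),
      Real.log_pow, Real.log_pow, Real.log_pow]
    have e1 := Real.log_two_lt_d9
    have e2 : Real.log 50000 ≤ 16 * Real.log 2 := by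
      rw [← Real.log_rpow (by norm_num)]
      apply Real.log_le_log (by norm_num)
      norm_num
    push_cast
    linarith
  have hnlog : (n : ℝ) ≤ 144 * Real.log R := by
    have : (n : ℝ) ≤ 223 + 32 * Real.log R := by linarith
    linarith
  have hlogn : Real.log n ≤ 6 * LL := by
    have h3 : (n : ℝ) ≤ Real.exp 5 * Real.log R := by
      have h4 : (144 : ℝ) ≤ Real.exp 5 := by
        have h5 : Real.exp 5 = Real.exp 1 ^ 5 := by rw [← Real.exp_nat_mul]; norm_num
        rw [h5]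
        have h6 := Real.exp_one_gt_d9
        have h7 : (2.71 : ℝ) ^ 5 ≤ Real.exp 1 ^ 5 := pow_le_pow_left₀ (by norm_num) (by linarith) 5
        norm_num at h7
        linarith
      nlinarith
    have h4 : Real.log n ≤ Real.log (Real.exp 5 * Real.log R) :=
      Real.log_le_log (by exact_mod_cast hnpos) h3
    rw [Real.log_mul (Real.exp_ne_zero _) (by linarith), Real.log_exp] at h4
    linarith
  -- the coefficients
  set c : ℕ → ℂ := fun p => a p * (((p : ℝ) ^ (-(1 + ε)) : ℝ) : ℂ) with hc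
  have hcn : ∀ p : ℕ, p.Prime → ‖c p‖ ≤ M * (p : ℝ) ^ (-(1 + ε)) := by
    intro p hp
    simp only [hc]
    rw [norm_mul, norm_real, Real.norm_of_nonneg (Real.rpow_nonneg (Nat.cast_nonneg p) _)]
    exact mul_le_mul_of_nonneg_right (ha p hp) (Real.rpow_nonneg (Nat.cast_nonneg p) _)
  have hcs : Summable fun p : Nat.Primes => ‖c p‖ := by
    refine Summable.of_nonneg_of_le (fun _ => norm_nonneg _) (fun p => hcn p p.2) ?_
    exact (Nat.Primes.summable_rpow.2 (by linarith)).mul_left M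
  have hB2 := fun K => log_block hsp.neg hq (fun j => by rw [abs_neg]; exact ht j) hnpos hnY hnQ hM0
    ha h0 (by linarith : ε ≤ 1) K
  have htail := tail_l2 χ (fun j => -t j) c hcs (Y := 2 ^ n) (by positivity) hB2
  have hPS : ∀ j, PS a (χ j) (1 + (ε : ℂ) + (t j : ℂ) * I) =
      ∑' p : Nat.Primes, c p * (χ j (p : ℕ) * ph (-t j) p) := by
    intro j
    unfold PS
    apply tsum_congr
    intro p
    rw [cpow_split p.2.pos]
    simp only [hc]
    ring
  have hsmall : ∀ j, ‖small (fun p => c p * (χ j p * ph (-t j) p)) (2 ^ n)‖ ≤ 29 * M * LL := by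
    intro j
    unfold small
    have h5 : ∀ p ∈ (range (2 * 2 ^ n + 1)).filter Nat.Prime,
        ‖c p * (χ j p * ph (-t j) p)‖ ≤ M * (1 / (p : ℝ)) := by
      intro p hp
      have hpp := (mem_filter.1 hp).2
      rw [norm_mul (c p), norm_mul (χ j (p : ZMod (q j))), norm_ph _ hpp.pos, mul_one]
      refine (mul_le_of_le_one_right (norm_nonneg _) ((χ j).norm_le_one _)).trans ?_
      refine (hcn p hpp).trans ?_
      apply mul_le_mul_of_nonneg_left _ hM
      rw [one_div, ← Real.rpow_neg_one]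
      have : (1 : ℝ) ≤ p := by exact_mod_cast hpp.pos
      exact Real.rpow_le_rpow_of_exponent_le this (by linarith)
    refine (norm_sum_le_of_le _ h5).trans ?_
    rw [← mul_sum]
    have h6 := sum_inv_small' n
    have h7 : M * ∑ p ∈ (range (2 * 2 ^ n + 1)).filter Nat.Prime, 1 / (p : ℝ) ≤
        M * (5 * LL + 4 * (6 * LL)) := by
      apply mul_le_mul_of_nonneg_left _ hM
      linarith
    refine h7.trans (le_of_eq ?_)
    ring
  have hlog2 : Real.log (2 / ε) ≤ 2 * Real.log (1 / ε) := by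
    have : Real.log (2 / ε) = Real.log 2 + Real.log (1 / ε) := by
      rw [← Real.log_mul (by norm_num) (by positivity)]; congr 1; ring
    rw [this]
    have h3 : Real.log 2 ≤ Real.log (1 / ε) := by
      apply Real.log_le_log (by norm_num)
      rw [le_div_iff₀ h0]; linarith
    linarith
  have hlog20 : 0 ≤ Real.log (2 / ε) := by
    apply Real.log_nonneg
    rw [le_div_iff₀ h0]; linarith
  set L := Real.log (1 / ε) with hL
  have hfin : (M * Real.sqrt CB * (2 * Real.log (2 / ε))) ^ 2 ≤ 16 * CB * M ^ 2 * L ^ 2 := by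
    calc (M * Real.sqrt CB * (2 * Real.log (2 / ε))) ^ 2 ≤
          (M * Real.sqrt CB * (2 * (2 * L))) ^ 2 := by gcongr
      _ = 16 * (Real.sqrt CB) ^ 2 * M ^ 2 * L ^ 2 := by ring
      _ = _ := by rw [Real.sq_sqrt hCB.le]
  have hsq : ∀ j, ‖PS a (χ j) (1 + (ε : ℂ) + (t j : ℂ) * I)‖ ^ 2 ≤
      2 * ‖∑' p : Nat.Primes, c p * (χ j (p : ℕ) * ph (-t j) p) -
      small (fun p => c p * (χ j p * ph (-t j) p)) (2 ^ n)‖ ^ 2 + 2 * (29 * M * LL) ^ 2 := by
    intro j
    rw [hPS j]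
    set T := ∑' p : Nat.Primes, c p * (χ j (p : ℕ) * ph (-t j) p) with hT
    set S := small (fun p => c p * (χ j p * ph (-t j) p)) (2 ^ n) with hS
    have h5 : ‖T‖ ≤ ‖T - S‖ + ‖S‖ := by
      have := norm_add_le (T - S) S
      rwa [sub_add_cancel] at this
    have h6 := hsmall j
    have h7 : ‖T‖ ^ 2 ≤ (‖T - S‖ + 29 * M * LL) ^ 2 :=
      pow_le_pow_left₀ (norm_nonneg _) (by linarith) 2
    nlinarith [sq_nonneg (‖T - S‖ - 29 * M * LL)]
  calc ∑ j, ‖PS a (χ j) (1 + (ε : ℂ) + (t j : ℂ) * I)‖ ^ 2 ≤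
        ∑ j, (2 * ‖∑' p : Nat.Primes, c p * (χ j (p : ℕ) * ph (-t j) p) -
      small (fun p => c p * (χ j p * ph (-t j) p)) (2 ^ n)‖ ^ 2 + 2 * (29 * M * LL) ^ 2) :=
        sum_le_sum fun j _ => hsq j
    _ = 2 * ∑ j, ‖∑' p : Nat.Primes, c p * (χ j (p : ℕ) * ph (-t j) p) -
      small (fun p => c p * (χ j p * ph (-t j) p)) (2 ^ n)‖ ^ 2 + J * (2 * (29 * M * LL) ^ 2) := by
        rw [sum_add_distrib, ← mul_sum, sum_const, card_univ, Fintype.card_fin, nsmul_eq_mul]
    _ ≤ 2 * (16 * CB * M ^ 2 * L ^ 2) + J * (2 * (29 * M * LL) ^ 2) := by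
        have := htail.trans hfin
        linarith
    _ = 32 * CB * M ^ 2 * L ^ 2 + 1682 * M ^ 2 * (J * LL ^ 2) := by ring
    _ ≤ CE * M ^ 2 * (L ^ 2 + J * LL ^ 2) := by
        unfold CE
        have a1 : 0 ≤ M ^ 2 * L ^ 2 := by positivity
        have a2 : 0 ≤ M ^ 2 * (J * LL ^ 2) := by positivity
        nlinarith

end Pool.Agent.H439.LS
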