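import Pool.Agent.H439.LS.Tail

set_option autoImplicit false

namespace Pool.Agent.H439.LS

open Finset Complex ComplexConjugate Filter Topology

/-- the prime Dirichlet series -/
noncomputable def PS (a : ℕ → ℂ) {q : ℕ} (χ : DirichletCharacter ℂ q) (s : ℂ) : ℂ :=
  ∑' p : Nat.Primes, a p * (χ (p : ℕ) * ((p : ℕ) : ℂ) ^ (-s))

lemma cpow_split {p : ℕ} (hp : 0 < p) (ε τ : ℝ) :
    (p : ℂ) ^ (-(1 + (ε : ℂ) + (τ : ℂ) * I)) = (((p : ℝ) ^ (-(1 + ε)) : ℝ) : ℂ) * ph (-τ) p := by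
  have hp' : (p : ℂ) ≠ 0 := by exact_mod_cast hp.ne'
  unfold ph
  rw [show -(1 + (ε : ℂ) + (τ : ℂ) * I) = ((-(1 + ε) : ℝ) : ℂ) + ((-τ : ℝ) : ℂ) * I by
    push_cast; ring, cpow_add _ _ hp', ofReal_cpow (Nat.cast_nonneg p), ofReal_natCast]

lemma Spaced.neg {J : ℕ} {q : Fin J → ℕ} {χ : ∀ j, DirichletCharacter ℂ (q j)} {t : Fin J → ℝ}
    (h : Spaced q χ t) : Spaced q χ (fun j => -t j) :=
  ⟨h.pos, fun j k hjk hA => by
    have := h.sep j k hjk hA
    have e : -t j - -t k = -(t j - t k) := by ring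
    rw [e, abs_neg]
    exact this⟩

lemma Spaced.comp {J J' : ℕ} {q : Fin J → ℕ} {χ : ∀ j, DirichletCharacter ℂ (q j)} {t : Fin J → ℝ}
    (h : Spaced q χ t) {f : Fin J' → Fin J} (hf : Function.Injective f) :
    Spaced (fun j => q (f j)) (fun j => χ (f j)) (fun j => t (f j)) :=
  ⟨fun j => h.pos _, fun j k hjk hA => h.sep _ _ (fun e => hjk (hf e)) hA⟩

/-- a power of two above a given bound -/
lemma exists_pow (V : ℝ) (hV : 1 ≤ V) : ∃ n : ℕ, V ≤ (2 : ℝ) ^ n ∧ (n : ℝ) ≤ 1 + 2 * Real.log V := by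
  have hl2 : 0 < Real.log 2 := Real.log_pos (by norm_num)
  refine ⟨⌈Real.log V / Real.log 2⌉₊, ?_, ?_⟩
  · have h1 : Real.log V / Real.log 2 ≤ ⌈Real.log V / Real.log 2⌉₊ := Nat.le_ceil _
    rw [div_le_iff₀ hl2] at h1
    rw [← Real.log_le_log_iff (by linarith) (by positivity), Real.log_pow]
    exact h1
  · have h0 : 0 ≤ Real.log V := Real.log_nonneg hV
    have h1 := Nat.ceil_lt_add_one (a := Real.log V / Real.log 2) (by positivity)
    have h2 : Real.log V / Real.log 2 ≤ 2 * Real.log V := by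
      rw [div_le_iff₀ hl2]
      have := Real.log_two_gt_d9
      nlinarith
    linarith

/-- the scale of the conductors -/
noncomputable def scale (ε η : ℝ) : ℝ := Real.exp (ε ^ (-η))

/-- **One dyadic block in the logarithmic version.** -/
lemma log_block {J : ℕ} {q : Fin J → ℕ} {χ : ∀ j, DirichletCharacter ℂ (q j)}
    {t : Fin J → ℝ} (h : Spaced q χ t) {Q : ℝ} (hq : ∀ j, (q j : ℝ) ≤ Q) (ht : ∀ j, |t j| ≤ Q)
    {n : ℕ} (hn : 1 ≤ n) (hY : y0 J ≤ ((2 ^ n : ℕ) : ℝ)) (hQY : Q ^ 8 ≤ ((2 ^ n : ℕ) : ℝ))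
    {a : ℕ → ℂ} {M : ℝ} (hM : 0 < M)
    (ha : ∀ p : ℕ, p.Prime → ‖a p‖ ≤ M) {ε : ℝ} (h0 : 0 < ε) (h1 : ε ≤ 1) (K : ℕ) :
    ‖vec χ t (fun p => a p * (((p : ℝ) ^ (-(1 + ε)) : ℝ) : ℂ)) (Ioc (2 * 2 ^ n) (2 ^ (K + 1) * 2 ^ n))‖ ≤
      M * Real.sqrt CB * (2 * Real.log (2 / ε)) := by
  have hl2 : 0 < Real.log 2 := Real.log_pos (by norm_num)
  have hl2' := Real.log_two_gt_d9
  set g : ℕ → ℝ := fun k => M * ((2 * (2 ^ k * 2 ^ n) : ℕ) : ℝ) ^ (-(1 + ε)) with hg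
  have hg0 : ∀ k, 0 < g k := fun k => mul_pos hM (Real.rpow_pos_of_pos (by positivity) _)
  have hgb : ∀ k, ∀ p ∈ Ioc (2 * (2 ^ k * 2 ^ n)) (4 * (2 ^ k * 2 ^ n)), p.Prime →
      ‖a p * (((p : ℝ) ^ (-(1 + ε)) : ℝ) : ℂ)‖ ≤ g k := by
    intro k p hp hpp
    rw [mem_Ioc] at hp
    rw [norm_mul, norm_real, Real.norm_of_nonneg (Real.rpow_nonneg (Nat.cast_nonneg p) _)]
    apply mul_le_mul (ha p hpp) _ (Real.rpow_nonneg (Nat.cast_nonneg p) _) hM.le
    apply Real.rpow_le_rpow_of_nonpos (by positivity) _ (by linarith)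
    exact_mod_cast hp.1.le
  refine (dyadic h hq ht hY hQY _ g hg0 hgb K).trans ?_
  have hsum := sum_pow_div h0 h1 K
  have hterm : ∀ k ∈ range K, g k * (Real.sqrt CB * ((2 ^ k * ((2 ^ n : ℕ) : ℝ)) /
      Real.log (2 ^ k * ((2 ^ n : ℕ) : ℝ)))) ≤
      M * Real.sqrt CB * (((2 : ℝ) ^ (-ε)) ^ k / (k + 1)) := by
    intro k _
    have hn0 : (1 : ℝ) ≤ n := by exact_mod_cast hn
    have e1 : (2 : ℝ) ^ k * ((2 ^ n : ℕ) : ℝ) = 2 ^ (k + n) := by push_cast; rw [pow_add]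
    have e2 : Real.log ((2 : ℝ) ^ (k + n)) = (k + n) * Real.log 2 := by
      rw [Real.log_pow]; push_cast; ring
    have e3 : ((2 * (2 ^ k * 2 ^ n) : ℕ) : ℝ) = 2 * 2 ^ (k + n) := by push_cast; rw [pow_add]
    have e4 : (2 * (2 : ℝ) ^ (k + n)) ^ (-(1 + ε)) ≤ (2 * 2 ^ (k + n))⁻¹ * ((2 : ℝ) ^ (-ε)) ^ k := by
      rw [show -(1 + ε) = -1 + -ε by ring, Real.rpow_add (by positivity), Real.rpow_neg_one]
      apply mul_le_mul_of_nonneg_left _ (by positivity)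
      have e6 : ((2 : ℝ) ^ (-ε)) ^ k = ((2 : ℝ) ^ k) ^ (-ε) := by
        rw [← Real.rpow_natCast ((2 : ℝ) ^ (-ε)) k, ← Real.rpow_mul (by norm_num),
          mul_comm (-ε) (k : ℝ), Real.rpow_mul (by norm_num), Real.rpow_natCast]
      rw [e6]
      apply Real.rpow_le_rpow_of_nonpos (by positivity) _ (by linarith)
      have : (2 : ℝ) ^ k ≤ 2 ^ (k + n) := pow_le_pow_right₀ (by norm_num) (by omega)
      have h3 : (0 : ℝ) < 2 ^ k := by positivity
      linarith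
    rw [e1, e2]
    simp only [hg]
    rw [e3]
    have hx : (0 : ℝ) ≤ ((2 : ℝ) ^ (-ε)) ^ k := by positivity
    have hk : (0 : ℝ) < (k : ℝ) + n := by positivity
    have hfin : (2 * (2 : ℝ) ^ (k + n))⁻¹ * ((2 : ℝ) ^ (-ε)) ^ k *
        (2 ^ (k + n) / ((k + n) * Real.log 2)) ≤ ((2 : ℝ) ^ (-ε)) ^ k / (k + 1) := by
      have e5 : (2 * (2 : ℝ) ^ (k + n))⁻¹ * ((2 : ℝ) ^ (-ε)) ^ k *
        (2 ^ (k + n) / ((k + n) * Real.log 2)) =
        ((2 : ℝ) ^ (-ε)) ^ k / ((k + n) * (2 * Real.log 2)) := by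
        field_simp
      rw [e5]
      apply div_le_div_of_nonneg_left hx (by positivity)
      nlinarith
    calc M * (2 * (2 : ℝ) ^ (k + n)) ^ (-(1 + ε)) *
          (Real.sqrt CB * (2 ^ (k + n) / ((k + n) * Real.log 2))) ≤
          M * ((2 * 2 ^ (k + n))⁻¹ * ((2 : ℝ) ^ (-ε)) ^ k) *
          (Real.sqrt CB * (2 ^ (k + n) / ((k + n) * Real.log 2))) := by
            gcongr
      _ = M * Real.sqrt CB * ((2 * (2 : ℝ) ^ (k + n))⁻¹ * ((2 : ℝ) ^ (-ε)) ^ k *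
        (2 ^ (k + n) / ((k + n) * Real.log 2))) := by ring
      _ ≤ _ := mul_le_mul_of_nonneg_left hfin (by positivity)
  refine (sum_le_sum hterm).trans ?_
  rw [← mul_sum]
  exact mul_le_mul_of_nonneg_left hsum (by positivity)

/-- the constant of the theorem -/
noncomputable def CL : ℝ := 64 * CB + 32

lemma CL_ge : 32 ≤ CL := by
  unfold CL
  have := CB_pos
  linarith

theorem log_fixed (J : ℕ) {M δ : ℝ} (hδ : 0 < δ) (hδM : δ ≤ M) :
    ∃ ε₀ : ℝ, 0 < ε₀ ∧ ε₀ < 1 ∧ ∀ ε : ℝ, 0 < ε → ε < ε₀ → ∀ {q : Fin J → ℕ}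
      {χ : ∀ j, DirichletCharacter ℂ (q j)} {t : Fin J → ℝ}, Spaced q χ t →
      (∀ j, (q j : ℝ) ≤ scale ε (δ / (CL * M))) → (∀ j, |t j| ≤ scale ε (δ / (CL * M))) →
      ∀ a : ℕ → ℂ, (∀ p : ℕ, p.Prime → ‖a p‖ ≤ M) →
      (∀ j, δ * Real.log (1 / ε) ≤ ‖PS a (χ j) (1 + (ε : ℂ) + (t j : ℂ) * I)‖) →
      (J : ℝ) ≤ CL * (M / δ) ^ 2 := by
  have hM : 0 < M := lt_of_lt_of_le hδ hδM
  have hCL := CL_ge
  have hCB := CB_pos
  set A : ℝ := 15 + 2 * Real.log (y0 J) + 16 with hA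
  have hy0 : (2 : ℝ) ^ 96 ≤ y0 J := le_max_left _ _
  have hy01 : 1 ≤ y0 J := le_trans (one_le_pow₀ (by norm_num)) hy0
  have hly0 : 0 ≤ Real.log (y0 J) := Real.log_nonneg hy01
  have hA1 : 1 ≤ A := by rw [hA]; linarith
  set B : ℝ := M * (5 + 4 * Real.log A) with hB
  have hB0 : 0 ≤ B := by
    have := Real.log_nonneg hA1
    positivity
  refine ⟨min (1 / 4) (Real.exp (-(8 * B / (3 * δ) + 1))), by positivity, ?_, ?_⟩
  · exact lt_of_le_of_lt (min_le_left _ _) (by norm_num)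
  intro ε h0 hε q χ t hsp hq ht a ha hlow
  have hε4 : ε < 1 / 4 := lt_of_lt_of_le hε (min_le_left _ _)
  have hεB : ε < Real.exp (-(8 * B / (3 * δ) + 1)) := lt_of_lt_of_le hε (min_le_right _ _)
  set L : ℝ := Real.log (1 / ε) with hL
  have hLeq : L = -Real.log ε := by rw [hL, one_div, Real.log_inv]
  have hLB : 8 * B / (3 * δ) + 1 < L := by
    have := (Real.lt_log_iff_exp_lt (x := -L) (y := 1)) 
    have h2 : Real.log ε < -(8 * B / (3 * δ) + 1) := by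
      rw [Real.log_lt_iff_lt_exp h0]; exact hεB
    linarith
  have hL0 : 0 < L := by
    have : 0 ≤ 8 * B / (3 * δ) := by positivity
    linarith
  set η : ℝ := δ / (CL * M) with hη
  have hη0 : 0 < η := by positivity
  set E : ℝ := ε ^ (-η) with hE
  have hE1 : 1 ≤ E := by
    rw [hE]
    apply Real.one_le_rpow_of_pos_of_le_one_of_nonpos h0 (by linarith) (by linarith)
  have hlogE : Real.log E = η * L := by
    rw [hE, Real.log_rpow h0, hLeq]; ring
  set R : ℝ := scale ε η with hR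
  have hR1 : 1 ≤ R := by
    rw [hR, scale]; exact Real.one_le_exp (by linarith)
  have hlogR : Real.log R = E := by rw [hR, scale, Real.log_exp]
  -- the starting point
  obtain ⟨n, hn1, hn2⟩ := exists_pow (y0 J * R ^ 8) (by
    have : 1 ≤ R ^ 8 := one_le_pow₀ hR1
    nlinarith)
  have hnY : y0 J ≤ ((2 ^ n : ℕ) : ℝ) := by
    push_cast
    refine le_trans ?_ hn1
    have : 1 ≤ R ^ 8 := one_le_pow₀ hR1
    nlinarith
  have hnQ : R ^ 8 ≤ ((2 ^ n : ℕ) : ℝ) := by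
    push_cast
    refine le_trans ?_ hn1
    have : 0 ≤ R ^ 8 := by positivity
    nlinarith
  have hnpos : 1 ≤ n := by
    by_contra hcon
    have : n = 0 := by omega
    rw [this] at hnY
    norm_num at hnY
    have h96 : (1 : ℝ) < 2 ^ 96 := by norm_num
    linarith
  have hnlog : (n : ℝ) ≤ A * E := by
    rw [Real.log_mul (by positivity) (by positivity), Real.log_pow, hlogR] at hn2
    push_cast at hn2
    have h3 : 2 * Real.log (y0 J) ≤ 2 * Real.log (y0 J) * E := le_mul_of_one_le_right (by positivity) hE1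
    have h4 : A * E = 15 * E + 2 * Real.log (y0 J) * E + 16 * E := by rw [hA]; ring
    rw [h4]
    linarith
  have hlogn : Real.log n ≤ Real.log A + η * L := by
    rw [← hlogE, ← Real.log_mul (by positivity) (by positivity)]
    exact Real.log_le_log (by exact_mod_cast hnpos) hnlog
  -- the coefficients
  set c : ℕ → ℂ := fun p => a p * (((p : ℝ) ^ (-(1 + ε)) : ℝ) : ℂ) with hc
  have hcn : ∀ p : ℕ, p.Prime → ‖c p‖ ≤ M * (p : ℝ) ^ (-(1 + ε)) := by
    intro p hp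
    simp only [hc]
    rw [norm_mul, norm_real, Real.norm_of_nonneg (Real.rpow_nonneg (Nat.cast_nonneg p) _)]
    exact mul_le_mul_of_nonneg_right (ha p hp) (Real.rpow_nonneg (Nat.cast_nonneg p) _)
  have hcs : Summable fun p : Nat.Primes => ‖c p‖ := by
    refine Summable.of_nonneg_of_le (fun _ => norm_nonneg _) (fun p => hcn p p.2) ?_
    exact (Nat.Primes.summable_rpow.2 (by linarith)).mul_left M
  have hB2 := fun K => log_block hsp.neg hq (fun j => by rw [abs_neg]; exact ht j) hnpos hnY hnQ hM ha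
    h0 (by linarith : ε ≤ 1) K
  have htail := tail_l2 χ (fun j => -t j) c hcs (Y := 2 ^ n) (by positivity) hB2
  -- the series
  have hPS : ∀ j, PS a (χ j) (1 + (ε : ℂ) + (t j : ℂ) * I) =
      ∑' p : Nat.Primes, c p * (χ j (p : ℕ) * ph (-t j) p) := by
    intro j
    unfold PS
    apply tsum_congr
    intro p
    rw [cpow_split p.2.pos]
    simp only [hc]
    ring
  have hsmall : ∀ j, ‖small (fun p => c p * (χ j p * ph (-t j) p)) (2 ^ n)‖ ≤ δ / 2 * L := by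
    intro j
    unfold small
    have h5 : ∀ p ∈ (range (2 * 2 ^ n + 1)).filter Nat.Prime,
        ‖c p * (χ j p * ph (-t j) p)‖ ≤ M * (1 / (p : ℝ)) := by
      intro p hp
      have hpp := (mem_filter.1 hp).2
      rw [norm_mul (c p), norm_mul (χ j (p : ZMod (q j))), norm_ph _ hpp.pos, mul_one]
      refine (mul_le_of_le_one_right (norm_nonneg _) ((χ j).norm_le_one _)).trans ?_
      refine (hcn p hpp).trans ?_
      apply mul_le_mul_of_nonneg_left _ hM.le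
      rw [one_div, ← Real.rpow_neg_one]
      have : (1 : ℝ) ≤ p := by exact_mod_cast hpp.pos
      exact Real.rpow_le_rpow_of_exponent_le this (by linarith)
    refine (norm_sum_le_of_le _ h5).trans ?_
    rw [← mul_sum]
    have h6 := sum_inv_small' n
    have h7 : M * ∑ p ∈ (range (2 * 2 ^ n + 1)).filter Nat.Prime, 1 / (p : ℝ) ≤
        M * (5 + 4 * (Real.log A + η * L)) := by
      apply mul_le_mul_of_nonneg_left _ hM.le
      linarith
    refine h7.trans ?_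
    have h8 : M * (5 + 4 * (Real.log A + η * L)) = B + 4 * (M * η) * L := by
      rw [hB]; ring
    have h9 : M * η = δ / CL := by
      rw [hη]; field_simp
    have h10 : 4 * (M * η) ≤ δ / 8 := by
      rw [h9, ← mul_div_assoc, div_le_div_iff₀ (by linarith) (by norm_num)]
      nlinarith
    have h11 : B ≤ 3 * δ / 8 * L := by
      have h12 : 8 * B / (3 * δ) ≤ L := by linarith
      rw [div_le_iff₀ (by positivity)] at h12
      linarith
    rw [h8]
    have h13 : 4 * (M * η) * L ≤ δ / 8 * L := mul_le_mul_of_nonneg_right h10 hL0.le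
    linarith
  have hT : ∀ j, δ / 2 * L ≤ ‖∑' p : Nat.Primes, c p * (χ j (p : ℕ) * ph (-t j) p) -
      small (fun p => c p * (χ j p * ph (-t j) p)) (2 ^ n)‖ := by
    intro j
    have h5 := hlow j
    rw [hPS j] at h5
    have h6 := norm_sub_norm_le (∑' p : Nat.Primes, c p * (χ j (p : ℕ) * ph (-t j) p))
      (small (fun p => c p * (χ j p * ph (-t j) p)) (2 ^ n))
    have h7 := hsmall j
    linarith
  have hJ : (J : ℝ) * (δ / 2 * L) ^ 2 ≤ (M * Real.sqrt CB * (2 * Real.log (2 / ε))) ^ 2 := by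
    refine le_trans ?_ htail
    have : ∑ j : Fin J, (δ / 2 * L) ^ 2 = (J : ℝ) * (δ / 2 * L) ^ 2 := by
      rw [sum_const, card_univ, Fintype.card_fin, nsmul_eq_mul]
    rw [← this]
    apply sum_le_sum
    intro j _
    exact pow_le_pow_left₀ (by positivity) (hT j) 2
  have hlog2 : Real.log (2 / ε) ≤ 2 * L := by
    have : Real.log (2 / ε) = Real.log 2 + L := by
      rw [hL, ← Real.log_mul (by norm_num) (by positivity)]; congr 1; ring
    rw [this]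
    have h3 : Real.log 2 ≤ L := by
      rw [hL]
      apply Real.log_le_log (by norm_num)
      rw [le_div_iff₀ h0]; linarith
    linarith
  have hlog20 : 0 ≤ Real.log (2 / ε) := by
    apply Real.log_nonneg
    rw [le_div_iff₀ h0]; linarith
  have hfin : (M * Real.sqrt CB * (2 * Real.log (2 / ε))) ^ 2 ≤ 16 * CB * M ^ 2 * L ^ 2 := by
    calc (M * Real.sqrt CB * (2 * Real.log (2 / ε))) ^ 2 ≤
          (M * Real.sqrt CB * (2 * (2 * L))) ^ 2 := by gcongr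
      _ = 16 * (Real.sqrt CB) ^ 2 * M ^ 2 * L ^ 2 := by ring
      _ = _ := by rw [Real.sq_sqrt hCB.le]
  have h20 : (J : ℝ) * (δ / 2 * L) ^ 2 ≤ 16 * CB * M ^ 2 * L ^ 2 := hJ.trans hfin
  have h21 : (J : ℝ) * δ ^ 2 ≤ 64 * CB * M ^ 2 := by
    have hL2 : 0 < L ^ 2 := by positivity
    have e : (J : ℝ) * (δ / 2 * L) ^ 2 = ((J : ℝ) * δ ^ 2) * L ^ 2 / 4 := by ring
    rw [e] at h20
    have : ((J : ℝ) * δ ^ 2) * L ^ 2 ≤ (64 * CB * M ^ 2) * L ^ 2 := by linarith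
    exact le_of_mul_le_mul_right this hL2
  have h22 : (J : ℝ) ≤ 64 * CB * (M / δ) ^ 2 := by
    rw [div_pow, ← mul_div_assoc, le_div_iff₀ (by positivity)]
    exact h21
  refine h22.trans ?_
  unfold CL
  apply mul_le_mul_of_nonneg_right _ (by positivity)
  linarith

/-- **Scarcity, logarithmic version.** -/
theorem log_scarce {M δ : ℝ} (hδ : 0 < δ) (hδM : δ ≤ M) :
    ∃ ε₀ : ℝ, 0 < ε₀ ∧ ε₀ < 1 ∧ ∀ ε : ℝ, 0 < ε → ε < ε₀ → ∀ (J : ℕ) {q : Fin J → ℕ}
      {χ : ∀ j, DirichletCharacter ℂ (q j)} {t : Fin J → ℝ}, Spaced q χ t →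
      (∀ j, (q j : ℝ) ≤ scale ε (δ / (CL * M))) → (∀ j, |t j| ≤ scale ε (δ / (CL * M))) →
      ∀ a : ℕ → ℂ, (∀ p : ℕ, p.Prime → ‖a p‖ ≤ M) →
      (∀ j, δ * Real.log (1 / ε) ≤ ‖PS a (χ j) (1 + (ε : ℂ) + (t j : ℂ) * I)‖) →
      (J : ℝ) ≤ CL * (M / δ) ^ 2 := by
  have hM : 0 < M := lt_of_lt_of_le hδ hδM
  have hCL := CL_ge
  set J₁ : ℕ := ⌊CL * (M / δ) ^ 2⌋₊ + 1 with hJ₁
  obtain ⟨ε₀, h1, h2, h3⟩ := log_fixed J₁ hδ hδM
  refine ⟨ε₀, h1, h2, ?_⟩
  intro ε h0 hε J q χ t hsp hq ht a ha hlow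
  by_contra hcon
  rw [not_le] at hcon
  have hle : J₁ ≤ J := by
    rw [hJ₁, Nat.succ_le_iff, Nat.floor_lt (by positivity)]
    exact hcon
  have h4 := h3 ε h0 hε (hsp.comp (Fin.castLE_injective hle)) (fun j => hq _) (fun j => ht _) a ha
    (fun j => hlow _)
  have h5 := Nat.lt_floor_add_one (CL * (M / δ) ^ 2)
  rw [hJ₁] at h4
  push_cast at h4
  linarith

end Pool.Agent.H439.LS
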