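import Pool.Agent.H439.LS.Dyadic

set_option autoImplicit false

namespace Pool.Agent.H439.LS

open Finset Complex ComplexConjugate

/-- the trapezoidal weight of a short interval -/
noncomputable def WS (x h n : ℕ) : ℝ :=
  (((x + 2 * h - n : ℕ) : ℝ) - ((x + h - n : ℕ) : ℝ) - ((x - n : ℕ) : ℝ) +
    ((x - h - n : ℕ) : ℝ)) / h

lemma WS_nonneg (x h n : ℕ) : 0 ≤ WS x h n := by
  unfold WS
  apply div_nonneg _ (by positivity)
  have h1 : x + h - n + (x - n) ≤ x + 2 * h - n + (x - h - n) := by omega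
  have h2 : ((x + h - n : ℕ) : ℝ) + ((x - n : ℕ) : ℝ) ≤
      ((x + 2 * h - n : ℕ) : ℝ) + ((x - h - n : ℕ) : ℝ) := by exact_mod_cast h1
  linarith

lemma WS_eq_one {x h n : ℕ} (hh : 0 < h) (h1 : x ≤ n) (h2 : n ≤ x + h) : WS x h n = 1 := by
  unfold WS
  have e1 : x - n = 0 := by omega
  have e2 : x - h - n = 0 := by omega
  have e3 : x + 2 * h - n = x + h - n + h := by omega
  rw [e1, e2, e3]
  have : (h : ℝ) ≠ 0 := by exact_mod_cast hh.ne'
  push_cast
  field_simp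
  ring

/-- second difference of `G2` -/
lemma G2_diff (u : ℝ) {x h : ℝ} (hh : 0 < h) (hx : h < x) :
    ‖G2 u (x + 2 * h) - G2 u (x + h) - G2 u x + G2 u (x - h)‖ ≤ 2 * h ^ 2 := by
  have := norm_image_sub_le_of_norm_deriv_le_segment' (f := fun y : ℝ => G2 u (y + 2 * h) - G2 u y)
    (f' := fun y : ℝ => G1 u (y + 2 * h) - G1 u y) (C := 2 * h) (a := x - h) (b := x) ?_ ?_ x
    (Set.right_mem_Icc.2 (by linarith))
  · have e : (G2 u (x + 2 * h) - G2 u x) - (G2 u (x - h + 2 * h) - G2 u (x - h)) =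
        G2 u (x + 2 * h) - G2 u (x + h) - G2 u x + G2 u (x - h) := by
      rw [show x - h + 2 * h = x + h by ring]
      ring
    rw [e] at this
    refine this.trans (le_of_eq ?_)
    ring
  · intro y hy
    have hy0 : 0 < y := by linarith [hy.1]
    have h1 := hasDerivAt_G2 u hy0
    have h2 : HasDerivAt (fun y : ℝ => G2 u (y + 2 * h)) (G1 u (y + 2 * h)) y := by
      have h3 := hasDerivAt_G2 u (y := y + 2 * h) (by linarith)
      exact h3.comp_add_const y (2 * h)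
    exact (h2.sub h1).hasDerivWithinAt
  · intro y hy
    have hy0 : 0 < y := by linarith [hy.1]
    refine (G1_lip u hy0 (by linarith)).trans (le_of_eq ?_)
    ring

/-- **The Gram entries of a short interval.** -/
theorem gramS {ψ : ℕ → ℂ} {r : ℕ} (hr0 : 0 < r) (hψ : Function.Periodic ψ r)
    (h1 : ∀ n, ‖ψ n‖ ≤ 1) (u : ℝ) (z : ℕ) {x h : ℕ} (hh : 0 < h) (hx : h < x) :
    ‖∑ m ∈ range (x + 2 * h), ((WS x h (m + 1) * sw z (m + 1) : ℝ) : ℂ) *
        (ψ (m + 1) * ph u (m + 1))‖ ≤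
      ‖kk ψ r z‖ * min (2 * (h : ℝ)) (36 * (x : ℝ) ^ 2 / (h * (1 + u ^ 2))) +
        12 * (x : ℝ) / h * er u r z (x + 2 * h) := by
  have e1 : ∑ m ∈ range (x + 2 * h), ((WS x h (m + 1) * sw z (m + 1) : ℝ) : ℂ) *
      (ψ (m + 1) * ph u (m + 1)) =
      (BB ψ u z (x + 2 * h) - BB ψ u z (x + h) - BB ψ u z x + BB ψ u z (x - h)) / h := by
    rw [← sum_V ψ u z (x + 2 * h) (x + 2 * h) le_rfl, ← sum_V ψ u z (x + h) (x + 2 * h) (by omega),
      ← sum_V ψ u z x (x + 2 * h) (by omega), ← sum_V ψ u z (x - h) (x + 2 * h) (by omega),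
      ← sum_sub_distrib, ← sum_sub_distrib, ← sum_add_distrib, sum_div]
    apply sum_congr rfl
    intro m _
    unfold WS
    push_cast
    ring
  have hh0 : (0 : ℝ) < h := by exact_mod_cast hh
  have hxh : (h : ℝ) < x := by exact_mod_cast hx
  have hx0 : (0 : ℝ) < x := by linarith
  have hxs : ((x - h : ℕ) : ℝ) = (x : ℝ) - h := by rw [Nat.cast_sub hx.le]
  have b4 := BB_bound hr0 hψ h1 u z (c := x + 2 * h) (N := x + 2 * h) le_rfl
  have b3 := BB_bound hr0 hψ h1 u z (c := x + h) (N := x + 2 * h) (by omega)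
  have b2 := BB_bound hr0 hψ h1 u z (c := x) (N := x + 2 * h) (by omega)
  have b1 := BB_bound hr0 hψ h1 u z (c := x - h) (N := x + 2 * h) (by omega)
  have hE0 : 0 ≤ er u r z (x + 2 * h) := by
    unfold er
    have := hr_nonneg (x + 2 * h)
    positivity
  set E := er u r z (x + 2 * h) with hE
  set κ := kk ψ r z with hκ
  set D : ℂ := G2 u ((x + 2 * h : ℕ) : ℝ) - G2 u ((x + h : ℕ) : ℝ) - G2 u (x : ℝ) +
    G2 u ((x - h : ℕ) : ℝ) with hD
  have hu : (0 : ℝ) < 1 + u ^ 2 := by positivity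
  have hD1 : ‖D‖ ≤ 2 * (h : ℝ) ^ 2 := by
    have := G2_diff u hh0 hxh
    rw [hD, hxs]
    push_cast
    exact this
  have hD2 : ‖D‖ ≤ 36 * (x : ℝ) ^ 2 / (1 + u ^ 2) := by
    have n4 := norm_G2 u (x + 2 * h)
    have n3 := norm_G2 u (x + h)
    have n2 := norm_G2 u x
    have n1 := norm_G2 u (x - h)
    have hb : ∀ c : ℕ, c ≤ 3 * x → (c : ℝ) ^ 2 / (1 + u ^ 2) ≤ 9 * (x : ℝ) ^ 2 / (1 + u ^ 2) := by
      intro c hc
      apply div_le_div_of_nonneg_right _ hu.le
      have : (c : ℝ) ≤ 3 * x := by exact_mod_cast hc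
      nlinarith [Nat.cast_nonneg (α := ℝ) c]
    have m4 := hb (x + 2 * h) (by omega)
    have m3 := hb (x + h) (by omega)
    have m2 := hb x (by omega)
    have m1 := hb (x - h) (by omega)
    have e : 36 * (x : ℝ) ^ 2 / (1 + u ^ 2) = 4 * (9 * (x : ℝ) ^ 2 / (1 + u ^ 2)) := by ring
    rw [e, hD]
    have a1 := norm_add_le (G2 u ((x + 2 * h : ℕ) : ℝ) - G2 u ((x + h : ℕ) : ℝ) - G2 u (x : ℝ))
      (G2 u ((x - h : ℕ) : ℝ))
    have a2 := norm_sub_le (G2 u ((x + 2 * h : ℕ) : ℝ) - G2 u ((x + h : ℕ) : ℝ)) (G2 u (x : ℝ))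
    have a3 := norm_sub_le (G2 u ((x + 2 * h : ℕ) : ℝ)) (G2 u ((x + h : ℕ) : ℝ))
    linarith
  have hmain : ‖BB ψ u z (x + 2 * h) - BB ψ u z (x + h) - BB ψ u z x + BB ψ u z (x - h)‖ ≤
      ‖κ‖ * ‖D‖ + 12 * x * E := by
    have e : BB ψ u z (x + 2 * h) - BB ψ u z (x + h) - BB ψ u z x + BB ψ u z (x - h) =
        κ * D + ((BB ψ u z (x + 2 * h) - κ * G2 u ((x + 2 * h : ℕ) : ℝ)) -
          (BB ψ u z (x + h) - κ * G2 u ((x + h : ℕ) : ℝ)) - (BB ψ u z x - κ * G2 u (x : ℝ)) +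
          (BB ψ u z (x - h) - κ * G2 u ((x - h : ℕ) : ℝ))) := by
      rw [hD]; ring
    rw [e]
    refine (norm_add_le _ _).trans ?_
    rw [norm_mul]
    have a1 := norm_add_le ((BB ψ u z (x + 2 * h) - κ * G2 u ((x + 2 * h : ℕ) : ℝ)) -
          (BB ψ u z (x + h) - κ * G2 u ((x + h : ℕ) : ℝ)) - (BB ψ u z x - κ * G2 u (x : ℝ)))
          (BB ψ u z (x - h) - κ * G2 u ((x - h : ℕ) : ℝ))
    have a2 := norm_sub_le ((BB ψ u z (x + 2 * h) - κ * G2 u ((x + 2 * h : ℕ) : ℝ)) -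
          (BB ψ u z (x + h) - κ * G2 u ((x + h : ℕ) : ℝ))) (BB ψ u z x - κ * G2 u (x : ℝ))
    have a3 := norm_sub_le (BB ψ u z (x + 2 * h) - κ * G2 u ((x + 2 * h : ℕ) : ℝ))
          (BB ψ u z (x + h) - κ * G2 u ((x + h : ℕ) : ℝ))
    have hc : ((x + 2 * h : ℕ) : ℝ) * E + ((x + h : ℕ) : ℝ) * E + (x : ℝ) * E +
        ((x - h : ℕ) : ℝ) * E ≤ 12 * x * E := by
      rw [hxs]
      push_cast
      nlinarith
    linarith
  rw [e1, norm_div, Complex.norm_natCast, div_le_iff₀ hh0]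
  refine hmain.trans ?_
  have hmin : ‖D‖ ≤ min (2 * (h : ℝ)) (36 * (x : ℝ) ^ 2 / (h * (1 + u ^ 2))) * h := by
    rw [min_mul_of_nonneg _ _ hh0.le]
    apply le_min
    · refine hD1.trans (le_of_eq ?_)
      ring
    · refine hD2.trans (le_of_eq ?_)
      field_simp
  have h5 := mul_le_mul_of_nonneg_left hmin (norm_nonneg κ)
  have e5 : (‖κ‖ * min (2 * (h : ℝ)) (36 * (x : ℝ) ^ 2 / (h * (1 + u ^ 2))) + 12 * x / h * E) * h =
      ‖κ‖ * (min (2 * (h : ℝ)) (36 * (x : ℝ) ^ 2 / (h * (1 + u ^ 2))) * h) + 12 * x * E := by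
    field_simp
  rw [e5]
  linarith

/-- heights of equal characters are separated by `D` -/
structure SpacedBy {J : ℕ} (D : ℝ) (q : Fin J → ℕ) (χ : ∀ j, DirichletCharacter ℂ (q j))
    (t : Fin J → ℝ) : Prop where
  pos : ∀ j, 0 < q j
  sep : ∀ j k, j ≠ k → Agree (χ j) (χ k) → D ≤ |t j - t k|

lemma SpacedBy.spaced {J : ℕ} {D : ℝ} {q : Fin J → ℕ} {χ : ∀ j, DirichletCharacter ℂ (q j)}
    {t : Fin J → ℝ} (h : SpacedBy D q χ t) (hD : 1 ≤ D) : Spaced q χ t :=
  ⟨h.pos, fun j k hjk hA => hD.trans (h.sep j k hjk hA)⟩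

/-- **The bound for a short interval.** -/
theorem blockS {J : ℕ} {q : Fin J → ℕ} {χ : ∀ j, DirichletCharacter ℂ (q j)} {t : Fin J → ℝ}
    {x h : ℕ} (hh : 0 < h) (hx : h < x)
    (hs : SpacedBy ((x : ℝ) / h) q χ t) {Q : ℝ} (hq : ∀ j, (q j : ℝ) ≤ Q) (ht : ∀ j, |t j| ≤ Q)
    {z : ℕ} (hz : 1 ≤ z) (hzx : z ≤ x) (b : ℕ → ℂ) (hb : ∀ p, ‖b p‖ ≤ 1) :
    ∑ j, ‖∑ p ∈ (Ioc x (x + h)).filter Nat.Prime, b p * (χ j p * ph (t j) p)‖ ^ 2 ≤
      (2 * h * kz z + 72 * (x / h) * Lz z ^ 2) *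
        (C0 * (72 * kz z * h) +
          J * (72 * (x / h) * Lz z ^ 2 * (Q ^ 2 * (1 + 2 * Q * hr (x + 2 * h))))) := by
  classical
  have hkz := kz_nonneg hz
  have hh0 : (0 : ℝ) < h := by exact_mod_cast hh
  have hxh : (h : ℝ) < x := by exact_mod_cast hx
  have hx0 : (0 : ℝ) < x := by linarith
  rcases isEmpty_or_nonempty (Fin J) with hJ | hJ
  · rw [Finset.univ_eq_empty, sum_empty]
    have hJ0 : (J : ℝ) = 0 := by
      rcases Nat.eq_zero_or_pos J with h0 | h0
      · exact_mod_cast h0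
      · exact (hJ.false ⟨0, h0⟩).elim
    rw [hJ0, zero_mul, add_zero]
    have := C0_nonneg
    positivity
  obtain ⟨j0⟩ := hJ
  have hQ1 : 1 ≤ Q := by
    have := hq j0
    have h1 : (1 : ℝ) ≤ q j0 := by exact_mod_cast hs.pos j0
    linarith
  set E : ℝ := 72 * (x / h) * Lz z ^ 2 * (Q ^ 2 * (1 + 2 * Q * hr (x + 2 * h))) with hE
  have hhr := hr_nonneg (x + 2 * h)
  have hE0 : 0 ≤ E := by positivity
  set φ : Fin J → ℕ → ℂ := fun j m => χ j ((m + 1 : ℕ) : ZMod (q j)) * ph (t j) (m + 1) with hφ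
  set w : ℕ → ℝ := fun m => WS x h (m + 1) * sw z (m + 1) with hw
  set f : ℕ → ℂ := fun m => if (m + 1).Prime ∧ x < m + 1 ∧ m + 1 ≤ x + h then b (m + 1) else 0
    with hf
  have hw0 : ∀ m ∈ range (x + 2 * h), 0 ≤ w m := fun m _ => mul_nonneg (WS_nonneg _ _ _) (sw_nonneg _ _)
  -- the Gram entries
  have hgram : ∀ j k, ‖∑ n ∈ range (x + 2 * h), (w n : ℂ) * (conj (φ j n) * φ k n)‖ ≤
      (if Agree (χ j) (χ k) then 72 * kz z * h / (1 + ((t k - t j) * (h / x)) ^ 2) else 0) + E := by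
    intro j k
    have e : ∑ n ∈ range (x + 2 * h), (w n : ℂ) * (conj (φ j n) * φ k n) =
        ∑ m ∈ range (x + 2 * h), ((WS x h (m + 1) * sw z (m + 1) : ℝ) : ℂ) *
          (pc (χ j) (χ k) (m + 1) * ph (t k - t j) (m + 1)) := by
      apply sum_congr rfl
      intro m _
      simp only [hφ, hw]
      unfold pc
      rw [map_mul, conj_ph _ (Nat.succ_pos m), sub_eq_add_neg, ph_add _ _ (Nat.succ_pos m)]
      ring
    rw [e]
    have hqq : 0 < q j * q k := Nat.mul_pos (hs.pos j) (hs.pos k)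
    have hg := gramS hqq (periodic_pc (χ j) (χ k)) (norm_pc (χ j) (χ k)) (t k - t j) z hh hx
    have herr : 12 * x / h * er (t k - t j) (q j * q k) z (x + 2 * h) ≤ E := by
      unfold er
      have h1 : ((q j * q k : ℕ) : ℝ) ≤ Q ^ 2 := by
        push_cast
        rw [sq]
        exact mul_le_mul (hq j) (hq k) (Nat.cast_nonneg _) (by linarith)
      have h2 : |t k - t j| ≤ 2 * Q := by
        have := ht k
        have := ht j
        linarith [abs_sub (t k) (t j)]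
      have h3 : 1 + |t k - t j| * hr (x + 2 * h) ≤ 1 + 2 * Q * hr (x + 2 * h) := by
        have := mul_le_mul_of_nonneg_right h2 hhr
        linarith
      calc 12 * x / h * (Lz z ^ 2 * (6 * ((q j * q k : ℕ) : ℝ) * (1 + |t k - t j| * hr (x + 2 * h)))) =
            72 * (x / h) * Lz z ^ 2 * (((q j * q k : ℕ) : ℝ) * (1 + |t k - t j| * hr (x + 2 * h))) := by
              ring
        _ ≤ 72 * (x / h) * Lz z ^ 2 * (Q ^ 2 * (1 + 2 * Q * hr (x + 2 * h))) := by
            apply mul_le_mul_of_nonneg_left _ (by positivity)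
            exact mul_le_mul h1 h3 (by positivity) (by positivity)
    refine hg.trans (add_le_add ?_ herr)
    split_ifs with hA
    · have h5 := norm_kk_le hqq (periodic_pc (χ j) (χ k)) (norm_pc (χ j) (χ k)) z
      set u : ℝ := t k - t j with hu
      have hmin : min (2 * (h : ℝ)) (36 * (x : ℝ) ^ 2 / (h * (1 + u ^ 2))) ≤
          72 * h / (1 + (u * (h / x)) ^ 2) := by
        by_cases hv : (u * (h / x)) ^ 2 ≤ 1
        · refine (min_le_left _ _).trans ?_
          rw [le_div_iff₀ (by positivity)]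
          nlinarith
        · rw [not_le] at hv
          refine (min_le_right _ _).trans ?_
          rw [div_le_div_iff₀ (by positivity) (by positivity)]
          have e6 : (u * (h / x)) ^ 2 * x ^ 2 = u ^ 2 * (h : ℝ) ^ 2 := by field_simp
          have h7 : (1 + (u * (h / x)) ^ 2) * (x : ℝ) ^ 2 ≤ 2 * (u ^ 2 * (h : ℝ) ^ 2) := by
            rw [← e6]
            nlinarith [sq_nonneg (x : ℝ)]
          calc 36 * (x : ℝ) ^ 2 * (1 + (u * (h / x)) ^ 2) = 36 * ((1 + (u * (h / x)) ^ 2) * (x : ℝ) ^ 2) := by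
                ring
            _ ≤ 36 * (2 * (u ^ 2 * (h : ℝ) ^ 2)) := by linarith
            _ ≤ 72 * h * (h * (1 + u ^ 2)) := by nlinarith [sq_nonneg (h : ℝ)]
      calc ‖kk (pc (χ j) (χ k)) (q j * q k) z‖ * min (2 * (h : ℝ)) (36 * (x : ℝ) ^ 2 / (h * (1 + u ^ 2))) ≤
            kz z * (72 * h / (1 + (u * (h / x)) ^ 2)) := by
              apply mul_le_mul h5 hmin _ hkz
              apply le_min <;> positivity
        _ = _ := by ring
    · have : kk (pc (χ j) (χ k)) (q j * q k) z = 0 := by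
        unfold kk
        apply sum_eq_zero
        intro s _
        apply sum_eq_zero
        intro t _
        rw [mean_zero (hs.pos j) (hs.pos k) hA, zero_div, mul_zero]
      rw [this, norm_zero, zero_mul]
  set Γ : ℝ := C0 * (72 * kz z * h) + J * E with hΓ
  have hΓ0 : 0 ≤ Γ := by
    have := C0_nonneg
    positivity
  have hrow : ∀ j, ∑ k, ‖∑ n ∈ range (x + 2 * h), (w n : ℂ) * (conj (φ j n) * φ k n)‖ ≤ Γ := by
    intro j
    refine (sum_le_sum fun k _ => hgram j k).trans ?_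
    rw [sum_add_distrib, sum_const, card_univ, Fintype.card_fin, nsmul_eq_mul]
    apply add_le_add _ le_rfl
    rw [← sum_filter]
    have e : ∑ k ∈ univ.filter (fun k => Agree (χ j) (χ k)),
        72 * kz z * h / (1 + ((t k - t j) * (h / x)) ^ 2) =
        (∑ k ∈ univ.filter (fun k => Agree (χ j) (χ k)), 1 / (1 + ((t k - t j) * (h / x)) ^ 2)) *
          (72 * kz z * h) := by
      rw [sum_mul]
      apply sum_congr rfl
      intro k _
      ring
    rw [e]
    apply mul_le_mul_of_nonneg_right _ (by positivity)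
    apply spaced (v := fun k => (t k - t j) * (h / x))
    intro a ha b' hb' hab
    rw [mem_filter] at ha hb'
    have h6 : Agree (χ a) (χ b') := ha.2.symm.trans (hs.pos _) (hs.pos _) (hs.pos _) hb'.2
    have h7 := hs.sep a b' hab h6
    have e2 : (t a - t j) * (h / x) - (t b' - t j) * (h / x) = (t a - t b') * ((h : ℝ) / x) := by ring
    rw [e2, abs_mul, abs_of_pos (a := (h : ℝ) / x) (by positivity)]
    calc (1 : ℝ) = (x / h) * (h / x) := by field_simp
      _ ≤ |t a - t b'| * (h / x) := mul_le_mul_of_nonneg_right h7 (by positivity)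
  have key := bessel (range (x + 2 * h)) w hw0 f φ Γ hΓ0 hrow
  -- the left side
  have hleft : ∀ j, ∑ n ∈ range (x + 2 * h), (w n : ℂ) * (f n * φ j n) =
      ∑ p ∈ (Ioc x (x + h)).filter Nat.Prime, b p * (χ j p * ph (t j) p) := by
    intro j
    have e1 : ∀ n ∈ range (x + 2 * h), (w n : ℂ) * (f n * φ j n) =
        if (n + 1).Prime ∧ x < n + 1 ∧ n + 1 ≤ x + h then
          b (n + 1) * (χ j ((n + 1 : ℕ) : ZMod (q j)) * ph (t j) (n + 1)) else 0 := by
      intro n _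
      simp only [hf, hw, hφ]
      split_ifs with hc
      · rw [WS_eq_one hh (by omega) hc.2.2, sw_prime hz hc.1 (by omega)]
        push_cast
        ring
      · simp
    rw [sum_congr rfl e1, ← sum_filter]
    refine sum_bij (fun m _ => m + 1) ?_ ?_ ?_ ?_
    · intro m hm
      rw [mem_filter, mem_range] at hm
      rw [mem_filter, mem_Ioc]
      exact ⟨hm.2.2, hm.2.1⟩
    · intro a _ c _ hac
      simpa using hac
    · intro p hp
      rw [mem_filter, mem_Ioc] at hp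
      refine ⟨p - 1, ?_, by omega⟩
      rw [mem_filter, mem_range]
      have : p - 1 + 1 = p := by omega
      rw [this]
      exact ⟨by omega, hp.2, hp.1⟩
    · intro m _
      rfl
  simp only [hleft] at key
  refine key.trans ?_
  apply mul_le_mul_of_nonneg_right _ hΓ0
  -- the norm of f
  have hf1 : ∑ n ∈ range (x + 2 * h), w n * ‖f n‖ ^ 2 ≤ ∑ n ∈ range (x + 2 * h), w n := by
    apply sum_le_sum
    intro n hn
    have h8 : ‖f n‖ ≤ 1 := by
      simp only [hf]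
      split_ifs
      · exact hb _
      · simp
    exact mul_le_of_le_one_right (hw0 n hn) (pow_le_one₀ (norm_nonneg _) h8)
  refine hf1.trans ?_
  have hone : Function.Periodic (fun _ : ℕ => (1 : ℂ)) 1 := fun _ => rfl
  have hg := gramS (ψ := fun _ => 1) one_pos hone (fun _ => by simp) 0 z hh hx
  have h9 := norm_kk_le (ψ := fun _ => 1) one_pos hone (fun _ => by simp) z
  have e3 : ∑ m ∈ range (x + 2 * h), ((WS x h (m + 1) * sw z (m + 1) : ℝ) : ℂ) * (1 * ph 0 (m + 1)) =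
      ((∑ n ∈ range (x + 2 * h), w n : ℝ) : ℂ) := by
    push_cast
    apply sum_congr rfl
    intro m _
    rw [ph_zero]
    simp [hw]
  rw [e3, norm_real, Real.norm_of_nonneg (sum_nonneg hw0)] at hg
  refine hg.trans ?_
  unfold er
  rw [abs_zero]
  have h10 : ‖kk (fun _ => 1) 1 z‖ * min (2 * (h : ℝ)) (36 * (x : ℝ) ^ 2 / (h * (1 + 0 ^ 2))) ≤
      kz z * (2 * h) := by
    apply mul_le_mul h9 (min_le_left _ _) _ hkz
    apply le_min <;> positivity
  have e7 : 12 * (x : ℝ) / h * (Lz z ^ 2 * (6 * ((1 : ℕ) : ℝ) * (1 + 0 * hr (x + 2 * h)))) =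
      72 * (x / h) * Lz z ^ 2 := by
    push_cast
    ring
  rw [e7]
  linarith

end Pool.Agent.H439.LS
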