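import Pool.Agent.H439.LS.Dyadic

set_option autoImplicit false

namespace Pool.Agent.H439.LS

open Finset Complex ComplexConjugate Filter Topology

/-- sums over the primes as limits -/
lemma tendsto_primes (f : ℕ → ℂ) (hf : Summable fun p : Nat.Primes => f p) :
    Tendsto (fun N : ℕ => ∑ p ∈ (range N).filter Nat.Prime, f p) atTop
      (𝓝 (∑' p : Nat.Primes, f p)) := by
  have h1 : Summable (Set.indicator {p : ℕ | p.Prime} f) := by
    rw [← summable_subtype_iff_indicator]
    exact hf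
  have h2 := h1.hasSum.tendsto_sum_nat
  have h3 : ∑' p : Nat.Primes, f p = ∑' n : ℕ, Set.indicator {p : ℕ | p.Prime} f n :=
    tsum_subtype {p : ℕ | p.Prime} f
  rw [h3]
  refine h2.congr fun N => ?_
  rw [sum_filter]
  apply sum_congr rfl
  intro n _
  by_cases hn : n.Prime
  · rw [Set.indicator_of_mem (by exact hn), if_pos hn]
  · rw [Set.indicator_of_notMem (by exact hn), if_neg hn]

/-- the small primes -/
noncomputable def small (f : ℕ → ℂ) (Y : ℕ) : ℂ := ∑ p ∈ (range (2 * Y + 1)).filter Nat.Prime, f p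

theorem tail_l2 {J : ℕ} {q : Fin J → ℕ} (χ : ∀ j, DirichletCharacter ℂ (q j))
    (t : Fin J → ℝ) (c : ℕ → ℂ) (hc : Summable fun p : Nat.Primes => ‖c p‖) {Y : ℕ} (hY : 0 < Y)
    {B : ℝ} (hB : ∀ K, ‖vec χ t c (Ioc (2 * Y) (2 ^ (K + 1) * Y))‖ ≤ B) :
    ∑ j, ‖∑' p : Nat.Primes, c p * (χ j (p : ℕ) * ph (t j) p) -
      small (fun p => c p * (χ j p * ph (t j) p)) Y‖ ^ 2 ≤ B ^ 2 := by
  have hB0 : 0 ≤ B := (norm_nonneg _).trans (hB 0)
  have hsum : ∀ j, Summable fun p : Nat.Primes => c p * (χ j (p : ℕ) * ph (t j) p) := by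
    intro j
    refine Summable.of_norm_bounded hc fun p => ?_
    rw [norm_mul, norm_mul, norm_ph _ p.2.pos, mul_one]
    exact mul_le_of_le_one_right (norm_nonneg _) ((χ j).norm_le_one _)
  have hlim : ∀ j, Tendsto (fun K : ℕ => ∑ p ∈ (Ioc (2 * Y) (2 ^ (K + 1) * Y)).filter Nat.Prime,
      c p * (χ j p * ph (t j) p)) atTop (𝓝 (∑' p : Nat.Primes, c p * (χ j (p : ℕ) * ph (t j) p) -
        small (fun p => c p * (χ j p * ph (t j) p)) Y)) := by
    intro j
    have h1 := tendsto_primes (fun p => c p * (χ j p * ph (t j) p)) (hsum j)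
    have h2 : Tendsto (fun K : ℕ => 2 ^ (K + 1) * Y + 1) atTop atTop := by
      apply tendsto_atTop_mono (f := fun K => K) _ tendsto_id
      intro K
      have a1 : K < 2 ^ (K + 1) := (Nat.lt_succ_self K).trans Nat.lt_two_pow_self
      have a2 : 2 ^ (K + 1) ≤ 2 ^ (K + 1) * Y := Nat.le_mul_of_pos_right _ hY
      omega
    have h3 := (h1.comp h2).sub_const (small (fun p => c p * (χ j p * ph (t j) p)) Y)
    refine h3.congr fun K => ?_
    simp only [Function.comp_apply]
    unfold small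
    have a1 : 2 * Y ≤ 2 ^ (K + 1) * Y := by
      apply Nat.mul_le_mul_right
      calc 2 = 2 ^ 1 := by norm_num
        _ ≤ 2 ^ (K + 1) := Nat.pow_le_pow_right (by norm_num) (by omega)
    have e : (range (2 ^ (K + 1) * Y + 1)).filter Nat.Prime =
        (range (2 * Y + 1)).filter Nat.Prime ∪ (Ioc (2 * Y) (2 ^ (K + 1) * Y)).filter Nat.Prime := by
      rw [← filter_union]
      congr 1
      ext p
      simp only [mem_range, mem_union, mem_Ioc]
      omega
    rw [e, sum_union]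
    · ring
    · apply disjoint_filter_filter
      rw [disjoint_left]
      intro p hp hp'
      rw [mem_range] at hp
      rw [mem_Ioc] at hp'
      omega
  have h4 : Tendsto (fun K : ℕ => ∑ j, ‖∑ p ∈ (Ioc (2 * Y) (2 ^ (K + 1) * Y)).filter Nat.Prime,
      c p * (χ j p * ph (t j) p)‖ ^ 2) atTop (𝓝 (∑ j, ‖∑' p : Nat.Primes,
        c p * (χ j (p : ℕ) * ph (t j) p) - small (fun p => c p * (χ j p * ph (t j) p)) Y‖ ^ 2)) :=
    tendsto_finsetSum _ fun j _ => ((hlim j).norm).pow 2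
  refine le_of_tendsto' h4 fun K => ?_
  have h5 := hB K
  rw [norm_vec] at h5
  have h6 := Real.sqrt_le_left hB0 |>.1 h5
  exact h6

/-- the reciprocals of the primes in a dyadic interval -/
lemma sum_inv_block (k : ℕ) (hk : 1 ≤ k) :
    ∑ p ∈ (Ioc (2 ^ k) (2 ^ (k + 1))).filter Nat.Prime, 1 / (p : ℝ) ≤ 4 / k := by
  have hk0 : (0 : ℝ) < k := by exact_mod_cast hk
  have hl2 : 0 < Real.log 2 := Real.log_pos (by norm_num)
  have h1 : ∑ p ∈ (Ioc (2 ^ k) (2 ^ (k + 1))).filter Nat.Prime, Real.log p ≤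
      Chebyshev.theta ((2 : ℝ) ^ (k + 1)) := by
    rw [Chebyshev.theta_eq_sum_Icc]
    apply sum_le_sum_of_subset_of_nonneg
    · intro p hp
      rw [mem_filter, mem_Ioc] at hp
      rw [mem_filter, mem_Icc]
      refine ⟨⟨by omega, ?_⟩, hp.2⟩
      have : (⌊(2 : ℝ) ^ (k + 1)⌋₊) = 2 ^ (k + 1) := by
        have : ((2 : ℝ) ^ (k + 1)) = ((2 ^ (k + 1) : ℕ) : ℝ) := by push_cast; rfl
        rw [this, Nat.floor_natCast]
      rw [this]
      exact hp.1.2
    · intro p hp _
      exact Real.log_natCast_nonneg p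
  have h2 := Chebyshev.theta_le_log4_mul_x (x := (2 : ℝ) ^ (k + 1)) (by positivity)
  have h3 : ∀ p ∈ (Ioc (2 ^ k) (2 ^ (k + 1))).filter Nat.Prime,
      1 / (p : ℝ) ≤ Real.log p * (1 / (2 ^ k * (k * Real.log 2))) := by
    intro p hp
    rw [mem_filter, mem_Ioc] at hp
    have hp1 : (2 : ℝ) ^ k ≤ p := by exact_mod_cast hp.1.1.le
    have hp0 : (0 : ℝ) < p := lt_of_lt_of_le (by positivity) hp1
    have h4 : k * Real.log 2 ≤ Real.log p := by
      rw [← Real.log_pow]
      exact Real.log_le_log (by positivity) hp1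
    rw [mul_one_div, div_le_div_iff₀ hp0 (by positivity)]
    have h5 : 0 < k * Real.log 2 := by positivity
    calc 1 * (2 ^ k * (k * Real.log 2)) = 2 ^ k * (k * Real.log 2) := by ring
      _ ≤ p * Real.log p := mul_le_mul hp1 h4 h5.le hp0.le
      _ = Real.log p * p := by ring
  refine (sum_le_sum h3).trans ?_
  rw [← sum_mul]
  have h5 : Real.log 4 = 2 * Real.log 2 := by
    rw [show (4 : ℝ) = 2 ^ 2 by norm_num, Real.log_pow]; norm_num
  have h6 : ∑ p ∈ (Ioc (2 ^ k) (2 ^ (k + 1))).filter Nat.Prime, Real.log p ≤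
      2 * Real.log 2 * 2 ^ (k + 1) := by
    rw [← h5]; exact h1.trans h2
  calc _ ≤ (2 * Real.log 2 * 2 ^ (k + 1)) * (1 / (2 ^ k * (k * Real.log 2))) := by
        apply mul_le_mul_of_nonneg_right h6 (by positivity)
    _ = 4 / k := by
        rw [pow_succ]
        field_simp
        ring

lemma sum_inv_small (n : ℕ) :
    ∑ p ∈ (range (2 ^ (n + 1) + 1)).filter Nat.Prime, 1 / (p : ℝ) ≤ 1 + 4 * hr n := by
  induction n with
  | zero =>
    have : (range (2 ^ (0 + 1) + 1)).filter Nat.Prime = {2} := by decide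
    rw [this, sum_singleton]
    unfold hr
    norm_num
  | succ n ih =>
    have e : (range (2 ^ (n + 1 + 1) + 1)).filter Nat.Prime =
        (range (2 ^ (n + 1) + 1)).filter Nat.Prime ∪
          (Ioc (2 ^ (n + 1)) (2 ^ (n + 1 + 1))).filter Nat.Prime := by
      rw [← filter_union]
      congr 1
      have : 2 ^ (n + 1) ≤ 2 ^ (n + 1 + 1) := Nat.pow_le_pow_right (by norm_num) (by omega)
      ext p
      simp only [mem_range, mem_union, mem_Ioc]
      omega
    rw [e, sum_union]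
    · have h1 := sum_inv_block (n + 1) (by omega)
      have h2 : hr (n + 1) = hr n + 1 / ((n : ℝ) + 1) := by
        unfold hr; rw [sum_range_succ]
      rw [h2]
      push_cast at h1
      have h3 : 4 * (1 / ((n : ℝ) + 1)) = 4 / ((n : ℝ) + 1) := by ring
      linarith
    · apply disjoint_filter_filter
      rw [disjoint_left]
      intro p hp hp'
      rw [mem_range] at hp
      rw [mem_Ioc] at hp'
      omega

lemma sum_inv_small' (n : ℕ) :
    ∑ p ∈ (range (2 * 2 ^ n + 1)).filter Nat.Prime, 1 / (p : ℝ) ≤ 5 + 4 * Real.log n := by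
  have h1 := sum_inv_small n
  have h2 := hr_le n
  rw [pow_succ, mul_comm] at h1
  linarith

/-- the sum with the logarithms -/
lemma sum_pow_div {ε : ℝ} (h0 : 0 < ε) (h1 : ε ≤ 1) (K : ℕ) :
    ∑ k ∈ range K, ((2 : ℝ) ^ (-ε)) ^ k / (k + 1) ≤ 2 * Real.log (2 / ε) := by
  set x : ℝ := (2 : ℝ) ^ (-ε) with hx
  have hx0 : 0 < x := Real.rpow_pos_of_pos (by norm_num) _
  have hxe : x = (1 / 2 : ℝ) ^ ε := by
    rw [hx, Real.rpow_neg (by norm_num), one_div, Real.inv_rpow (by norm_num)]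
  have hxle : x ≤ 1 - ε / 2 := by
    have := rpow_one_add_le_one_add_mul_self (s := -1 / 2) (by norm_num) h0.le h1
    rw [hxe]
    have e : (1 / 2 : ℝ) = 1 + -1 / 2 := by norm_num
    rw [e]
    refine this.trans (le_of_eq ?_)
    ring
  have hxhalf : 1 / 2 ≤ x := by
    rw [hxe]
    conv_lhs => rw [← Real.rpow_one (1 / 2 : ℝ)]
    exact Real.rpow_le_rpow_of_exponent_ge (by norm_num) (by norm_num) h1
  have habs : |x| < 1 := by rw [abs_of_pos hx0]; linarith
  have h2 := Real.hasSum_pow_div_log_of_abs_lt_one habs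
  have h3 : ∑ k ∈ range K, x ^ (k + 1) / ((k : ℝ) + 1) ≤ -Real.log (1 - x) :=
    sum_le_hasSum _ (fun k _ => by positivity) h2
  have h4 : ∑ k ∈ range K, x ^ (k + 1) / ((k : ℝ) + 1) = x * ∑ k ∈ range K, x ^ k / ((k : ℝ) + 1) := by
    rw [mul_sum]
    apply sum_congr rfl
    intro k _
    rw [pow_succ]; ring
  have h5 : -Real.log (1 - x) ≤ Real.log (2 / ε) := by
    rw [← Real.log_inv]
    apply Real.log_le_log (inv_pos.2 (by linarith))
    rw [inv_eq_one_div, div_le_div_iff₀ (by linarith) h0]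
    linarith
  rw [h4] at h3
  have h6 : 0 ≤ ∑ k ∈ range K, x ^ k / ((k : ℝ) + 1) := sum_nonneg fun k _ => by positivity
  nlinarith

end Pool.Agent.H439.LS
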