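import Pool.Graph.R_pool_sql_team_909e0234.H25.Selberg

set_option autoImplicit false

namespace Pool.Agent.H439.LS

open Finset Pool.Agent.H25.Selberg

/-- the primes up to `z` -/
def PZ (z : ℕ) : Finset ℕ := (range (z + 1)).filter Nat.Prime

/-- the product of a set of primes -/
def qq (s : Finset ℕ) : ℕ := ∏ p ∈ s, p

/-- the support of the weights -/
def TZ (z : ℕ) : Finset (Finset ℕ) := (PZ z).powerset.filter (fun s => qq s ≤ z)

/-- the weights -/
noncomputable def lz (z : ℕ) (s : Finset ℕ) : ℝ := lam (fun p : ℕ => 1 / (p : ℝ)) (TZ z) s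

/-- the sieve weight of `n` -/
noncomputable def sw (z n : ℕ) : ℝ :=
  (∑ s ∈ (PZ z).powerset, if qq s ∣ n then lz z s else 0) ^ 2

/-- the total variation of the weights -/
noncomputable def Lz (z : ℕ) : ℝ := ∑ s ∈ (PZ z).powerset, |lz z s|

lemma prime_of_mem {z p : ℕ} (hp : p ∈ PZ z) : p.Prime := (mem_filter.1 hp).2

lemma hg (z : ℕ) : ∀ p ∈ PZ z, 0 < (fun p : ℕ => 1 / (p : ℝ)) p ∧ (fun p : ℕ => 1 / (p : ℝ)) p < 1 := by
  intro p hp
  have h := (prime_of_mem hp).two_le
  have h2 : (2 : ℝ) ≤ p := by exact_mod_cast h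
  constructor
  · simp only
    positivity
  · simp only
    rw [div_lt_one (by linarith)]
    linarith

lemma hT (z : ℕ) : TZ z ⊆ (PZ z).powerset := filter_subset _ _

lemma h0 {z : ℕ} (hz : 1 ≤ z) : ∅ ∈ TZ z := by
  rw [TZ, mem_filter]
  refine ⟨empty_mem_powerset _, ?_⟩
  rw [qq, prod_empty]
  exact hz

lemma qq_pos {z : ℕ} {s : Finset ℕ} (hs : s ⊆ PZ z) : 0 < qq s :=
  prod_pos fun _ hp => (prime_of_mem (hs hp)).pos

lemma qq_dvd {z : ℕ} {s : Finset ℕ} (hs : s ⊆ PZ z) (n : ℕ) : qq s ∣ n ↔ ∀ p ∈ s, p ∣ n := by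
  constructor
  · intro h p hp
    exact (dvd_prod_of_mem _ hp).trans h
  · intro h
    exact Finset.prod_primes_dvd n (fun p hp => (prime_of_mem (hs hp)).prime) h

lemma qq_union_dvd {z : ℕ} {s t : Finset ℕ} (hs : s ⊆ PZ z) (ht : t ⊆ PZ z) (n : ℕ) :
    qq (s ∪ t) ∣ n ↔ qq s ∣ n ∧ qq t ∣ n := by
  rw [qq_dvd (union_subset hs ht), qq_dvd hs, qq_dvd ht]
  constructor
  · intro h
    exact ⟨fun p hp => h p (mem_union_left _ hp), fun p hp => h p (mem_union_right _ hp)⟩
  · rintro ⟨h1, h2⟩ p hp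
    rcases mem_union.1 hp with h | h
    · exact h1 p h
    · exact h2 p h

lemma hdown (z : ℕ) : ∀ t ∈ TZ z, ∀ s, s ⊆ t → s ∈ TZ z := by
  intro t ht s hst
  simp only [TZ, mem_filter, mem_powerset] at ht ⊢
  refine ⟨hst.trans ht.1, le_trans ?_ ht.2⟩
  exact Nat.le_of_dvd (qq_pos ht.1) ((qq_dvd (hst.trans ht.1) _).2 fun p hp =>
    (qq_dvd ht.1 _).1 dvd_rfl p (hst hp))

lemma sw_nonneg (z n : ℕ) : 0 ≤ sw z n := sq_nonneg _

lemma sw_expand (z n : ℕ) : sw z n = ∑ s ∈ (PZ z).powerset, ∑ t ∈ (PZ z).powerset,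
    lz z s * lz z t * (if qq (s ∪ t) ∣ n then 1 else 0) := by
  unfold sw
  rw [sq, sum_mul_sum]
  apply sum_congr rfl
  intro s hs
  apply sum_congr rfl
  intro t ht
  rw [mem_powerset] at hs ht
  have := qq_union_dvd hs ht n
  by_cases h1 : qq s ∣ n <;> by_cases h2 : qq t ∣ n <;> simp [this, h1, h2]

lemma lz_empty {z : ℕ} (hz : 1 ≤ z) : lz z ∅ = 1 := lam_empty (hg z) (hT z) (h0 hz)

lemma sw_prime {z : ℕ} (hz : 1 ≤ z) {p : ℕ} (hp : p.Prime) (h : z < p) : sw z p = 1 := by
  unfold sw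
  have : ∀ s ∈ (PZ z).powerset, (if qq s ∣ p then lz z s else 0) = if s = ∅ then 1 else 0 := by
    intro s hs
    rw [mem_powerset] at hs
    by_cases hs0 : s = ∅
    · subst hs0
      simp [qq, lz_empty hz]
    · rw [if_neg hs0, if_neg]
      intro hd
      obtain ⟨r, hr⟩ := nonempty_iff_ne_empty.2 hs0
      have h1 := (qq_dvd hs p).1 hd r hr
      have h2 := prime_of_mem (hs hr)
      have h3 := (Nat.prime_dvd_prime_iff_eq h2 hp).1 h1
      have h4 := mem_range.1 (mem_filter.1 (hs hr)).1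
      omega
  rw [sum_congr rfl this, sum_ite_eq' , if_pos (empty_mem_powerset _), one_pow]

lemma pr_eq (s : Finset ℕ) : pr (fun p : ℕ => 1 / (p : ℝ)) s = 1 / (qq s : ℝ) := by
  unfold pr qq
  rw [prod_div_distrib, prod_const_one]
  push_cast
  rfl

/-- the value of the quadratic form -/
noncomputable def kz (z : ℕ) : ℝ := ∑ s ∈ (PZ z).powerset, ∑ t ∈ (PZ z).powerset,
    lz z s * lz z t * (1 / (qq (s ∪ t) : ℝ))

lemma kz_eq {z : ℕ} (hz : 1 ≤ z) : kz z = 1 / LL (fun p : ℕ => 1 / (p : ℝ)) (TZ z) := by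
  rw [← quad (hg z) (hT z) (h0 hz)]
  unfold kz
  apply sum_congr rfl
  intro s _
  apply sum_congr rfl
  intro t _
  rw [pr_eq]
  rfl

lemma qq_primeFactors {n : ℕ} (hn : Squarefree n) : qq n.primeFactors = n :=
  Nat.prod_primeFactors_of_squarefree hn

lemma sum_inv_sq_le (z : ℕ) : ∑ m ∈ Icc 1 z, 1 / ((m : ℝ)) ^ 2 ≤ 2 := by
  have : ∀ z : ℕ, 1 ≤ z → ∑ m ∈ Icc 1 z, 1 / ((m : ℝ)) ^ 2 ≤ 2 - 1 / (z : ℝ) := by
    intro z hz
    induction z, hz using Nat.le_induction with
    | base => norm_num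
    | succ n hn ih =>
      rw [sum_Icc_succ_top (by omega)]
      have h1 : (1 : ℝ) ≤ n := by exact_mod_cast hn
      have h2 : 1 / (((n + 1 : ℕ)) : ℝ) ^ 2 ≤ 1 / (n : ℝ) - 1 / ((n + 1 : ℕ) : ℝ) := by
        push_cast
        rw [div_sub_div _ _ (by positivity) (by positivity), div_le_div_iff₀ (by positivity) (by positivity)]
        nlinarith
      linarith
  rcases Nat.eq_zero_or_pos z with h | h
  · subst h; simp
  · have h1 := this z h
    have : (0 : ℝ) ≤ 1 / (z : ℝ) := by positivity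
    linarith

lemma LL_ge (z : ℕ) : Real.log z / 2 ≤ LL (fun p : ℕ => 1 / (p : ℝ)) (TZ z) := by
  -- step 1: the harmonic sum
  have h1 : Real.log z ≤ ∑ n ∈ Icc 1 z, 1 / (n : ℝ) := by
    rcases Nat.eq_zero_or_pos z with h | h
    · subst h; simp
    · have := log_add_one_le_harmonic z
      have h2 : (harmonic z : ℝ) = ∑ n ∈ Icc 1 z, 1 / (n : ℝ) := by
        rw [harmonic_eq_sum_Icc]
        push_cast
        simp
      rw [← h2]
      refine le_trans (Real.log_le_log (by exact_mod_cast h) ?_) this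
      push_cast
      linarith
  have h2 : ∑ n ∈ Icc 1 z, 1 / (n : ℝ) ≤
      (∑ t ∈ TZ z, 1 / (qq t : ℝ)) * ∑ m ∈ Icc 1 z, 1 / ((m : ℝ)) ^ 2 := by
    have hch : ∀ n : ℕ, ∃ x : ℕ × ℕ, x.2 ^ 2 * x.1 = n ∧ Squarefree x.1 := by
      intro n
      obtain ⟨a, b, h1, h2⟩ := Nat.sq_mul_squarefree n
      exact ⟨(a, b), h1, h2⟩
    choose x hx1 hx2 using hch
    rw [sum_mul_sum, ← sum_product']
    have e1 : ∑ n ∈ Icc 1 z, 1 / (n : ℝ) =
        ∑ y ∈ (Icc 1 z).image (fun n => ((x n).1.primeFactors, (x n).2)),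
          1 / (qq y.1 : ℝ) * (1 / (y.2 : ℝ) ^ 2) := by
      rw [sum_image]
      · apply sum_congr rfl
        intro n hn
        simp only
        rw [qq_primeFactors (hx2 n)]
        conv_lhs => rw [← hx1 n]
        push_cast
        rw [← one_div_mul_one_div_rev]
      · intro a _ b _ hab
        simp only [Prod.mk.injEq] at hab
        rw [← hx1 a, ← hx1 b, ← qq_primeFactors (hx2 a), ← qq_primeFactors (hx2 b), hab.1, hab.2]
    rw [e1]
    apply sum_le_sum_of_subset_of_nonneg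
    · intro y hy
      rw [mem_image] at hy
      obtain ⟨n, hn, rfl⟩ := hy
      rw [mem_Icc] at hn
      have hne : n ≠ 0 := by omega
      have ha : (x n).1 ≠ 0 := (hx2 n).ne_zero
      have hb : (x n).2 ≠ 0 := by
        intro h
        have := hx1 n
        rw [h] at this
        simp at this
        omega
      have h3 : (x n).1 ≤ n := by
        conv_rhs => rw [← hx1 n]
        exact Nat.le_mul_of_pos_left _ (by positivity)
      have h4 : (x n).2 ≤ n := by
        conv_rhs => rw [← hx1 n]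
        calc (x n).2 ≤ (x n).2 ^ 2 := Nat.le_self_pow (by norm_num) _
          _ ≤ _ := Nat.le_mul_of_pos_right _ (by omega)
      rw [mem_product, mem_Icc]
      refine ⟨?_, by simp only; omega, by simp only; omega⟩
      simp only [TZ, mem_filter, mem_powerset, qq_primeFactors (hx2 n)]
      refine ⟨?_, h3.trans hn.2⟩
      intro p hp
      rw [Nat.mem_primeFactors] at hp
      simp only [PZ, mem_filter, mem_range]
      exact ⟨by have := Nat.le_of_dvd (by omega) hp.2.1; omega, hp.1⟩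
    · intro y _ _
      positivity
  have h3 : ∑ t ∈ TZ z, 1 / (qq t : ℝ) ≤ LL (fun p : ℕ => 1 / (p : ℝ)) (TZ z) := by
    unfold LL
    apply sum_le_sum
    intro t ht
    rw [← pr_eq]
    unfold pr
    apply prod_le_prod
    · intro p _; positivity
    · intro p hp
      have hp2 := (prime_of_mem ((mem_powerset.1 (hT z ht)) hp)).two_le
      have h2 : (2 : ℝ) ≤ p := by exact_mod_cast hp2
      unfold hh
      have h5 : 0 < 1 - 1 / (p : ℝ) := by
        rw [sub_pos, div_lt_one (by linarith)]; linarith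
      rw [le_div_iff₀ h5]
      have h6 : 0 ≤ 1 / (p : ℝ) := by positivity
      nlinarith
  have h4 := sum_inv_sq_le z
  have h5 : 0 ≤ ∑ t ∈ TZ z, 1 / (qq t : ℝ) := sum_nonneg fun t _ => by positivity
  have h6 : (∑ t ∈ TZ z, 1 / (qq t : ℝ)) * ∑ m ∈ Icc 1 z, 1 / ((m : ℝ)) ^ 2 ≤
      (∑ t ∈ TZ z, 1 / (qq t : ℝ)) * 2 := mul_le_mul_of_nonneg_left h4 h5
  linarith

lemma kz_le {z : ℕ} (hz : 2 ≤ z) : kz z ≤ 2 / Real.log z := by
  rw [kz_eq (by omega)]
  have h1 := LL_ge z
  have h2 : 0 < Real.log z := Real.log_pos (by exact_mod_cast hz)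
  rw [div_le_div_iff₀ (by linarith) h2]
  linarith

lemma kz_nonneg {z : ℕ} (hz : 1 ≤ z) : 0 ≤ kz z := by
  rw [kz_eq hz]
  have := LL_pos (hg z) (hT z) (h0 hz)
  positivity

lemma Lz_le {z : ℕ} (hz : 1 ≤ z) : Lz z ≤ (z : ℝ) ^ 2 := by
  have h1 : Lz z = ∑ s ∈ TZ z, |lz z s| := by
    unfold Lz
    symm
    apply sum_subset (hT z)
    intro s _ hs
    rw [lz, lam_zero (hdown z) s hs, abs_zero]
  have h2 : ∀ s ∈ TZ z, |lz z s| ≤ z := by
    intro s hs
    have hs' := mem_powerset.1 (hT z hs)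
    have h3 := abs_lam (hg z) (hT z) (h0 hz) (hdown z) s hs' 2 (by
      intro p hp
      have hp2 := (prime_of_mem hp).two_le
      have h2 : (2 : ℝ) ≤ p := by exact_mod_cast hp2
      have h5 : 1 / (p : ℝ) ≤ 1 / 2 := by
        apply one_div_le_one_div_of_le <;> linarith
      rw [div_le_iff₀ (by linarith)]
      linarith)
    refine h3.trans ?_
    have h4 : 2 ^ s.card ≤ qq s := by
      unfold qq
      rw [← prod_const]
      apply prod_le_prod'
      intro p hp
      exact (prime_of_mem (hs' hp)).two_le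
    have h5 := (mem_filter.1 hs).2
    exact_mod_cast h4.trans h5
  have h3 : (TZ z).card ≤ z := by
    have : (TZ z).card ≤ (Icc 1 z).card := by
      apply card_le_card_of_injOn qq
      · intro s hs
        have hs' := mem_powerset.1 (hT z hs)
        rw [coe_Icc, Set.mem_Icc]
        exact ⟨qq_pos hs', (mem_filter.1 hs).2⟩
      · intro s hs t ht hst
        have hs' := mem_powerset.1 (hT z hs)
        have ht' := mem_powerset.1 (hT z ht)
        apply subset_antisymm
        · intro p hp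
          have h4 : p ∣ qq t := by
            have : p ∣ qq s := dvd_prod_of_mem _ hp
            rw [hst] at this
            exact this
          obtain ⟨r, hr, h5⟩ := (Prime.dvd_finsetProd_iff (prime_of_mem (hs' hp)).prime _).1 h4
          rw [(Nat.prime_dvd_prime_iff_eq (prime_of_mem (hs' hp)) (prime_of_mem (ht' hr))).1 h5]
          exact hr
        · intro p hp
          have h4 : p ∣ qq s := by
            have : p ∣ qq t := dvd_prod_of_mem _ hp
            rw [← hst] at this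
            exact this
          obtain ⟨r, hr, h5⟩ := (Prime.dvd_finsetProd_iff (prime_of_mem (ht' hp)).prime _).1 h4
          rw [(Nat.prime_dvd_prime_iff_eq (prime_of_mem (ht' hp)) (prime_of_mem (hs' hr))).1 h5]
          exact hr
    simpa using this
  rw [h1]
  calc ∑ s ∈ TZ z, |lz z s| ≤ ∑ s ∈ TZ z, (z : ℝ) := sum_le_sum h2
    _ = (TZ z).card * (z : ℝ) := by rw [sum_const, nsmul_eq_mul]
    _ ≤ z * z := by
        apply mul_le_mul_of_nonneg_right _ (Nat.cast_nonneg _)
        exact_mod_cast h3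
    _ = _ := by ring

lemma Lz_nonneg (z : ℕ) : 0 ≤ Lz z := sum_nonneg fun _ _ => abs_nonneg _

end Pool.Agent.H439.LS
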